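import Pool.Agent.EOLForms.Control

/-! Analysis of controlled derivations. -/

namespace Pool.Agent.EOLForms

variable {α : Type*} {R : α → List α → Prop} {T : α → Prop}

/-- `m` is a marker occurring exactly once, and the number of letters `σ` in a factor without
marker is determined by the context -/
structure Rig [DecidableEq α] (𝓛 : List α → Prop) (m σ : α) : Prop where
  one : ∀ z, 𝓛 z → z ≠ [] → z.count m = 1
  rig : ∀ x y y1 z, 𝓛 (x ++ (y ++ z)) → 𝓛 (x ++ (y1 ++ z)) → x ++ (y ++ z) ≠ [] → m ∉ y →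
    y.count σ = y1.count σ

/-- context predicate -/
def Cx (R : α → List α → Prop) (T : α → Prop) (𝓛 : List α → Prop) (t : ℕ) (X : α)
    (x1 x2 : List α) : Prop := ∀ y, LT R T t [X] y → 𝓛 (x1 ++ (y ++ x2))

variable {𝓛 : List α → Prop}

lemma Cx.step {t : ℕ} {X Y : α} {x1 x2 δ1 δ2 z1 z2 : List α} (h : Cx R T 𝓛 (t + 1) X x1 x2)
    (hR : R X (δ1 ++ Y :: δ2)) (h1 : LT R T t δ1 z1) (h2 : LT R T t δ2 z2) :
    Cx R T 𝓛 t Y (x1 ++ z1) (z2 ++ x2) := by
  intro y hy
  have := h (z1 ++ (y ++ z2)) (LT_single_succ.2 ⟨_, hR, LT_mid.2 ⟨z1, y, z2, h1, hy, h2, rfl⟩⟩)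
  simpa using this

section

variable [DecidableEq α] {m σ : α}

lemma marker_in (hr : Rig 𝓛 m σ) {t : ℕ} {X : α} {x1 x2 y : List α} (h : Cx R T 𝓛 t X x1 x2)
    (hm : Has R T m t X) (hy : LT R T t [X] y) (hne : x1 ++ (y ++ x2) ≠ []) : m ∈ y := by
  obtain ⟨ym, h1, h2⟩ := hm
  have h3 := hr.one _ (h ym h1) (by
    intro h4
    simp at h4
    rw [h4.2.1] at h2
    simp at h2)
  have h4 := hr.one _ (h y hy) hne
  have h5 : 0 < ym.count m := List.count_pos_iff.2 h2
  rw [List.count_append, List.count_append] at h3 h4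
  apply List.count_pos_iff.1
  omega

lemma side_grow (hr : Rig 𝓛 m σ) {t : ℕ} {X Y Z : α} {x1 x2 δ1 δ2 z1 y z2 y1 : List α}
    (h : Cx R T 𝓛 (t + 1) X x1 x2) (hR : R X (δ1 ++ Y :: δ2)) (h1 : LT R T t δ1 z1)
    (hy : LT R T t [Y] y) (h2 : LT R T t δ2 z2) (hm : m ∈ y) (hZ : Z ∈ δ1 ++ δ2)
    (hy1 : LT R T t [Z] y1) : y1.count σ ≤ (z1 ++ z2).count σ := by
  have htot : 𝓛 (x1 ++ ((z1 ++ (y ++ z2)) ++ x2)) :=
    h _ (LT_single_succ.2 ⟨_, hR, LT_mid.2 ⟨z1, y, z2, h1, hy, h2, rfl⟩⟩)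
  have hne : x1 ++ ((z1 ++ (y ++ z2)) ++ x2) ≠ [] := by
    intro h4
    simp at h4
    rw [h4.2.2.1] at hm
    simp at hm
  have hone := hr.one _ htot hne
  have hym : 0 < y.count m := List.count_pos_iff.2 hm
  rw [List.mem_append] at hZ
  rcases hZ with hZ | hZ
  · obtain ⟨ε1, ε2, rfl⟩ := List.append_of_mem hZ
    rw [LT_mid] at h1
    obtain ⟨u1, yz, u2, g1, g2, g3, rfl⟩ := h1
    have hrep : 𝓛 (x1 ++ ((u1 ++ (y1 ++ (u2 ++ (y ++ z2)))) ++ x2)) := by
      apply h
      rw [LT_single_succ]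
      refine ⟨_, hR, ?_⟩
      have e : ε1 ++ Z :: ε2 ++ Y :: δ2 = ε1 ++ Z :: (ε2 ++ Y :: δ2) := by simp
      rw [e]
      exact LT_mid.2 ⟨u1, y1, u2 ++ (y ++ z2), g1, hy1,
        LT_mid.2 ⟨u2, y, z2, g3, hy, h2, rfl⟩, rfl⟩
    have := hr.rig (x1 ++ u1) yz y1 (u2 ++ (y ++ (z2 ++ x2))) (by simpa using htot)
      (by simpa using hrep) (by simpa using hne) (by
        intro hc
        have hc' : 0 < yz.count m := List.count_pos_iff.2 hc
        simp only [List.count_append] at hone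
        omega)
    rw [← this]
    simp only [List.count_append]
    omega
  · obtain ⟨ε1, ε2, rfl⟩ := List.append_of_mem hZ
    rw [LT_mid] at h2
    obtain ⟨u1, yz, u2, g1, g2, g3, rfl⟩ := h2
    have hrep : 𝓛 (x1 ++ ((z1 ++ (y ++ (u1 ++ (y1 ++ u2)))) ++ x2)) := by
      apply h
      rw [LT_single_succ]
      refine ⟨_, hR, ?_⟩
      exact LT_mid.2 ⟨z1, y, _, h1, hy, LT_mid.2 ⟨u1, y1, u2, g1, hy1, g3, rfl⟩, rfl⟩
    have := hr.rig (x1 ++ (z1 ++ (y ++ u1))) yz y1 (u2 ++ x2) (by simpa using htot)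
      (by simpa using hrep) (by simpa using hne) (by
        intro hc
        have hc' : 0 < yz.count m := List.count_pos_iff.2 hc
        simp only [List.count_append] at hone
        omega)
    rw [← this]
    simp only [List.count_append]
    omega

lemma has_of_path {t : ℕ} {X Z : α} {l : List (Stp α)} (h : IsPath R T t X l Z)
    (hm : Has R T m t Z) : Has R T m (t + l.length) X := by
  obtain ⟨z, h1, h2⟩ := hm
  obtain ⟨z1, z2, h3⟩ := h.yield h1
  exact ⟨_, h3, by simp [h2]⟩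

end

namespace Ctrl

variable (K : Ctrl α)

lemma pathL_cons (k : Kd) (s : Stp α) (l : List (Stp α)) :
    K.pathL k (s :: l) = Lb.path k (s :: l) := by
  unfold pathL
  split
  · next h1 h2 => exact absurd h2 (by simp)
  · rfl

lemma fr_proj (r : ℕ) (x : List α) : (fr r x).map Prod.fst = x := by
  simp [fr, Function.comp_def]

lemma lb_proj (q : Lb α) (x : List α) : (x.map fun Y => (Y, q)).map Prod.fst = x := by
  simp [Function.comp_def]

/-- one controlled step -/
lemma step_path {t : ℕ} {X : α} {k : Kd} {s : Stp α} {l : List (Stp α)} {z : List (α × Lb α)}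
    (h : LT (K.R2 R) (fin T) (t + 1) [(X, K.pathL k (s :: l))] z) (hz : z ≠ []) :
    R X (s.1 ++ s.2.1 :: s.2.2) ∧ ∃ z1 y z2, LT R T t s.1 z1 ∧
      LT (K.R2 R) (fin T) t [(s.2.1, K.pathL k l)] y ∧ LT R T t s.2.2 z2 ∧
      z.map Prod.fst = z1 ++ (y.map Prod.fst ++ z2) := by
  rw [K.pathL_cons, LT_single_succ] at h
  obtain ⟨β, hR, hβ⟩ := h
  cases hR with
  | dead _ _ β h => exact absurd (K.dead_nil hβ) hz
  | path _ _ _ _ h =>
    refine ⟨h, ?_⟩
    rw [LT_mid] at hβ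
    obtain ⟨z1, y, z2, g1, g2, g3, rfl⟩ := hβ
    have g1' := K.LT_proj g1
    have g3' := K.LT_proj g3
    rw [fr_proj] at g1' g3'
    exact ⟨_, y, _, g1', g2, g3', by simp⟩

variable (C : EC R T)

lemma descend [DecidableEq α] {m σ : α} (hr : Rig 𝓛 m σ) (hmV : m ∈ C.V) {k : Kd} {r : List (Stp α)} {Z : α}
    {e t' : ℕ} (he : C.t0 ≤ e) (ht' : C.t0 ≤ t') (hmod : t' % C.p = e % C.p)
    (hm : Has R T m e Z) : ∀ (l : List (Stp α)) (X : α) (x1 x2 : List α) (y : List (α × Lb α)),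
    X ∈ C.V → IsPath R T e X l Z → Cx R T 𝓛 (t' + l.length) X x1 x2 →
    LT (K.R2 R) (fin T) (t' + l.length) [(X, K.pathL k (l ++ r))] y →
    x1 ++ (y.map Prod.fst ++ x2) ≠ [] →
    ∃ u1 w u2, y.map Prod.fst = u1 ++ (w.map Prod.fst ++ u2) ∧
      LT (K.R2 R) (fin T) t' [(Z, K.pathL k r)] w ∧ Cx R T 𝓛 t' Z (x1 ++ u1) (u2 ++ x2) := by
  intro l
  induction l with
  | nil =>
    intro X x1 x2 y hX hp hc hy _
    simp only [IsPath] at hp
    subst hp
    refine ⟨[], y, [], by simp, hy, ?_⟩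
    simpa using hc
  | cons s l ih =>
    intro X x1 x2 y hX hp hc hy hne
    have hp' := C.path_shift he ht' hmod.symm hp
    have hmZ : Has R T m t' Z :=
      C.has_mod he ht' hmod.symm (C.path_end_mem hX hp) hmV hm
    have hmX := has_of_path hp' hmZ
    have hproj := K.LT_proj hy
    simp only [List.map_cons, List.map_nil] at hproj
    have hin := marker_in hr hc hmX hproj hne
    have hyne : y ≠ [] := by
      rintro rfl
      simp at hin
    have e1 : t' + (s :: l).length = t' + l.length + 1 := by simp; ring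
    rw [e1] at hy hc
    rw [List.cons_append] at hy
    obtain ⟨hRX, z1, y1, z2, g1, g2, g3, g4⟩ := K.step_path hy hyne
    have hc2 := hc.step hRX g1 g3
    have hX2 : s.2.1 ∈ C.V := C.hV _ _ hRX _ (by simp)
    obtain ⟨u1, w, u2, k1, k2, k3⟩ := ih s.2.1 (x1 ++ z1) (z2 ++ x2) y1 hX2 hp.2.2 hc2 g2 (by
      intro h0
      apply hne
      rw [g4]
      simpa using h0)
    refine ⟨z1 ++ u1, w, u2 ++ z2, ?_, k2, ?_⟩
    · rw [g4, k1]; simp
    · simpa using k3

/-- loops -/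
lemma loop_bound [DecidableEq α] {m σ : α} (hr : Rig 𝓛 m σ) (hmV : m ∈ C.V) (hσV : σ ∈ C.V)
    (hKp : K.p = C.p) (hWF : K.WF) {b : Bool} {s : Stp α} {l : List (Stp α)}
    (hlp : K.lp b = some (s, l)) (he : C.t0 ≤ K.e1 b) {Z : α} (hZ : Z ∈ C.V)
    (hpath : IsPath R T (K.e1 b) Z (s :: l) Z)
    (hact : ∃ W ∈ s.1 ++ s.2.2, Has R T σ (K.e1 b + l.length) W)
    (hm : Has R T m (K.e1 b) Z) : ∀ (t' : ℕ) (x1 x2 : List α) (y : List (α × Lb α)),
    C.t0 ≤ t' → t' % C.p = K.e1 b % C.p → Cx R T 𝓛 t' Z x1 x2 →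
    LT (K.R2 R) (fin T) t' [(Z, Lb.path (Kd.lp b) [])] y →
    x1 ++ (y.map Prod.fst ++ x2) ≠ [] →
    t' ≤ (K.e1 b + C.t0 + (l.length + 1)) + (l.length + 1) * (y.map Prod.fst).count σ := by
  intro t'
  induction t' using Nat.strong_induction_on with
  | _ t' ih =>
  intro x1 x2 y ht' hmod hc hy hne
  by_cases hsmall : t' ≤ K.e1 b + C.t0 + (l.length + 1)
  · omega
  push Not at hsmall
  have hmZ : Has R T m t' Z := C.has_mod he ht' hmod.symm hZ hmV hm
  have hproj := K.LT_proj hy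
  simp only [List.map_cons, List.map_nil] at hproj
  have hin := marker_in hr hc hmZ hproj hne
  have hyne : y ≠ [] := by
    rintro rfl
    simp at hin
  obtain ⟨t, rfl⟩ : ∃ t, t' = t + 1 := ⟨t' - 1, by omega⟩
  have hy0 := hy
  rw [LT_single_succ] at hy
  obtain ⟨β, hR, hβ⟩ := hy
  cases hR with
  | dead _ _ β h => exact absurd (K.dead_nil hβ) hyne
  | lexit _ _ β h =>
    obtain ⟨⟨Y, q⟩, hY, y', h3, h4⟩ := LT_single_of_ne hβ hyne
    rw [List.mem_map] at hY
    obtain ⟨a, _, ha⟩ := hY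
    cases ha
    have h5 := K.exit_spec h3 h4
    have := hWF.he1 b
    omega
  | loop _ _ s' l' hlp' h =>
    rw [hlp] at hlp'
    cases hlp'
    rw [LT_mid] at hβ
    obtain ⟨z1, w, z2, g1, g2, g3, rfl⟩ := hβ
    have g1' := K.LT_proj g1
    have g3' := K.LT_proj g3
    rw [fr_proj] at g1' g3'
    have g2' := K.LT_proj g2
    simp only [List.map_cons, List.map_nil] at g2'
    have hc2 := hc.step h g1' g3'
    -- time bookkeeping
    obtain ⟨t'', ht''⟩ : ∃ t'', t = t'' + l.length := ⟨t - l.length, by omega⟩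
    subst ht''
    obtain ⟨c, hcp⟩ := hWF.hlp b s l hlp
    have hmod2 : t'' % C.p = K.e1 b % C.p := by
      have e1 : t'' + l.length + 1 = t'' + C.p * c := by rw [← hKp]; omega
      rw [e1, Nat.add_mul_mod_self_left] at hmod
      exact hmod
    have ht2 : C.t0 ≤ t'' := by omega
    have hp2 : IsPath R T t'' s.2.1 l Z := C.path_shift he ht2 hmod2.symm hpath.2.2
    have hmZ2 : Has R T m t'' Z := C.has_mod he ht2 hmod2.symm hZ hmV hm
    have hmX := has_of_path hp2 hmZ2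
    have hne2 : (x1 ++ z1.map Prod.fst) ++ (w.map Prod.fst ++ (z2.map Prod.fst ++ x2)) ≠ [] := by
      simpa using hne
    have hmw : m ∈ w.map Prod.fst := marker_in hr hc2 hmX g2' hne2
    -- the active sibling
    obtain ⟨W, hW, hW2⟩ := hact
    have hWV : W ∈ C.V := by
      apply C.hV _ _ h
      rw [List.mem_append] at hW
      rcases hW with hW | hW <;> simp [hW]
    have hW3 : Has R T σ (t'' + l.length) W :=
      C.has_mod (t := K.e1 b + l.length) (by omega) (by omega) (C.mod_add hmod2.symm _) hWV hσV hW2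
    obtain ⟨y1, hy1, hσy⟩ := hW3
    have hsg := side_grow hr hc h g1' g2' g3' hmw hW hy1
    have hpos : 0 < y1.count σ := List.count_pos_iff.2 hσy
    have hX2 : s.2.1 ∈ C.V := C.hV _ _ h _ (by simp)
    have e2 : K.pathL (Kd.lp b) (l ++ []) = Lb.path (Kd.lp b) l := by
      rw [List.append_nil]; rfl
    obtain ⟨u1, w2, u2, k1, k2, k3⟩ := K.descend C hr hmV (r := []) (k := Kd.lp b) he ht2 hmod2 hm l
      s.2.1 _ _ w hX2 hpath.2.2 hc2 (by rw [e2]; exact g2) hne2
    have e3 : K.pathL (Kd.lp b) [] = Lb.path (Kd.lp b) [] := rfl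
    rw [e3] at k2
    have := ih t'' (by omega) _ _ w2 ht2 hmod2 k3 k2 (by
      intro h0
      apply hne2
      rw [k1]
      simpa using h0)
    have hcount : (w2.map Prod.fst).count σ + 1 ≤
        ((z1 ++ (w ++ z2)).map Prod.fst).count σ := by
      rw [List.map_append, List.map_append, List.count_append, List.count_append]
      rw [List.count_append] at hsg
      rw [k1, List.count_append, List.count_append]
      omega
    have h6 := Nat.mul_le_mul_left (l.length + 1) hcount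
    have h7 : (l.length + 1) * ((w2.map Prod.fst).count σ + 1) =
        (l.length + 1) * (w2.map Prod.fst).count σ + (l.length + 1) := by ring
    omega

end Ctrl

end Pool.Agent.EOLForms
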