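import Pool.Agent.EOLForms.BMain

/-! A context-free grammar form with two self-embedding nonterminals in one sentential form has a
pattern language in its family. -/

namespace Pool.Agent.EOLForms

lemma count_map_injOn {α β : Type*} [DecidableEq α] [DecidableEq β] {φ : α → β} {A : Set α}
    (hφ : Set.InjOn φ A) {x : α} (hx : x ∈ A) {z : List α} (hz : ∀ y ∈ z, y ∈ A) :
    (z.map φ).count (φ x) = z.count x := by
  induction z with
  | nil => simp
  | cons y z ih =>
    rw [List.map_cons, List.count_cons, List.count_cons, ih (fun a ha => hz a (by simp [ha]))]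
    congr 1
    by_cases h : y = x
    · subst h; simp
    · have : φ y ≠ φ x := fun h2 => h (hφ (hz y (by simp)) hx h2)
      simp [h, this]

lemma mem_map_injOn {α β : Type*} {φ : α → β} {A : Set α}
    (hφ : Set.InjOn φ A) {x : α} (hx : x ∈ A) {z : List α} (hz : ∀ y ∈ z, y ∈ A) :
    φ x ∈ z.map φ ↔ x ∈ z := by
  constructor
  · intro h
    rw [List.mem_map] at h
    obtain ⟨y, hy, he⟩ := h
    rw [← hφ (hz y hy) hx he]
    exact hy
  · exact fun h => List.mem_map_of_mem h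

lemma KP.mapOn {α β : Type*} [DecidableEq α] [DecidableEq β] {𝓛 : List α → Prop}
    {𝓜 : List β → Prop} {φ : α → β} {A : Set α} (hφ : Set.InjOn φ A)
    (hA : ∀ z, 𝓛 z → ∀ y ∈ z, y ∈ A) (hM : ∀ z', 𝓜 z' ↔ ∃ z, 𝓛 z ∧ z' = z.map φ)
    {w w' a b c d : α} (hK : KP 𝓛 w w' a b c d) (hw : w ∈ A) (hw' : w' ∈ A) (ha : a ∈ A)
    (hb : b ∈ A) (hc : c ∈ A) (hd : d ∈ A) :
    KP 𝓜 (φ w) (φ w') (φ a) (φ b) (φ c) (φ d) := by
  have hs : ∀ (x y : List β) (u : List α), x ++ y = u.map φ →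
      ∃ x' y', u = x' ++ y' ∧ x = x'.map φ ∧ y = y'.map φ := by
    intro x y u h
    rw [eq_comm, List.map_eq_append_iff] at h
    obtain ⟨x', y', rfl, h1, h2⟩ := h
    exact ⟨x', y', rfl, h1.symm, h2.symm⟩
  have key : ∀ (x y : List β), 𝓜 (x ++ y) → ∃ x' y', 𝓛 (x' ++ y') ∧ x = x'.map φ ∧
      y = y'.map φ ∧ (∀ q ∈ x', q ∈ A) ∧ (∀ q ∈ y', q ∈ A) := by
    intro x y h
    obtain ⟨z, hz, he⟩ := (hM _).1 h
    obtain ⟨x', y', rfl, rfl, rfl⟩ := hs x y z he
    exact ⟨x', y', hz, rfl, rfl, fun q hq => hA _ hz q (by simp [hq]),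
      fun q hq => hA _ hz q (by simp [hq])⟩
  refine ⟨?_, ?_, ?_, ?_, ?_, ?_, ?_, ?_, ?_⟩
  · intro z hz hne
    obtain ⟨z, h1, rfl⟩ := (hM z).1 hz
    rw [count_map_injOn hφ hw (hA z h1)]
    exact hK.one z h1 (by rintro rfl; simp at hne)
  · intro z hz hne
    obtain ⟨z, h1, rfl⟩ := (hM z).1 hz
    rw [count_map_injOn hφ hw' (hA z h1)]
    exact hK.one' z h1 (by rintro rfl; simp at hne)
  · intro z hz
    obtain ⟨z, h1, rfl⟩ := (hM z).1 hz
    rw [count_map_injOn hφ ha (hA z h1), count_map_injOn hφ hb (hA z h1)]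
    exact hK.ab z h1
  · intro z hz
    obtain ⟨z, h1, rfl⟩ := (hM z).1 hz
    rw [count_map_injOn hφ hc (hA z h1), count_map_injOn hφ hd (hA z h1)]
    exact hK.cd z h1
  · intro x y hz hx
    obtain ⟨x, y, h1, rfl, rfl, h2, h3⟩ := key x y hz
    rw [mem_map_injOn hφ hw h2] at hx
    rw [mem_map_injOn hφ ha h3]
    exact hK.p1 x y h1 hx
  · intro x y hz hx
    obtain ⟨x, y, h1, rfl, rfl, h2, h3⟩ := key x y hz
    rw [mem_map_injOn hφ hw h3] at hx
    rw [mem_map_injOn hφ hb h2, mem_map_injOn hφ hc h2, mem_map_injOn hφ hw' h2]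
    exact hK.p2 x y h1 hx
  · intro x y hz hx
    obtain ⟨x, y, h1, rfl, rfl, h2, h3⟩ := key x y hz
    rw [mem_map_injOn hφ hw' h2] at hx
    rw [mem_map_injOn hφ hb h3, mem_map_injOn hφ hc h3]
    exact hK.p3 x y h1 hx
  · intro x y hz hx
    obtain ⟨x, y, h1, rfl, rfl, h2, h3⟩ := key x y hz
    rw [mem_map_injOn hφ hw' h3] at hx
    rw [mem_map_injOn hφ hd h2]
    exact hK.p4 x y h1 hx
  · intro N
    obtain ⟨z, h1, h2, h3⟩ := hK.big N
    refine ⟨z.map φ, (hM _).2 ⟨z, h1, rfl⟩, ?_, ?_⟩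
    · rw [count_map_injOn hφ hb (hA z h1)]
      exact h2
    · rw [count_map_injOn hφ hc (hA z h1)]
      exact h3

lemma KP.letters {α : Type*} [DecidableEq α] {𝓛 : List α → Prop} {w w' a b c d : α}
    (hK : KP 𝓛 w w' a b c d) :
    ∃ z, 𝓛 z ∧ w ∈ z ∧ w' ∈ z ∧ a ∈ z ∧ b ∈ z ∧ c ∈ z ∧ d ∈ z := by
  obtain ⟨W1, hW1, hW1b, hW1c⟩ := hK.big 0
  have hW1ne : W1 ≠ [] := by rintro rfl; simp at hW1b
  have c1 := hK.one W1 hW1 hW1ne
  have c2 := hK.one' W1 hW1 hW1ne
  have c3 := hK.ab W1 hW1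
  have c4 := hK.cd W1 hW1
  exact ⟨W1, hW1, List.count_pos_iff.1 (by omega), List.count_pos_iff.1 (by omega),
    List.count_pos_iff.1 (by omega), List.count_pos_iff.1 (by omega),
    List.count_pos_iff.1 (by omega), List.count_pos_iff.1 (by omega)⟩

lemma forest_of_der {α : Type*} {R : α → List α → Prop} {X : α} (γ : List (α × ℕ))
    (h : Der R [X] (γ.map Prod.fst)) (hne : γ.map Prod.fst ≠ [X]) :
    ∃ f : Fo α, f.Valid R ∧ R X (f.roots.map Prod.fst) ∧ f.front = γ := by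
  rcases Der_rule h with h | ⟨β, h1, t, h2⟩
  · exact absurd h hne
  · obtain ⟨f, k1, k2, k3⟩ := Fo.exists_forest t β γ h2
    exact ⟨f, k1, by rw [k2]; exact h1, k3⟩

/-- labels of letters of derived words stay in a closed set -/
lemma DL_labels {α Q : Type*} {R' : α × Q → List (α × Q) → Prop} {Labs : Set Q}
    (hcl : ∀ X β, R' X β → X.2 ∈ Labs → ∀ Y ∈ β, Y.2 ∈ Labs) :
    ∀ (t : ℕ) (x z : List (α × Q)), (∀ X ∈ x, X.2 ∈ Labs) → DL R' t x z →
      ∀ X ∈ z, X.2 ∈ Labs := by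
  intro t
  induction t with
  | zero => intro x z hx h; simp only [DL] at h; subst h; exact hx
  | succ t ih =>
    intro x z hx h
    obtain ⟨y, h1, h2⟩ := h
    refine ih y z ?_ h2
    clear h2
    induction x generalizing y with
    | nil => rw [PStep_nil] at h1; subst h1; simp
    | cons X x ih2 =>
      rw [PStep_cons] at h1
      obtain ⟨y1, y2, g1, g2, rfl⟩ := h1
      intro Y hY
      rw [List.mem_append] at hY
      rcases hY with hY | hY
      · exact hcl X y1 g1 (hx X (by simp)) Y hY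
      · exact ih2 (fun Z hZ => hx Z (by simp [hZ])) y2 g2 Y hY

theorem b_main (G : Gr) (hG : G.IsCF) (h : TwoSE G.rel isT G.S) :
    ∃ K ∈ sFam G, ∃ w w' a b c d : ℕ, w ≠ w' ∧ KP (· ∈ K) w w' a b c d := by
  classical
  have hcf : ∀ a β, isT a → ¬ G.rel a β := by
    rintro a β ⟨n, rfl⟩ hr
    obtain ⟨A, hA⟩ := hG.2 _ hr
    simp at hA
  obtain ⟨A, A', x, y, z, u, v, w, u', v', w', hS, tx, ty, tz, hA, hu, hv, hw, hA', hu', hv',
    hw'⟩ := h
  -- nonempty base words
  wlog hwne : w ≠ [] ∧ w' ≠ [] generalizing w w'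
  · refine this (u ++ (w ++ v)) (u' ++ (w' ++ v')) (hA.yl hw) (hA'.yl hw') ⟨?_, ?_⟩
    · intro h0
      simp only [List.append_eq_nil_iff] at h0
      exact hu h0.1
    · intro h0
      simp only [List.append_eq_nil_iff] at h0
      exact hu' h0.1
  obtain ⟨hwne, hwne'⟩ := hwne
  have hlen : ∀ l : List Sym, l ≠ [] → 0 < l.length := fun l hl => List.length_pos_iff.2 hl
  have lu := hlen u hu
  have lv := hlen v hv
  have lu' := hlen u' hu'
  have lv' := hlen v' hv'
  obtain ⟨f0, v0, r0, e0⟩ := forest_of_der (X := G.S)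
    (plab x ++ ((A, 1) :: (plab y ++ ((A', 2) :: plab z)))) (by
      simpa [plab_fst] using hS) (by
      intro h0
      have := congrArg List.length h0
      simp at this
      omega)
  obtain ⟨g1, v1, r1, e1⟩ := forest_of_der (X := A) (mlab 3 u ++ ((A, 1) :: mlab 4 v)) (by
      simpa [mlab_fst] using hA.1) (by
      intro h0
      have h1 := congrArg List.length h0
      have h2 : (mlab 3 u).length = u.length := by
        rw [← List.length_map (f := Prod.fst), mlab_fst]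
      rw [List.length_map, List.length_append, List.length_cons, h2] at h1
      simp at h1
      omega)
  obtain ⟨g3, v3, r3, e3⟩ := forest_of_der (X := A') (mlab 6 u' ++ ((A', 2) :: mlab 7 v')) (by
      simpa [mlab_fst] using hA'.1) (by
      intro h0
      have h1 := congrArg List.length h0
      have h2 : (mlab 6 u').length = u'.length := by
        rw [← List.length_map (f := Prod.fst), mlab_fst]
      rw [List.length_map, List.length_append, List.length_cons, h2] at h1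
      simp at h1
      omega)
  obtain ⟨g2, v2, r2, e2⟩ := forest_of_der (X := A) (mlab 5 w) (by
      rw [mlab_fst]; exact (Yl_iff.1 hw).1) (by
      rw [mlab_fst]
      rintro rfl
      exact hcf A _ (hw.isTerm A (by simp)) r1)
  obtain ⟨g4, v4, r4, e4⟩ := forest_of_der (X := A') (mlab 8 w') (by
      rw [mlab_fst]; exact (Yl_iff.1 hw').1) (by
      rw [mlab_fst]
      rintro rfl
      exact hcf A' _ (hw'.isTerm A' (by simp)) r3)
  set Sp : Set (Sym × ℕ × Fo Sym) := {(A, 1, g1), (A, 1, g2), (A', 2, g3), (A', 2, g4)} with hSp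
  have hlang := gadget_lang (Sp := Sp) hcf v0 v1 v2 v3 v4 e0 e1 e2 e3 e4 r0 r1 r2 r3 r4 hu hu'
    tx ty tz hA.2.1 hA.2.2 hw.isTerm hA'.2.1 hA'.2.2 hw'.isTerm hSp
  -- labels
  set TS : Set (Fo Sym) := ({f0} ∪ f0.subs) ∪ (g1.subs ∪ (g2.subs ∪ (g3.subs ∪ g4.subs))) with hTS
  set Labs : Set (Glb Sym) := (Glb.leaf '' Set.Iic 8) ∪ (Glb.tree '' TS) with hLabs
  have hfin : Labs.Finite := by
    refine ((Set.finite_Iic 8).image _).union (Set.Finite.image _ ?_)
    exact ((Set.finite_singleton _).union f0.subs_finite).union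
      (g1.subs_finite.union (g2.subs_finite.union (g3.subs_finite.union g4.subs_finite)))
  have hpl : ∀ (l : List Sym) (q : Sym × ℕ), q ∈ plab l → q.2 ≤ 8 := by
    intro l q hq
    simp only [plab, List.mem_map] at hq
    obtain ⟨a, _, rfl⟩ := hq
    simp
  have hml : ∀ (n : ℕ) (l : List Sym) (q : Sym × ℕ), n ≤ 8 → q ∈ mlab n l → q.2 ≤ 8 := by
    intro n l q hn hq
    cases l with
    | nil => simp [mlab] at hq
    | cons a l =>
      simp only [mlab, List.mem_cons] at hq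
      rcases hq with rfl | hq
      · exact hn
      · exact hpl l q hq
  have F0 : ∀ q ∈ f0.front, q.2 ≤ 8 := by
    intro q hq
    rw [e0] at hq
    simp only [List.mem_append, List.mem_cons] at hq
    rcases hq with hq | rfl | hq | rfl | hq
    · exact hpl _ _ hq
    · simp
    · exact hpl _ _ hq
    · simp
    · exact hpl _ _ hq
  have F1 : ∀ q ∈ g1.front, q.2 ≤ 8 := by
    intro q hq
    rw [e1] at hq
    simp only [List.mem_append, List.mem_cons] at hq
    rcases hq with hq | rfl | hq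
    · exact hml _ _ _ (by norm_num) hq
    · simp
    · exact hml _ _ _ (by norm_num) hq
  have F2 : ∀ q ∈ g2.front, q.2 ≤ 8 := by
    intro q hq
    rw [e2] at hq
    exact hml _ _ _ (by norm_num) hq
  have F3 : ∀ q ∈ g3.front, q.2 ≤ 8 := by
    intro q hq
    rw [e3] at hq
    simp only [List.mem_append, List.mem_cons] at hq
    rcases hq with hq | rfl | hq
    · exact hml _ _ _ (by norm_num) hq
    · simp
    · exact hml _ _ _ (by norm_num) hq
  have F4 : ∀ q ∈ g4.front, q.2 ≤ 8 := by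
    intro q hq
    rw [e4] at hq
    exact hml _ _ _ (by norm_num) hq
  have hroots : ∀ f : Fo Sym, f.subs ⊆ TS → (∀ q ∈ f.front, q.2 ≤ 8) →
      ∀ Y ∈ f.roots, Y.2 ∈ Labs := by
    rintro f h1 h2 ⟨Y, q⟩ hY
    cases q with
    | leaf q => exact Or.inl ⟨q, h2 _ (Fo.roots_leaf hY), rfl⟩
    | tree g => exact Or.inr ⟨g, h1 (Fo.roots_tree hY), rfl⟩
  have hTSf : ∀ g ∈ TS, g.subs ⊆ TS ∧ ∀ q ∈ g.front, q.2 ≤ 8 := by
    intro g hg
    have gen : ∀ f : Fo Sym, f.subs ⊆ TS → (∀ q ∈ f.front, q.2 ≤ 8) → g ∈ f.subs →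
        g.subs ⊆ TS ∧ ∀ q ∈ g.front, q.2 ≤ 8 := by
      intro f h1 h2 h3
      exact ⟨(Fo.subs_trans h3).trans h1, fun q hq => h2 q (Fo.front_sub h3 q hq)⟩
    have s0 : f0.subs ⊆ TS := fun q hq => Or.inl (Or.inr hq)
    have s1 : g1.subs ⊆ TS := fun q hq => Or.inr (Or.inl hq)
    have s2 : g2.subs ⊆ TS := fun q hq => Or.inr (Or.inr (Or.inl hq))
    have s3 : g3.subs ⊆ TS := fun q hq => Or.inr (Or.inr (Or.inr (Or.inl hq)))
    have s4 : g4.subs ⊆ TS := fun q hq => Or.inr (Or.inr (Or.inr (Or.inr hq)))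
    rcases hg with (hg | hg) | (hg | hg | hg | hg)
    · rw [Set.mem_singleton_iff] at hg
      subst hg
      exact ⟨s0, F0⟩
    · exact gen f0 s0 F0 hg
    · exact gen g1 s1 F1 hg
    · exact gen g2 s2 F2 hg
    · exact gen g3 s3 F3 hg
    · exact gen g4 s4 F4 hg
  have hcl : ∀ X β, GR G.rel Sp X β → X.2 ∈ Labs → ∀ Y ∈ β, Y.2 ∈ Labs := by
    intro X β hr hX
    cases hr with
    | tree A g hh =>
      rcases hX with ⟨q, _, hq⟩ | ⟨g', hg', hq⟩
      · simp at hq
      · simp only [Glb.tree.injEq] at hq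
        subst hq
        obtain ⟨h1, h2⟩ := hTSf _ hg'
        exact hroots _ h1 h2
    | sp X q g hsp hh =>
      rw [hSp] at hsp
      simp only [Set.mem_insert_iff, Set.mem_singleton_iff, Prod.mk.injEq] at hsp
      rcases hsp with ⟨_, _, rfl⟩ | ⟨_, _, rfl⟩ | ⟨_, _, rfl⟩ | ⟨_, _, rfl⟩
      · exact hroots _ (fun q hq => Or.inr (Or.inl hq)) F1
      · exact hroots _ (fun q hq => Or.inr (Or.inr (Or.inl hq))) F2
      · exact hroots _ (fun q hq => Or.inr (Or.inr (Or.inr (Or.inl hq)))) F3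
      · exact hroots _ (fun q hq => Or.inr (Or.inr (Or.inr (Or.inr hq)))) F4
  have hq0 : Glb.tree f0 ∈ Labs := Or.inr ⟨f0, Or.inl (Or.inl rfl), rfl⟩
  obtain ⟨G', cd, hCF, hSI, hinj, hG'⟩ := liftCF G hG (GR G.rel Sp) (fun X β h => h.proj) Labs hfin
    hcl (Glb.tree f0) hq0
  refine ⟨G'.seqLang, ⟨G', hCF, hSI, rfl⟩, ?_⟩
  -- decompose the words into heads and tails
  cases u with
  | nil => exact absurd rfl hu
  | cons hu0 ru =>
  cases v with
  | nil => exact absurd rfl hv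
  | cons hv0 rv =>
  cases w with
  | nil => exact absurd rfl hwne
  | cons hw0 rw_ =>
  cases u' with
  | nil => exact absurd rfl hu'
  | cons hu0' ru' =>
  cases v' with
  | nil => exact absurd rfl hv'
  | cons hv0' rv' =>
  cases w' with
  | nil => exact absurd rfl hwne'
  | cons hw0' rw' =>
  have hKP := Wd_KP x y z hu0 hv0 hw0 hu0' hv0' hw0' ru rv rw_ ru' rv' rw'
  -- coding of letters
  let φ : Sym × Glb Sym → ℕ := fun X =>
    match X.1 with
    | Symbol.terminal a => cd (a, X.2)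
    | Symbol.nonterminal _ => 0
  set AA : Set (Sym × Glb Sym) := {X | isT X.1 ∧ X.2 ∈ Labs} with hAA
  have hφ : Set.InjOn φ AA := by
    rintro ⟨X, q⟩ ⟨⟨a, ha⟩, hq⟩ ⟨Y, r⟩ ⟨⟨b, hb⟩, hr⟩ he
    simp only at ha hb hq hr
    subst ha
    subst hb
    have h3 : (a, q) ∈ {x : ℕ × Glb Sym | x.2 ∈ Labs} := hq
    have h4 : (b, r) ∈ {x : ℕ × Glb Sym | x.2 ∈ Labs} := hr
    have := hinj h3 h4 he
    rw [Prod.mk.injEq] at this
    rw [this.1, this.2]
  have hmemA : ∀ W, (∃ n m, W = Wd x y z (hu0 :: ru) (hv0 :: rv) (hw0 :: rw_) (hu0' :: ru')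
      (hv0' :: rv') (hw0' :: rw') n m) → ∀ Y ∈ W, Y ∈ AA := by
    intro W hW Y hY
    have h1 := (hlang W).2 hW
    refine ⟨h1.isTerm Y hY, ?_⟩
    obtain ⟨t, h2, _⟩ := h1
    refine DL_labels (R' := Pl (GR G.rel Sp)) (Labs := Labs) ?_ t _ _ ?_ h2 Y hY
    · intro X β hr hX
      rcases hr with hr | rfl
      · exact hcl X β hr hX
      · intro Z hZ
        rw [List.mem_singleton] at hZ
        subst hZ
        exact hX
    · simpa using hq0
  have hM : ∀ z', z' ∈ G'.seqLang ↔ ∃ W, (∃ n m, W = Wd x y z (hu0 :: ru) (hv0 :: rv)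
      (hw0 :: rw_) (hu0' :: ru') (hv0' :: rv') (hw0' :: rw') n m) ∧ z' = W.map φ := by
    intro z'
    rw [hG']
    constructor
    · rintro ⟨zz, h1, h2, rfl⟩
      refine ⟨_, (hlang (zz.map fun x => ((Symbol.terminal x.1 : Sym), x.2))).1 ?_, ?_⟩
      · rw [Yl_iff]
        refine ⟨h1, ?_⟩
        intro a ha
        rw [List.mem_map] at ha
        obtain ⟨b, _, rfl⟩ := ha
        exact ⟨b.1, rfl⟩
      · rw [List.map_map]
        rfl
    · rintro ⟨W, hW, rfl⟩
      have h1 := (hlang W).2 hW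
      have h2 := hmemA W hW
      obtain ⟨zz, h3⟩ : ∃ zz : List (ℕ × Glb Sym),
          W = zz.map (fun x => ((Symbol.terminal x.1 : Sym), x.2)) := by
        clear h1 hW
        induction W with
        | nil => exact ⟨[], rfl⟩
        | cons X W ih =>
          obtain ⟨zz, rfl⟩ := ih (fun Y hY => h2 Y (by simp [hY]))
          obtain ⟨⟨a, ha⟩, -⟩ := h2 X (by simp)
          exact ⟨(a, X.2) :: zz, by simp [← ha]⟩
      subst h3
      refine ⟨zz, (Yl_iff.1 h1).1, ?_, ?_⟩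
      · intro a ha
        exact (h2 _ (List.mem_map_of_mem ha)).2
      · rw [List.map_map]
        rfl
  -- membership of the letters
  obtain ⟨W1, hW1, n5, n8, n3, n4, n6, n7⟩ := hKP.letters
  have mA := hmemA W1 hW1
  have m5 := mA _ n5
  have m8 := mA _ n8
  have m3 := mA _ n3
  have m4 := mA _ n4
  have m6 := mA _ n6
  have m7 := mA _ n7
  have hfinal := KP.mapOn (𝓜 := (· ∈ G'.seqLang)) hφ hmemA hM hKP m5 m8 m3 m4 m6 m7
  refine ⟨_, _, _, _, _, _, ?_, hfinal⟩
  intro h0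
  have := hφ m5 m8 h0
  simp at this

end Pool.Agent.EOLForms
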