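import Pool.Agent.EOLForms.Gadget

/-! Two self-embedding nonterminals in one sentential form yield a pattern language. -/

namespace Pool.Agent.EOLForms

variable {α : Type*} {R : α → List α → Prop} {T : α → Prop}

/-- two self-embedding productive symbols occur in one sentential form -/
def TwoSE (R : α → List α → Prop) (T : α → Prop) (S : α) : Prop :=
  ∃ (A A' : α) (x y z u v w u' v' w' : List α),
    Der R [S] (x ++ ([A] ++ (y ++ ([A'] ++ z)))) ∧ (∀ a ∈ x, T a) ∧ (∀ a ∈ y, T a) ∧
    (∀ a ∈ z, T a) ∧ Ctx R T A A u v ∧ u ≠ [] ∧ v ≠ [] ∧ Yl R T [A] w ∧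
    Ctx R T A' A' u' v' ∧ u' ≠ [] ∧ v' ≠ [] ∧ Yl R T [A'] w'

lemma Der_rule {X : α} {γ : List α} (h : Der R [X] γ) :
    γ = [X] ∨ ∃ β, R X β ∧ Der R β γ := by
  obtain ⟨t, ht⟩ := h
  induction t with
  | zero => exact Or.inl ht
  | succ t ih =>
    rw [DL_single_succ] at ht
    obtain ⟨β, h1, h2⟩ := ht
    rcases h1 with h1 | rfl
    · exact Or.inr ⟨β, h1, t, h2⟩
    · exact ih h2

lemma Yl_of_terminals (hcf : ∀ a β, T a → ¬ R a β) {z z' : List α} (hz : ∀ a ∈ z, T a)
    (h : Yl R T z z') : z' = z := by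
  induction z generalizing z' with
  | nil => exact Yl_nil.1 h
  | cons a z ih =>
    rw [Yl_cons] at h
    obtain ⟨z1, z2, h1, h2, rfl⟩ := h
    rw [Yl_of_terminal hcf (hz a (by simp)) h1, ih (fun b hb => hz b (by simp [hb])) h2]
    rfl

/-- plain labelling -/
def plab (x : List α) : List (α × ℕ) := x.map fun a => (a, 0)

/-- labelling of the first letter by `q`, the others by `0` -/
def mlab (q : ℕ) : List α → List (α × ℕ)
  | [] => []
  | h :: r => (h, q) :: plab r

lemma plab_fst (x : List α) : (plab x).map Prod.fst = x := by simp [plab, Function.comp_def]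

lemma mlab_fst (q : ℕ) (x : List α) : (mlab q x).map Prod.fst = x := by
  cases x with
  | nil => rfl
  | cons h r => simp [mlab, plab_fst]

lemma lf_append (x y : List (α × ℕ)) : Fo.lf (x ++ y) = Fo.lf x ++ Fo.lf y := by simp [Fo.lf]

lemma plab_not {x : List α} {h : α} {q : ℕ} (hq : q ≠ 0) :
    (h, Glb.leaf q) ∉ Fo.lf (plab x) := by
  intro hm
  simp [Fo.lf, plab] at hm
  exact hq hm.2.symm

lemma mlab_not {x : List α} {h : α} {q q' : ℕ} (hq : q ≠ 0) (hq' : q ≠ q') :
    (h, Glb.leaf q) ∉ Fo.lf (mlab q' x) := by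
  cases x with
  | nil => simp [mlab, Fo.lf]
  | cons a r =>
    intro hm
    have e : Fo.lf (mlab q' (a :: r)) = (a, Glb.leaf q') :: Fo.lf (plab r) := rfl
    rw [e, List.mem_cons] at hm
    rcases hm with hm | hm
    · simp only [Prod.mk.injEq, Glb.leaf.injEq] at hm
      exact hq' hm.2
    · exact plab_not hq hm

lemma plab_T {x : List α} (h : ∀ a ∈ x, T a) : ∀ a ∈ Fo.lf (plab x), TL T a := by
  intro a ha
  simp only [Fo.lf, plab, List.map_map, List.mem_map] at ha
  obtain ⟨b, hb, rfl⟩ := ha
  exact h b hb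

lemma mlab_T {q : ℕ} {x : List α} (h : ∀ a ∈ x, T a) : ∀ a ∈ Fo.lf (mlab q x), TL T a := by
  cases x with
  | nil => simp [mlab, Fo.lf]
  | cons b r =>
    intro a ha
    have e : Fo.lf (mlab q (b :: r)) = (b, Glb.leaf q) :: Fo.lf (plab r) := rfl
    rw [e, List.mem_cons] at ha
    rcases ha with rfl | ha
    · exact h b (by simp)
    · exact plab_T (fun c hc => h c (by simp [hc])) a ha

section

lemma plab_count [DecidableEq (α × Glb α)] {x : List α} {h : α} {q : ℕ} (hq : q ≠ 0) :
    (Fo.lf (plab x)).count (h, Glb.leaf q) = 0 := List.count_eq_zero.2 (plab_not hq)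

lemma mlab_count [DecidableEq (α × Glb α)] {x : List α} {h : α} {q q' : ℕ} (hq : q ≠ 0) (hq' : q ≠ q') :
    (Fo.lf (mlab q' x)).count (h, Glb.leaf q) = 0 := List.count_eq_zero.2 (mlab_not hq hq')

lemma mlab_count_self [DecidableEq (α × Glb α)] {r : List α} {h : α} {q : ℕ} (hq : q ≠ 0) :
    (Fo.lf (mlab q (h :: r))).count (h, Glb.leaf q) = 1 := by
  have e : Fo.lf (mlab q (h :: r)) = (h, Glb.leaf q) :: Fo.lf (plab r) := rfl
  rw [e, List.count_cons_self, plab_count hq]

end

/-- the words of the pattern language -/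
def Wd (x y z u v w u' v' w' : List α) (n m : ℕ) : List (α × Glb α) :=
  Fo.lf (plab x) ++ (pw (Fo.lf (mlab 3 u)) n ++ (Fo.lf (mlab 5 w) ++ (pw (Fo.lf (mlab 4 v)) n ++
    (Fo.lf (plab y) ++ (pw (Fo.lf (mlab 6 u')) m ++ (Fo.lf (mlab 8 w') ++
      (pw (Fo.lf (mlab 7 v')) m ++ Fo.lf (plab z))))))))

lemma order {β : Type*} {x y P Q : List β} {m σ : β} (h : x ++ y = P ++ Q) (h1 : m ∉ P)
    (h2 : σ ∉ Q) : m ∈ x → σ ∉ y := by
  intro hm hσ
  rw [List.append_eq_append_iff] at h
  rcases h with ⟨r, rfl, rfl⟩ | ⟨r, rfl, rfl⟩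
  · apply h1
    simp [hm]
  · apply h2
    simp [hσ]

lemma pw_not {β : Type*} {v : List β} {i : ℕ} {a : β} (h : a ∉ v) : a ∉ pw v i :=
  fun hm => h (mem_pw hm)

theorem Wd_KP [DecidableEq (α × Glb α)] (x y z : List α) (hu hv hw hu' hv' hw' : α) (ru rv rw_ ru' rv' rw' : List α) :
    KP (fun W => ∃ n m, W = Wd x y z (hu :: ru) (hv :: rv) (hw :: rw_) (hu' :: ru') (hv' :: rv')
      (hw' :: rw') n m) (hw, Glb.leaf 5) (hw', Glb.leaf 8) (hu, Glb.leaf 3) (hv, Glb.leaf 4)
      (hu', Glb.leaf 6) (hv', Glb.leaf 7) where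
  one := by
    rintro W ⟨n, m, rfl⟩ _
    simp only [Wd, List.count_append, pw_count]
    rw [plab_count (by norm_num), mlab_count (by norm_num) (by norm_num),
      mlab_count_self (by norm_num), mlab_count (by norm_num) (by norm_num),
      plab_count (by norm_num), mlab_count (by norm_num) (by norm_num),
      mlab_count (by norm_num) (by norm_num), mlab_count (by norm_num) (by norm_num),
      plab_count (by norm_num)]
    omega
  one' := by
    rintro W ⟨n, m, rfl⟩ _
    simp only [Wd, List.count_append, pw_count]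
    rw [plab_count (by norm_num), mlab_count (by norm_num) (by norm_num),
      mlab_count (by norm_num) (by norm_num), mlab_count (by norm_num) (by norm_num),
      plab_count (by norm_num), mlab_count (by norm_num) (by norm_num),
      mlab_count_self (by norm_num), mlab_count (by norm_num) (by norm_num),
      plab_count (by norm_num)]
    omega
  ab := by
    rintro W ⟨n, m, rfl⟩
    simp only [Wd, List.count_append, pw_count]
    rw [plab_count (by norm_num), mlab_count_self (by norm_num),
      mlab_count (by norm_num) (by norm_num), mlab_count (by norm_num) (by norm_num),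
      plab_count (by norm_num), mlab_count (by norm_num) (by norm_num),
      mlab_count (by norm_num) (by norm_num), mlab_count (by norm_num) (by norm_num),
      plab_count (by norm_num)]
    rw [plab_count (by norm_num), mlab_count (by norm_num) (by norm_num),
      mlab_count (by norm_num) (by norm_num), mlab_count_self (by norm_num),
      plab_count (by norm_num), mlab_count (by norm_num) (by norm_num),
      mlab_count (by norm_num) (by norm_num), mlab_count (by norm_num) (by norm_num),
      plab_count (by norm_num)]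
    omega
  cd := by
    rintro W ⟨n, m, rfl⟩
    simp only [Wd, List.count_append, pw_count]
    rw [plab_count (by norm_num), mlab_count (by norm_num) (by norm_num),
      mlab_count (by norm_num) (by norm_num), mlab_count (by norm_num) (by norm_num),
      plab_count (by norm_num), mlab_count_self (by norm_num),
      mlab_count (by norm_num) (by norm_num), mlab_count (by norm_num) (by norm_num),
      plab_count (by norm_num)]
    rw [plab_count (by norm_num), mlab_count (by norm_num) (by norm_num),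
      mlab_count (by norm_num) (by norm_num), mlab_count (by norm_num) (by norm_num),
      plab_count (by norm_num), mlab_count (by norm_num) (by norm_num),
      mlab_count (by norm_num) (by norm_num), mlab_count_self (by norm_num),
      plab_count (by norm_num)]
    omega
  p1 := by
    rintro X Y ⟨n, m, h⟩
    refine order (P := Fo.lf (plab x) ++ pw (Fo.lf (mlab 3 (hu :: ru))) n) (h.trans (by
      simp only [Wd, List.append_assoc]; rfl)) ?_ ?_
    · simp only [List.mem_append, not_or]
      exact ⟨plab_not (by norm_num), pw_not (mlab_not (by norm_num) (by norm_num))⟩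
    · simp only [List.mem_append, not_or]
      exact ⟨mlab_not (by norm_num) (by norm_num), pw_not (mlab_not (by norm_num) (by norm_num)),
        plab_not (by norm_num), pw_not (mlab_not (by norm_num) (by norm_num)),
        mlab_not (by norm_num) (by norm_num), pw_not (mlab_not (by norm_num) (by norm_num)),
        plab_not (by norm_num)⟩
  p2 := by
    rintro X Y ⟨n, m, h⟩ hY
    have key : ∀ (q : ℕ) (hq : α), q ≠ 0 → q ≠ 3 → q ≠ 5 → (hq, Glb.leaf q) ∉ X := by
      intro q hq h0 h3 h5 hm
      refine order (P := Fo.lf (plab x) ++ (pw (Fo.lf (mlab 3 (hu :: ru))) n ++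
        Fo.lf (mlab 5 (hw :: rw_)))) (h.trans (by
        simp only [Wd, List.append_assoc]; rfl)) ?_ ?_ hm hY
      · simp only [List.mem_append, not_or]
        exact ⟨plab_not h0, pw_not (mlab_not h0 h3), mlab_not h0 h5⟩
      · simp only [List.mem_append, not_or]
        exact ⟨pw_not (mlab_not (by norm_num) (by norm_num)),
          plab_not (by norm_num), pw_not (mlab_not (by norm_num) (by norm_num)),
          mlab_not (by norm_num) (by norm_num), pw_not (mlab_not (by norm_num) (by norm_num)),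
          plab_not (by norm_num)⟩
    exact ⟨key 4 hv (by norm_num) (by norm_num) (by norm_num),
      key 6 hu' (by norm_num) (by norm_num) (by norm_num),
      key 8 hw' (by norm_num) (by norm_num) (by norm_num)⟩
  p3 := by
    rintro X Y ⟨n, m, h⟩ hX
    have key : ∀ (q : ℕ) (hq : α), q ≠ 0 → q ≠ 8 → q ≠ 7 → (hq, Glb.leaf q) ∉ Y := by
      intro q hq h0 h8 h7
      refine order (P := Fo.lf (plab x) ++ (pw (Fo.lf (mlab 3 (hu :: ru))) n ++
        (Fo.lf (mlab 5 (hw :: rw_)) ++ (pw (Fo.lf (mlab 4 (hv :: rv))) n ++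
        (Fo.lf (plab y) ++ pw (Fo.lf (mlab 6 (hu' :: ru'))) m))))) (h.trans (by
        simp only [Wd, List.append_assoc]; rfl)) ?_ ?_ hX
      · simp only [List.mem_append, not_or]
        exact ⟨plab_not (by norm_num), pw_not (mlab_not (by norm_num) (by norm_num)),
          mlab_not (by norm_num) (by norm_num), pw_not (mlab_not (by norm_num) (by norm_num)),
          plab_not (by norm_num), pw_not (mlab_not (by norm_num) (by norm_num))⟩
      · simp only [List.mem_append, not_or]
        exact ⟨mlab_not h0 h8, pw_not (mlab_not h0 h7), plab_not h0⟩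
    exact ⟨key 4 hv (by norm_num) (by norm_num) (by norm_num),
      key 6 hu' (by norm_num) (by norm_num) (by norm_num)⟩
  p4 := by
    rintro X Y ⟨n, m, h⟩ hY hX
    refine order (P := Fo.lf (plab x) ++ (pw (Fo.lf (mlab 3 (hu :: ru))) n ++
        (Fo.lf (mlab 5 (hw :: rw_)) ++ (pw (Fo.lf (mlab 4 (hv :: rv))) n ++
        (Fo.lf (plab y) ++ (pw (Fo.lf (mlab 6 (hu' :: ru'))) m ++
        Fo.lf (mlab 8 (hw' :: rw')))))))) (h.trans (by
        simp only [Wd, List.append_assoc]; rfl)) ?_ ?_ hX hY
    · simp only [List.mem_append, not_or]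
      exact ⟨plab_not (by norm_num), pw_not (mlab_not (by norm_num) (by norm_num)),
        mlab_not (by norm_num) (by norm_num), pw_not (mlab_not (by norm_num) (by norm_num)),
        plab_not (by norm_num), pw_not (mlab_not (by norm_num) (by norm_num)),
        mlab_not (by norm_num) (by norm_num)⟩
    · simp only [List.mem_append, not_or]
      exact ⟨pw_not (mlab_not (by norm_num) (by norm_num)), plab_not (by norm_num)⟩
  big := by
    intro N
    refine ⟨_, ⟨N + 1, N + 1, rfl⟩, ?_, ?_⟩
    · simp only [Wd, List.count_append, pw_count]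
      rw [plab_count (by norm_num), mlab_count (by norm_num) (by norm_num),
        mlab_count (by norm_num) (by norm_num), mlab_count_self (by norm_num),
        plab_count (by norm_num), mlab_count (by norm_num) (by norm_num),
        mlab_count (by norm_num) (by norm_num), mlab_count (by norm_num) (by norm_num),
        plab_count (by norm_num)]
      omega
    · simp only [Wd, List.count_append, pw_count]
      rw [plab_count (by norm_num), mlab_count (by norm_num) (by norm_num),
        mlab_count (by norm_num) (by norm_num), mlab_count (by norm_num) (by norm_num),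
        plab_count (by norm_num), mlab_count_self (by norm_num),
        mlab_count (by norm_num) (by norm_num), mlab_count (by norm_num) (by norm_num),
        plab_count (by norm_num)]
      omega

variable {Sp : Set (α × ℕ × Fo α)}

lemma GR.cf (hcf : ∀ a β, T a → ¬ R a β) : ∀ a β, TL T a → ¬ GR R Sp a β :=
  fun a _ ha h => hcf a.1 _ ha h.proj

lemma loop_lang (hcf : ∀ a β, T a → ¬ R a β) {A : α} {q : ℕ} {g h : Fo α}
    {U V W0 : List (α × ℕ)} (hg : g.Valid R) (hh : h.Valid R) (hgf : g.front = U ++ ((A, q) :: V))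
    (hhf : h.front = W0) (hRg : R A (g.roots.map Prod.fst)) (hRh : R A (h.roots.map Prod.fst))
    (hSg : (A, q, g) ∈ Sp) (hSh : (A, q, h) ∈ Sp) (honly : ∀ k, (A, q, k) ∈ Sp → k = g ∨ k = h)
    (hU : ∀ a ∈ Fo.lf U, TL T a) (hV : ∀ a ∈ Fo.lf V, TL T a) (hW : ∀ a ∈ Fo.lf W0, TL T a)
    (hne : U ≠ []) (W : List (α × Glb α)) :
    Yl (GR R Sp) (TL T) [(A, Glb.leaf q)] W ↔
      ∃ n, W = pw (Fo.lf U) n ++ (Fo.lf W0 ++ pw (Fo.lf V) n) := by
  have hlf : Fo.lf (U ++ ((A, q) :: V)) = Fo.lf U ++ (A, Glb.leaf q) :: Fo.lf V := by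
    simp [Fo.lf]
  constructor
  · intro hY
    induction hn : W.length using Nat.strong_induction_on generalizing W with
    | _ N ih =>
    subst hn
    obtain ⟨β, h1, h2⟩ := Yl_rule (T := TL T) (X := (A, Glb.leaf q))
      (fun hT => hcf A _ hT hRg) hY
    cases h1 with
    | sp _ _ k hk hRk =>
      rcases honly k hk with rfl | rfl
      · have h3 := Fo.yl_front hcf hg h2
        rw [hgf, hlf, Yl_mid] at h3
        obtain ⟨z1, y, z2, h4, h5, h6, rfl⟩ := h3
        have e1 := Yl_of_terminals (GR.cf hcf) hU h4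
        have e2 := Yl_of_terminals (GR.cf hcf) hV h6
        subst e1
        subst e2
        obtain ⟨n, hn⟩ := ih y.length (by
          have : 0 < (Fo.lf U).length := by
            rw [List.length_pos_iff]
            simpa [Fo.lf] using hne
          simp only [List.length_append]
          omega) y h5 rfl
        refine ⟨n + 1, ?_⟩
        rw [hn, pw_succ, pw_succ']
        simp
      · have h3 := Fo.yl_front hcf hh h2
        rw [hhf] at h3
        have e1 := Yl_of_terminals (GR.cf hcf) hW h3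
        exact ⟨0, by simpa [pw] using e1⟩
  · rintro ⟨n, rfl⟩
    have h1 : Ctx (GR R Sp) (TL T) (A, Glb.leaf q) (A, Glb.leaf q) (Fo.lf U) (Fo.lf V) := by
      refine ⟨?_, hU, hV⟩
      have h2 := (Der.single (GR.sp A q g hSg hRg)).trans (Fo.der (Sp := Sp) hg)
      rw [hgf, hlf] at h2
      exact h2
    have h3 : Yl (GR R Sp) (TL T) [(A, Glb.leaf q)] (Fo.lf W0) := by
      rw [Yl_iff]
      refine ⟨?_, hW⟩
      have h2 := (Der.single (GR.sp A q h hSh hRh)).trans (Fo.der (Sp := Sp) hh)
      rw [hhf] at h2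
      exact h2
    exact (h1.pow n).yl h3

theorem gadget_lang (hcf : ∀ a β, T a → ¬ R a β) {S A A' : α} {f0 g1 g2 g3 g4 : Fo α}
    {x y z u v w u' v' w' : List α} (v0 : f0.Valid R) (v1 : g1.Valid R) (v2 : g2.Valid R)
    (v3 : g3.Valid R) (v4 : g4.Valid R)
    (e0 : f0.front = plab x ++ ((A, 1) :: (plab y ++ ((A', 2) :: plab z))))
    (e1 : g1.front = mlab 3 u ++ ((A, 1) :: mlab 4 v)) (e2 : g2.front = mlab 5 w)
    (e3 : g3.front = mlab 6 u' ++ ((A', 2) :: mlab 7 v')) (e4 : g4.front = mlab 8 w')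
    (r0 : R S (f0.roots.map Prod.fst)) (r1 : R A (g1.roots.map Prod.fst))
    (r2 : R A (g2.roots.map Prod.fst)) (r3 : R A' (g3.roots.map Prod.fst))
    (r4 : R A' (g4.roots.map Prod.fst)) (hu : u ≠ []) (hu' : u' ≠ [])
    (tx : ∀ a ∈ x, T a) (ty : ∀ a ∈ y, T a) (tz : ∀ a ∈ z, T a) (tu : ∀ a ∈ u, T a)
    (tv : ∀ a ∈ v, T a) (tw : ∀ a ∈ w, T a) (tu' : ∀ a ∈ u', T a) (tv' : ∀ a ∈ v', T a)
    (tw' : ∀ a ∈ w', T a)
    (hSp : Sp = {(A, 1, g1), (A, 1, g2), (A', 2, g3), (A', 2, g4)}) (W : List (α × Glb α)) :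
    Yl (GR R Sp) (TL T) [(S, Glb.tree f0)] W ↔ ∃ n m, W = Wd x y z u v w u' v' w' n m := by
  have hmne : ∀ (q : ℕ) (l : List α), l ≠ [] → mlab q l ≠ [] := by
    intro q l hl
    cases l with
    | nil => exact absurd rfl hl
    | cons a l => simp [mlab]
  have L1 := loop_lang (Sp := Sp) hcf (A := A) (q := 1) v1 v2 e1 e2 r1 r2
    (by rw [hSp]; simp) (by rw [hSp]; simp)
    (by
      intro k hk
      rw [hSp] at hk
      simp only [Set.mem_insert_iff, Set.mem_singleton_iff, Prod.mk.injEq, OfNat.one_ne_ofNat,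
        false_and, and_false, or_false] at hk
      rcases hk with ⟨_, _, h⟩ | ⟨_, _, h⟩
      · exact Or.inl h
      · exact Or.inr h)
    (mlab_T tu) (mlab_T tv) (mlab_T tw) (hmne 3 u hu)
  have L2 := loop_lang (Sp := Sp) hcf (A := A') (q := 2) v3 v4 e3 e4 r3 r4
    (by rw [hSp]; simp) (by rw [hSp]; simp)
    (by
      intro k hk
      rw [hSp] at hk
      simp only [Set.mem_insert_iff, Set.mem_singleton_iff, Prod.mk.injEq, OfNat.ofNat_ne_one,
        false_and, and_false, false_or] at hk
      rcases hk with ⟨_, _, h⟩ | ⟨_, _, h⟩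
      · exact Or.inl h
      · exact Or.inr h)
    (mlab_T tu') (mlab_T tv') (mlab_T tw') (hmne 6 u' hu')
  have hlf : Fo.lf (plab x ++ ((A, 1) :: (plab y ++ ((A', 2) :: plab z)))) =
      Fo.lf (plab x) ++ (A, Glb.leaf 1) :: (Fo.lf (plab y) ++ (A', Glb.leaf 2) ::
        Fo.lf (plab z)) := by
    simp [Fo.lf]
  constructor
  · intro hY
    obtain ⟨β, h1, h2⟩ := Yl_rule (T := TL T) (X := (S, Glb.tree f0))
      (fun hT => hcf S _ hT r0) hY
    cases h1 with
    | tree _ _ _ =>
      have h3 := Fo.yl_front hcf v0 h2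
      rw [e0, hlf, Yl_mid] at h3
      obtain ⟨z1, y1, z2, h4, h5, h6, rfl⟩ := h3
      rw [Yl_mid] at h6
      obtain ⟨z3, y2, z4, h7, h8, h9, rfl⟩ := h6
      have k1 := Yl_of_terminals (GR.cf hcf) (plab_T tx) h4
      have k2 := Yl_of_terminals (GR.cf hcf) (plab_T ty) h7
      have k3 := Yl_of_terminals (GR.cf hcf) (plab_T tz) h9
      subst k1
      subst k2
      subst k3
      obtain ⟨n, rfl⟩ := (L1 y1).1 h5
      obtain ⟨m, rfl⟩ := (L2 y2).1 h8
      exact ⟨n, m, by simp [Wd]⟩
  · rintro ⟨n, m, rfl⟩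
    have h1 : Der (GR R Sp) [(S, Glb.tree f0)] (Fo.lf f0.front) :=
      (Der.single (GR.tree S f0 r0)).trans (Fo.der v0)
    refine h1.yl ?_
    rw [e0, hlf, Yl_mid]
    refine ⟨Fo.lf (plab x), _, Fo.lf (plab y) ++ ((pw (Fo.lf (mlab 6 u')) m ++
      (Fo.lf (mlab 8 w') ++ pw (Fo.lf (mlab 7 v')) m)) ++ Fo.lf (plab z)),
      Yl.term (plab_T tx), (L1 _).2 ⟨n, rfl⟩, ?_, ?_⟩
    · rw [Yl_mid]
      exact ⟨_, _, _, Yl.term (plab_T ty), (L2 _).2 ⟨m, rfl⟩, Yl.term (plab_T tz), rfl⟩
    · simp [Wd]

end Pool.Agent.EOLForms
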