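import Pool.Agent.EOLForms.Analysis

/-! The time bound for controlled derivations. -/

namespace Pool.Agent.EOLForms

variable {α : Type*} {R : α → List α → Prop} {T : α → Prop} {𝓛 : List α → Prop}

/-- the branch `b` of the control data forces growth of `σ` -/
inductive BrOK [DecidableEq α] (C : EC R T) (K : Ctrl α) (m σ : α) (b : Bool) (X : α)
    (sib : List α) : Prop
  | F (h1 : K.l1 b = []) (h2 : K.lp b = none) (h3 : K.e1 b = K.e) (h4 : Has R T m K.e X)
      (h5 : ∃ Z ∈ sib, C.Unb σ K.e Z)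
  | R (l : List (Stp α)) (s : Stp α) (h1 : K.l1 b = l ++ [s]) (h2 : K.lp b = none)
      (h3 : C.t0 ≤ K.e1 b) (h4 : IsPath R T (K.e1 b) X (l ++ [s]) s.2.1)
      (h5 : Has R T m (K.e1 b) s.2.1) (h6 : ∃ W ∈ s.1 ++ s.2.2, C.Unb σ (K.e1 b) W)
      (h7 : K.e = K.e1 b + l.length + 1)
  | L (s : Stp α) (l2 : List (Stp α)) (Z : α) (h1 : K.lp b = some (s, l2))
      (h2 : C.t0 ≤ K.e1 b) (h3 : C.p ∣ l2.length + 1)
      (h4 : IsPath R T (K.e1 b + (l2.length + 1)) X (K.l1 b) Z)
      (h5 : IsPath R T (K.e1 b) Z (s :: l2) Z)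
      (h6 : ∃ W ∈ s.1 ++ s.2.2, Has R T σ (K.e1 b + l2.length) W)
      (h7 : Has R T m (K.e1 b) Z) (h8 : K.e = (K.l1 b).length + (l2.length + 1) + K.e1 b)

namespace Ctrl

variable (K : Ctrl α) (C : EC R T)

lemma branch_bound [DecidableEq α] {m σ : α} (hr : Rig 𝓛 m σ) (hmV : m ∈ C.V)
    (hσV : σ ∈ C.V) (hKp : K.p = C.p) (hWF : K.WF) (he : C.t0 ≤ K.e) {b : Bool} {X : α}
    (hX : X ∈ C.V) {δ1 δ2 : List α} (hsib : ∀ Z ∈ δ1 ++ δ2, Z ∈ C.V)
    (hb : BrOK C K m σ b X (δ1 ++ δ2)) :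
    ∃ c, ∀ (t' : ℕ) (Y : α) (x1 x2 z1 z2 : List α) (y : List (α × Lb α)), C.t0 ≤ t' →
      t' % C.p = K.e % C.p → Cx R T 𝓛 (t' + 1) Y x1 x2 → R Y (δ1 ++ X :: δ2) →
      LT R T t' δ1 z1 → LT R T t' δ2 z2 →
      LT (K.R2 R) (fin T) t' [(X, K.pathL (Kd.br b) (K.l1 b))] y →
      x1 ++ ((z1 ++ (y.map Prod.fst ++ z2)) ++ x2) ≠ [] →
      t' ≤ c * ((z1 ++ (y.map Prod.fst ++ z2)).count σ + 1) := by
  cases hb with
  | F h1 h2 h3 h4 h5 =>
    obtain ⟨Z, hZ, hZu⟩ := h5
    obtain ⟨c, hc⟩ := C.growth hσV (hsib Z hZ) hZu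
    refine ⟨c, ?_⟩
    intro t' Y x1 x2 z1 z2 y ht' hmod hcx hR g1 g2 hy hne
    obtain ⟨zz, k1, k2⟩ := hc t' ht' hmod
    have hy' := K.LT_proj hy
    simp only [List.map_cons, List.map_nil] at hy'
    have hmt : Has R T m t' X := C.has_mod he ht' hmod.symm hX hmV h4
    have hmy : m ∈ y.map Prod.fst := by
      refine marker_in hr (hcx.step hR g1 g2) hmt hy' ?_
      simpa using hne
    have hs := side_grow hr hcx hR g1 hy' g2 hmy hZ k1
    refine k2.trans (Nat.mul_le_mul_left _ ?_)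
    simp only [List.count_append] at hs ⊢
    omega
  | R l s h1 h2 h3 h4 h5 h6 h7 =>
    obtain ⟨W, hW, hWu⟩ := h6
    obtain ⟨Y0, hp1, hp2⟩ := h4.split
    simp only [List.length_singleton] at hp1
    have hY0 : Y0 ∈ C.V := C.path_end_mem hX hp1
    have hWV : W ∈ C.V := by
      apply C.hV _ _ hp2.1
      rw [List.mem_append] at hW
      rcases hW with hW | hW <;> simp [hW]
    obtain ⟨c, hc⟩ := C.growth hσV hWV hWu
    refine ⟨c + C.t0 + (l.length + 1), ?_⟩
    intro t' Y x1 x2 z1 z2 y ht' hmod hcx hR g1 g2 hy hne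
    have hge : ∀ n : ℕ, c + C.t0 + (l.length + 1) ≤ (c + C.t0 + (l.length + 1)) * (n + 1) := by
      intro n
      exact Nat.le_mul_of_pos_right _ (by omega)
    by_cases hsmall : t' ≤ C.t0 + (l.length + 1)
    · have := hge ((z1 ++ (y.map Prod.fst ++ z2)).count σ)
      omega
    push Not at hsmall
    obtain ⟨t'', rfl⟩ : ∃ t'', t' = t'' + 1 + l.length := ⟨t' - (l.length + 1), by omega⟩
    have hmod2 : t'' % C.p = K.e1 b % C.p := by
      rw [h7] at hmod
      have e1 : t'' + 1 + l.length = t'' + (l.length + 1) := by ring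
      have e2 : K.e1 b + l.length + 1 = K.e1 b + (l.length + 1) := by ring
      rw [e1, e2] at hmod
      exact Nat.ModEq.add_right_cancel' _ hmod
    have ht2 : C.t0 ≤ t'' := by omega
    have hcx2 := hcx.step hR g1 g2
    have hmY0 : Has R T m (K.e1 b + 1) Y0 := by
      have := has_of_path hp2 h5
      simpa using this
    rw [h1] at hy
    have hne2 : (x1 ++ z1) ++ (y.map Prod.fst ++ (z2 ++ x2)) ≠ [] := by simpa using hne
    obtain ⟨u1, w, u2, k1, k2, k3⟩ := K.descend C hr hmV (r := [s]) (k := Kd.br b)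
      (e := K.e1 b + 1) (t' := t'' + 1) (by omega) (by omega) (C.mod_add hmod2 1) hmY0 l X
      (x1 ++ z1) (z2 ++ x2) y hX hp1 hcx2 hy hne2
    have hne3 : (x1 ++ z1 ++ u1) ++ (w.map Prod.fst ++ (u2 ++ (z2 ++ x2))) ≠ [] := by
      rw [k1] at hne2
      simpa using hne2
    have hmY1 : Has R T m (t'' + 1) Y0 :=
      C.has_mod (t := K.e1 b + 1) (by omega) (by omega) (C.mod_add hmod2.symm 1) hY0 hmV hmY0
    have k2' := K.LT_proj k2
    simp only [List.map_cons, List.map_nil] at k2'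
    have hmw : m ∈ w.map Prod.fst := marker_in hr k3 hmY1 k2' hne3
    have hwne : w ≠ [] := by rintro rfl; simp at hmw
    obtain ⟨hRs, v1, y2, v2, j1, j2, j3, j4⟩ := K.step_path k2 hwne
    have j2' := K.LT_proj j2
    simp only [List.map_cons, List.map_nil] at j2'
    have hs1 : s.2.1 ∈ C.V := C.hV _ _ hRs _ (by simp)
    have hms : Has R T m t'' s.2.1 := C.has_mod h3 ht2 hmod2.symm hs1 hmV h5
    have hmy2 : m ∈ y2.map Prod.fst := by
      refine marker_in hr (k3.step hRs j1 j3) hms j2' ?_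
      rw [j4] at hne3
      simpa using hne3
    obtain ⟨zz, i1, i2⟩ := hc t'' ht2 hmod2
    have hsg := side_grow hr k3 hRs j1 j2' j3 hmy2 hW i1
    have hle : zz.count σ ≤ (z1 ++ (y.map Prod.fst ++ z2)).count σ := by
      rw [k1, j4]
      simp only [List.count_append] at hsg ⊢
      omega
    set n := (z1 ++ (y.map Prod.fst ++ z2)).count σ with hn
    have a1 : c * (zz.count σ + 1) ≤ c * (n + 1) := Nat.mul_le_mul_left _ (by omega)
    have a2 : (c + C.t0 + (l.length + 1)) * (n + 1) =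
        c * (n + 1) + (C.t0 * (n + 1) + (l.length + 1) * (n + 1)) := by ring
    have a3 : l.length + 1 ≤ (l.length + 1) * (n + 1) := Nat.le_mul_of_pos_right _ (by omega)
    rw [a2]
    omega
  | L s l2 Z h1 h2 h3 h4 h5 h6 h7 h8 =>
    have hZ : Z ∈ C.V := C.path_end_mem hX h4
    refine ⟨C.t0 + (K.l1 b).length + (K.e1 b + C.t0 + (l2.length + 1)) + (l2.length + 1), ?_⟩
    intro t' Y x1 x2 z1 z2 y ht' hmod hcx hR g1 g2 hy hne
    set n := (z1 ++ (y.map Prod.fst ++ z2)).count σ with hn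
    set A := C.t0 + (K.l1 b).length + (K.e1 b + C.t0 + (l2.length + 1)) with hA
    have hge : A ≤ A * (n + 1) := Nat.le_mul_of_pos_right _ (by omega)
    have hexp : (A + (l2.length + 1)) * (n + 1) = A * (n + 1) + ((l2.length + 1) * n +
      (l2.length + 1)) := by ring
    rw [hexp]
    by_cases hsmall : t' ≤ C.t0 + (K.l1 b).length
    · omega
    push Not at hsmall
    obtain ⟨t'', rfl⟩ : ∃ t'', t' = t'' + (K.l1 b).length := ⟨t' - (K.l1 b).length, by omega⟩
    have hmod2 : t'' % C.p = (K.e1 b + (l2.length + 1)) % C.p := by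
      rw [h8] at hmod
      have e2 : (K.l1 b).length + (l2.length + 1) + K.e1 b =
        K.e1 b + (l2.length + 1) + (K.l1 b).length := by ring
      rw [e2] at hmod
      exact Nat.ModEq.add_right_cancel' _ hmod
    have hmod3 : t'' % C.p = K.e1 b % C.p := by
      rw [hmod2]
      obtain ⟨c, hc⟩ := h3
      rw [hc, Nat.add_mul_mod_self_left]
    have ht2 : C.t0 ≤ t'' := by omega
    have hcx2 := hcx.step hR g1 g2
    have hmZ : Has R T m (K.e1 b + (l2.length + 1)) Z :=
      C.has_mod (t := K.e1 b) h2 (by omega) (hmod3.symm.trans hmod2) hZ hmV h7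
    have hne2 : (x1 ++ z1) ++ (y.map Prod.fst ++ (z2 ++ x2)) ≠ [] := by simpa using hne
    have e3 : K.pathL (Kd.br b) (K.l1 b ++ []) = K.pathL (Kd.br b) (K.l1 b) := by
      rw [List.append_nil]
    obtain ⟨u1, w, u2, k1, k2, k3⟩ := K.descend C hr hmV (r := []) (k := Kd.br b)
      (e := K.e1 b + (l2.length + 1)) (t' := t'') (by omega) ht2 hmod2 hmZ (K.l1 b) X
      (x1 ++ z1) (z2 ++ x2) y hX h4 hcx2 (by rw [e3]; exact hy) hne2
    have hne3 : (x1 ++ z1 ++ u1) ++ (w.map Prod.fst ++ (u2 ++ (z2 ++ x2))) ≠ [] := by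
      rw [k1] at hne2
      simpa using hne2
    have e4 : K.pathL (Kd.br b) [] = Lb.path (Kd.lp b) [] := by
      unfold pathL endLb
      simp [h1]
    rw [e4] at k2
    have hlb := K.loop_bound C hr hmV hσV hKp hWF h1 h2 hZ h5 h6 h7 t'' _ _ w ht2 hmod3 k3 k2 hne3
    have hle : (w.map Prod.fst).count σ ≤ n := by
      rw [hn, k1]
      simp only [List.count_append]
      omega
    have a1 : (l2.length + 1) * (w.map Prod.fst).count σ ≤ (l2.length + 1) * n :=
      Nat.mul_le_mul_left _ hle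
    omega

end Ctrl

lemma BrOK.has [DecidableEq α] {C : EC R T} {K : Ctrl α} {m σ : α} {b : Bool} {X : α}
    {sib : List α} (h : BrOK C K m σ b X sib) : Has R T m K.e X := by
  cases h with
  | F h1 h2 h3 h4 h5 => exact h4
  | R l s h1 h2 h3 h4 h5 h6 h7 =>
    have := has_of_path h4 h5
    rw [h7]
    simpa [Nat.add_assoc] using this
  | L s l2 Z h1 h2 h3 h4 h5 h6 h7 h8 =>
    have := has_of_path h5 h7
    have h9 := has_of_path h4 this
    rw [h8]
    have e : (K.l1 b).length + (l2.length + 1) + K.e1 b =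
      K.e1 b + (l2.length + 1) + (K.l1 b).length := by ring
    rw [e]
    exact h9

/-- good control data -/
structure Good [DecidableEq α] (C : EC R T) (K : Ctrl α) (𝓛 : List α → Prop) (S Y : α)
    (m σ : Bool → α) : Prop where
  hp : K.p = C.p
  wf : K.WF
  he : C.t0 ≤ K.e
  hS : S ∈ C.V
  hm : ∀ b, m b ∈ C.V
  hσ : ∀ b, σ b ∈ C.V
  rig : ∀ b, Rig 𝓛 (m b) (σ b)
  hcx : ∀ t, Cx R T 𝓛 t S [] []
  hcom : IsPath R T (K.e + 1) S K.com Y
  hY : R Y (K.cA ++ K.W :: (K.cB ++ K.W' :: K.cC))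
  hNE : ∀ Z ∈ K.cA ++ (K.cB ++ K.cC), NE R T K.e Z
  brT : BrOK C K (m true) (σ true) true K.W (K.cA ++ (K.cB ++ K.W' :: K.cC))
  brF : BrOK C K (m false) (σ false) false K.W' ((K.cA ++ K.W :: K.cB) ++ K.cC)

lemma Good.hasY [DecidableEq α] {C : EC R T} {K : Ctrl α} {S Y : α} {m σ : Bool → α}
    (h : Good C K 𝓛 S Y m σ) (b : Bool) : Has R T (m b) (K.e + 1) Y := by
  rw [Has_succ]
  refine ⟨_, h.hY, ?_, ?_⟩
  · intro Z hZ
    simp only [List.mem_append, List.mem_cons] at hZ
    rcases hZ with hZ | rfl | hZ | rfl | hZ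
    · exact h.hNE Z (by simp [hZ])
    · exact h.brT.has.ne
    · exact h.hNE Z (by simp [hZ])
    · exact h.brF.has.ne
    · exact h.hNE Z (by simp [hZ])
  · cases b
    · exact ⟨K.W', by simp, h.brF.has⟩
    · exact ⟨K.W, by simp, h.brT.has⟩

theorem Good.bound [DecidableEq α] {C : EC R T} {K : Ctrl α} {S Y : α} {m σ : Bool → α}
    (h : Good C K 𝓛 S Y m σ) (b : Bool) :
    ∃ c, ∀ (t : ℕ) (z : List (α × Lb α)),
      LT (K.R2 R) (Ctrl.fin T) t [(S, Lb.path Kd.com K.com)] z → z ≠ [] →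
      t ≤ c * ((z.map Prod.fst).count (σ b) + 1) := by
  have hYV : Y ∈ C.V := C.path_end_mem h.hS h.hcom
  have hchild : ∀ Z ∈ K.cA ++ K.W :: (K.cB ++ K.W' :: K.cC), Z ∈ C.V := C.hV _ _ h.hY
  -- bound at the split node
  obtain ⟨c, hc⟩ : ∃ c, ∀ (t' : ℕ) (x1 x2 : List α) (w : List (α × Lb α)), C.t0 ≤ t' →
      t' % C.p = K.e % C.p → Cx R T 𝓛 (t' + 1) Y x1 x2 →
      LT (K.R2 R) (Ctrl.fin T) (t' + 1) [(Y, Lb.path Kd.com [])] w → w ≠ [] →
      t' ≤ c * ((w.map Prod.fst).count (σ b) + 1) := by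
    cases b with
    | true =>
      obtain ⟨c, hc⟩ := K.branch_bound C (h.rig true) (h.hm true) (h.hσ true) h.hp h.wf h.he
        (b := true) (X := K.W) (hchild _ (by simp)) (δ1 := K.cA) (δ2 := K.cB ++ K.W' :: K.cC)
        (by
          intro Z hZ
          apply hchild
          simp only [List.mem_append, List.mem_cons] at hZ ⊢
          tauto) h.brT
      refine ⟨c, ?_⟩
      intro t' x1 x2 w ht' hmod hcx hw hwne
      rw [LT_single_succ] at hw
      obtain ⟨β, hR, hβ⟩ := hw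
      cases hR with
      | dead _ _ β h => exact absurd (K.dead_nil hβ) hwne
      | split _ hRY =>
        rw [LT_mid] at hβ
        obtain ⟨z1, y, z2, g1, g2, g3, rfl⟩ := hβ
        have g1' := K.LT_proj g1
        have g3' := K.LT_proj g3
        rw [Ctrl.fr_proj] at g1'
        rw [List.map_append, List.map_cons, Ctrl.fr_proj, Ctrl.fr_proj] at g3'
        have := hc t' Y x1 x2 _ _ y ht' hmod hcx h.hY g1' g3' g2 (by
          intro h0
          apply hwne
          simp at h0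
          simp [h0])
        simpa using this
    | false =>
      have e0 : K.cA ++ K.W :: (K.cB ++ K.W' :: K.cC) = (K.cA ++ K.W :: K.cB) ++ K.W' :: K.cC := by
        simp
      obtain ⟨c, hc⟩ := K.branch_bound C (h.rig false) (h.hm false) (h.hσ false) h.hp h.wf h.he
        (b := false) (X := K.W') (hchild _ (by simp)) (δ1 := K.cA ++ K.W :: K.cB) (δ2 := K.cC)
        (by
          intro Z hZ
          apply hchild
          simp only [List.mem_append, List.mem_cons] at hZ ⊢
          tauto) h.brF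
      refine ⟨c, ?_⟩
      intro t' x1 x2 w ht' hmod hcx hw hwne
      rw [LT_single_succ] at hw
      obtain ⟨β, hR, hβ⟩ := hw
      cases hR with
      | dead _ _ β h => exact absurd (K.dead_nil hβ) hwne
      | split _ hRY =>
        have e1 : ∀ (A B D : List (α × Lb α)) (x y : α × Lb α),
            A ++ x :: (B ++ y :: D) = (A ++ x :: B) ++ y :: D := by
          intro A B D x y; simp
        rw [e1, LT_mid] at hβ
        obtain ⟨z1, y, z2, g1, g2, g3, rfl⟩ := hβ
        have g1' := K.LT_proj g1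
        have g3' := K.LT_proj g3
        rw [Ctrl.fr_proj] at g3'
        rw [List.map_append, List.map_cons, Ctrl.fr_proj, Ctrl.fr_proj] at g1'
        have hRY' := h.hY
        rw [e0] at hRY'
        have := hc t' Y x1 x2 _ _ y ht' hmod hcx hRY' g1' g3' g2 (by
          intro h0
          apply hwne
          simp at h0
          simp [h0])
        simpa using this
  refine ⟨c + (C.t0 + K.com.length + 1), ?_⟩
  intro t z hz hzne
  set n := (z.map Prod.fst).count (σ b) with hn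
  have hexp : (c + (C.t0 + K.com.length + 1)) * (n + 1) = c * (n + 1) +
      (C.t0 + K.com.length + 1) * (n + 1) := by ring
  have hge : C.t0 + K.com.length + 1 ≤ (C.t0 + K.com.length + 1) * (n + 1) :=
    Nat.le_mul_of_pos_right _ (by omega)
  rw [hexp]
  by_cases hsmall : t ≤ C.t0 + K.com.length
  · omega
  push Not at hsmall
  obtain ⟨t', rfl⟩ : ∃ t', t = t' + 1 + K.com.length := ⟨t - (K.com.length + 1), by omega⟩
  have ht' : C.t0 ≤ t' := by omega
  have hres := K.res_spec h.wf hz hzne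
  simp only [Ctrl.res, Ctrl.E] at hres
  rw [h.hp] at hres
  have hmod1 : (t' + 1) % C.p = (K.e + 1) % C.p := by
    rw [Nat.add_comm K.com.length] at hres
    exact Nat.ModEq.add_right_cancel' _ hres
  have hmod : t' % C.p = K.e % C.p := Nat.ModEq.add_right_cancel' _ hmod1
  have e3 : K.pathL Kd.com (K.com ++ []) = Lb.path Kd.com K.com := by
    rw [List.append_nil]; rfl
  obtain ⟨u1, w, u2, k1, k2, k3⟩ := K.descend C (h.rig b) (h.hm b) (r := []) (k := Kd.com)
    (e := K.e + 1) (t' := t' + 1) (by have := h.he; omega) (by omega) hmod1 (h.hasY b) K.com S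
    [] [] z h.hS h.hcom (h.hcx _) (by rw [e3]; exact hz) (by
      simpa using hzne)
  have e4 : K.pathL Kd.com [] = Lb.path Kd.com [] := rfl
  rw [e4] at k2
  have hne3 : ([] ++ u1) ++ (w.map Prod.fst ++ (u2 ++ [])) ≠ [] := by
    rw [List.nil_append, List.append_nil, ← k1]
    simpa using hzne
  have k2' := K.LT_proj k2
  simp only [List.map_cons, List.map_nil] at k2'
  have hmY : Has R T (m b) (t' + 1) Y :=
    C.has_mod (t := K.e + 1) (by have := h.he; omega) (by omega) hmod1.symm hYV (h.hm b) (h.hasY b)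
  have hmw : m b ∈ w.map Prod.fst := marker_in (h.rig b) k3 hmY k2' hne3
  have hwne : w ≠ [] := by rintro rfl; simp at hmw
  have h5 := hc t' _ _ w ht' hmod k3 k2 hwne
  have hle : (w.map Prod.fst).count (σ b) ≤ n := by
    rw [hn, k1]
    simp only [List.count_append]
    omega
  have a1 : c * ((w.map Prod.fst).count (σ b) + 1) ≤ c * (n + 1) :=
    Nat.mul_le_mul_left _ (by omega)
  omega

end Pool.Agent.EOLForms
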