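import Pool.Agent.EOLForms.Seq

/-! The pumping lemma for context-free grammars. -/

namespace Pool.Agent.EOLForms

variable {α : Type*} {R : α → List α → Prop} {T : α → Prop}

/-- choice of a child with the longest yield -/
lemma longest {t : ℕ} : ∀ (β z : List α), β ≠ [] → LT R T t β z →
    ∃ δ1 Y δ2 z1 y z2, β = δ1 ++ Y :: δ2 ∧ LT R T t δ1 z1 ∧ LT R T t [Y] y ∧ LT R T t δ2 z2 ∧
      z = z1 ++ (y ++ z2) ∧ z.length ≤ β.length * y.length := by
  intro β
  induction β with
  | nil => intro z h; exact absurd rfl h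
  | cons X β ih =>
    intro z _ hz
    rw [LT_cons] at hz
    obtain ⟨z1, z2, h1, h2, rfl⟩ := hz
    by_cases hβ : β = []
    · subst hβ
      rw [LT_nil] at h2
      subst h2
      exact ⟨[], X, [], [], z1, [], rfl, LT_nil.2 rfl, h1, LT_nil.2 rfl, by simp, by simp⟩
    · obtain ⟨δ1, Y, δ2, y1, y, y2, e1, g1, g2, g3, e2, hc⟩ := ih z2 hβ h2
      by_cases hle : y.length ≤ z1.length
      · refine ⟨[], X, β, [], z1, z2, rfl, LT_nil.2 rfl, h1, h2, by simp, ?_⟩
        rw [List.length_append, List.length_cons]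
        have := Nat.mul_le_mul_left β.length hle
        calc z1.length + z2.length ≤ z1.length + β.length * z1.length := by omega
          _ = (β.length + 1) * z1.length := by ring
      · refine ⟨X :: δ1, Y, δ2, z1 ++ y1, y, y2, by simp [e1], LT_cons.2 ⟨z1, y1, h1, g1, rfl⟩,
          g2, g3, by simp [e2], ?_⟩
        rw [List.length_append, List.length_cons]
        calc z1.length + z2.length ≤ y.length + β.length * y.length := by omega
          _ = (β.length + 1) * y.length := by ring

/-- a pumpable decomposition of the yield of `X` -/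
def PumpAt (R : α → List α → Prop) (T : α → Prop) (N : ℕ) (X : α) (z : List α) : Prop :=
  ∃ B u v w x y, Ctx R T X B u y ∧ Ctx R T B B v x ∧ Yl R T [B] w ∧
    z = u ++ (v ++ (w ++ (x ++ y))) ∧ (v ++ (w ++ x)).length ≤ N ∧ v ++ x ≠ []

open Classical in
theorem cf_claim (V : Finset α) (hV : ∀ X y, R X y → ∀ Y ∈ y, Y ∈ V) {D : ℕ} (hD1 : 1 ≤ D)
    (hD : ∀ X y, R X y → y.length ≤ D) : ∀ (t : ℕ) (X : α) (z : List α), X ∈ V →
    LT (Pl R) T t [X] z → PumpAt R T (D ^ (V.card + 1)) X z ∨
      ∃ s : Finset α, s ⊆ V ∧ z.length ≤ D ^ s.card ∧ ∀ B ∈ s, ∃ u w y, Ctx R T X B u y ∧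
        Yl R T [B] w ∧ z = u ++ (w ++ y) := by
  intro t
  induction t with
  | zero =>
    intro X z _ h
    right
    refine ⟨∅, by simp, ?_, by simp⟩
    have h1 : z = [X] := h.1
    rw [h1]
    simp
  | succ t ih =>
    intro X z hX h
    have hY0 : Yl R T [X] z := ⟨_, h⟩
    rw [LT_single_succ] at h
    obtain ⟨β, hR, hβ⟩ := h
    rcases hR with hR | rfl
    swap
    · exact ih X z hX hβ
    by_cases hb : β = []
    · subst hb
      rw [LT_nil] at hβ
      subst hβ
      right
      exact ⟨∅, by simp, by simp, by simp⟩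
    obtain ⟨δ1, Y, δ2, z1, y, z2, rfl, g1, g2, g3, rfl, hc⟩ := longest β z hb hβ
    have hYV : Y ∈ V := hV _ _ hR _ (by simp)
    have hlen : (δ1 ++ Y :: δ2).length ≤ D := hD _ _ hR
    have hctx : Ctx R T X Y z1 z2 := Ctx.of_rule hR ⟨t, g1⟩ ⟨t, g3⟩
    rcases ih Y y hYV g2 with ⟨B, u, v, w, x, y', k1, k2, k3, k4, k5, k6⟩ | ⟨s, hs1, hs2, hs3⟩
    · left
      exact ⟨B, z1 ++ u, v, w, x, y' ++ z2, hctx.trans k1, k2, k3, by rw [k4]; simp, k5, k6⟩
    · have ext : ∀ B ∈ s, ∃ u w y', Ctx R T X B u y' ∧ Yl R T [B] w ∧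
          z1 ++ (y ++ z2) = u ++ (w ++ y') := by
        intro B hB
        obtain ⟨u, w, y', k1, k2, k3⟩ := hs3 B hB
        exact ⟨z1 ++ u, w, y' ++ z2, hctx.trans k1, k2, by rw [k3]; simp⟩
      have hbig : (z1 ++ (y ++ z2)).length ≤ D ^ (s.card + 1) := by
        calc (z1 ++ (y ++ z2)).length ≤ (δ1 ++ Y :: δ2).length * y.length := hc
          _ ≤ D * D ^ s.card := Nat.mul_le_mul hlen hs2
          _ = D ^ (s.card + 1) := by ring
      by_cases hact : z1 ++ z2 = []
      · right
        refine ⟨s, hs1, ?_, ext⟩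
        rw [List.append_eq_nil_iff] at hact
        rw [hact.1, hact.2]
        simpa using hs2
      · by_cases hin : X ∈ s
        · left
          obtain ⟨u, w, y', k1, k2, k3⟩ := hs3 X hin
          refine ⟨X, [], z1 ++ u, w, y' ++ z2, [], Ctx.refl X, hctx.trans k1, k2, ?_, ?_, ?_⟩
          · rw [k3]; simp
          · have e1 : z1 ++ u ++ (w ++ (y' ++ z2)) = z1 ++ (y ++ z2) := by rw [k3]; simp
            rw [e1]
            refine hbig.trans (Nat.pow_le_pow_right hD1 ?_)
            have := Finset.card_le_card hs1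
            omega
          · intro h0
            apply hact
            simp only [List.append_eq_nil_iff] at h0 ⊢
            tauto
        · right
          refine ⟨insert X s, ?_, ?_, ?_⟩
          · intro q hq
            rw [Finset.mem_insert] at hq
            rcases hq with rfl | hq
            · exact hX
            · exact hs1 hq
          · rw [Finset.card_insert_of_notMem hin]
            exact hbig
          · intro q hq
            rw [Finset.mem_insert] at hq
            rcases hq with rfl | hq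
            · exact ⟨[], _, [], Ctx.refl q, hY0, by simp⟩
            · exact ext q hq

/-- the pumping lemma -/
theorem cf_pump (V : Finset α) (hV : ∀ X y, R X y → ∀ Y ∈ y, Y ∈ V) {D : ℕ} (hD1 : 1 ≤ D)
    (hD : ∀ X y, R X y → y.length ≤ D) {S : α} (hS : S ∈ V) :
    Pumps (D ^ (V.card + 1)) {z | Yl R T [S] z ∧ z ≠ []} := by
  rintro z ⟨⟨t, ht⟩, hz⟩ hlen
  rcases cf_claim V hV hD1 hD t S z hS ht with ⟨B, u, v, w, x, y, k1, k2, k3, k4, k5, k6⟩ |
    ⟨s, hs1, hs2, _⟩
  · refine ⟨u, v, w, x, y, k4, k5, k6, ?_⟩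
    intro i hi
    refine ⟨?_, ?_⟩
    · have := k1.yl ((k2.pow i).yl k3)
      simpa using this
    · intro h0
      apply k6
      obtain ⟨j, rfl⟩ : ∃ j, i = j + 1 := ⟨i - 1, by omega⟩
      rw [pw_succ, pw_succ] at h0
      simp only [List.append_eq_nil_iff] at h0 ⊢
      tauto
  · exfalso
    have h1 : D ^ s.card ≤ D ^ (V.card + 1) := by
      apply Nat.pow_le_pow_right hD1
      have := Finset.card_le_card hs1
      omega
    omega

end Pool.Agent.EOLForms
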