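import Pool.Agent.EOLForms.Par

/-! Labelled copies of EOL grammars as s-interpretations. -/

namespace Pool.Agent.EOLForms

/-- the production relation of a grammar -/
def Gr.rel (F : Gr) (X : Sym) (β : List Sym) : Prop := (X, β) ∈ F.P

lemma Gr.parStep_iff (F : Gr) {x y : List Sym} : F.ParStep x y ↔ PStep F.rel x y := Iff.rfl

lemma Gr.mem_parLang (F : Gr) {w : List ℕ} :
    w ∈ F.parLang ↔ ∃ t, DL F.rel t [F.S] (w.map Symbol.terminal) := by
  rw [← DL_iff_reflTransGen]
  rfl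

lemma SInterp.trans {G₁ G₂ G₃ : Gr} (h₁ : SInterp G₁ G₂) (h₂ : SInterp G₂ G₃) : SInterp G₁ G₃ := by
  classical
  obtain ⟨μ, a1, a2, a3, a4, a5⟩ := h₁
  obtain ⟨ν, b1, b2, b3, b4, b5⟩ := h₂
  have hν : ∀ X ∈ G₃.V, ∀ Y ∈ ν X, Y ∈ G₂.V := by
    intro X hX Y hY
    cases X with
    | terminal a => exact (b1 a hX Y hY).1
    | nonterminal A => exact (b2 A hX Y hY).1
  refine ⟨fun X => (ν X).biUnion μ, ?_, ?_, ?_, ?_, ?_⟩
  · intro a ha Y hY
    rw [Finset.mem_biUnion] at hY
    obtain ⟨Z, hZ, hY⟩ := hY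
    obtain ⟨h1, b, rfl⟩ := b1 a ha Z hZ
    exact a1 b h1 Y hY
  · intro a ha Y hY
    rw [Finset.mem_biUnion] at hY
    obtain ⟨Z, hZ, hY⟩ := hY
    obtain ⟨h1, b, rfl⟩ := b2 a ha Z hZ
    exact a2 b h1 Y hY
  · intro X hX Y hY hne
    rw [Finset.disjoint_left]
    intro Z h1 h2
    rw [Finset.mem_biUnion] at h1 h2
    obtain ⟨U, hU, hZU⟩ := h1
    obtain ⟨W, hW, hZW⟩ := h2
    have hUW : U ≠ W := by
      rintro rfl
      exact Finset.disjoint_left.1 (b3 X hX Y hY hne) hU hW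
    exact Finset.disjoint_left.1 (a3 U (hν X hX U hU) W (hν Y hY W hW) hUW) hZU hZW
  · intro r hr
    obtain ⟨r', hr', h1, h2⟩ := a4 r hr
    obtain ⟨r'', hr'', h3, h4⟩ := b4 r' hr'
    refine ⟨r'', hr'', Finset.mem_biUnion.2 ⟨_, h3, h1⟩, ?_⟩
    have : ∀ (l1 l2 l3 : List Sym), List.Forall₂ (fun X Y => X ∈ μ Y) l1 l2 →
        List.Forall₂ (fun X Y => X ∈ ν Y) l2 l3 →
        List.Forall₂ (fun X Y => X ∈ (ν Y).biUnion μ) l1 l3 := by
      intro l1 l2 l3 h
      induction h generalizing l3 with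
      | nil => intro h; cases h; exact List.Forall₂.nil
      | cons h _ ih =>
        intro h'
        cases h' with
        | cons h'' h''' => exact List.Forall₂.cons (Finset.mem_biUnion.2 ⟨_, h'', h⟩) (ih _ h''')
    exact this _ _ _ h2 h4
  · exact Finset.mem_biUnion.2 ⟨_, b5, a5⟩

section

variable {Q : Type*} (enc : Q → ℕ)

/-- coding of labelled symbols -/
def code (X : Sym × Q) : Sym :=
  match X.1 with
  | Symbol.terminal a => Symbol.terminal (Nat.pair a (enc X.2))
  | Symbol.nonterminal A => Symbol.nonterminal (Nat.pair A (enc X.2))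

lemma code_inj {Labs : Set Q} (h : Set.InjOn enc Labs) {X Y : Sym × Q} (hX : X.2 ∈ Labs)
    (hY : Y.2 ∈ Labs) (he : code enc X = code enc Y) : X = Y := by
  obtain ⟨X, q⟩ := X
  obtain ⟨Y, r⟩ := Y
  simp only at hX hY
  cases X with
  | terminal a =>
    cases Y with
    | terminal b =>
      simp only [code, Symbol.terminal.injEq, Nat.pair_eq_pair] at he
      rw [he.1, h hX hY he.2]
    | nonterminal b => simp [code] at he
  | nonterminal a =>
    cases Y with
    | terminal b => simp [code] at he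
    | nonterminal b =>
      simp only [code, Symbol.nonterminal.injEq, Nat.pair_eq_pair] at he
      rw [he.1, h hX hY he.2]

end

lemma finite_words {β : Type*} {A : Set β} (hA : A.Finite) (D : ℕ) :
    {l : List β | (∀ x ∈ l, x ∈ A) ∧ l.length ≤ D}.Finite := by
  have : Finite A := hA
  have h1 : {l : List A | l.length ≤ D}.Finite := List.finite_length_le A D
  refine (h1.image (List.map Subtype.val)).subset ?_
  rintro l ⟨h2, h3⟩
  refine ⟨l.attach.map (fun x => ⟨x.1, h2 x.1 x.2⟩), by simpa using h3, ?_⟩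
  rw [List.map_map]
  simp [Function.comp_def]

/-- the labelled copy of a grammar -/
theorem lift0 {Q : Type*} (F : Gr) (R2 : Sym × Q → List (Sym × Q) → Prop)
    (hproj : ∀ X β, R2 X β → (X.1, β.map Prod.fst) ∈ F.P) (Labs : Set Q) (hfin : Labs.Finite)
    (hcl : ∀ X β, R2 X β → X.2 ∈ Labs → ∀ Y ∈ β, Y.2 ∈ Labs) (q0 : Q) (hq0 : q0 ∈ Labs) :
    ∃ (F'' : Gr) (enc : Q → ℕ), Set.InjOn enc Labs ∧ SInterp F'' F ∧
      F''.S = code enc (F.S, q0) ∧
      (∀ Y ∈ F''.V, ∃ X : Sym × Q, X.1 ∈ F.V ∧ X.2 ∈ Labs ∧ Y = code enc X) ∧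
      (∀ r, r ∈ F''.P ↔ ∃ X y, X.1 ∈ F.V ∧ X.2 ∈ Labs ∧ R2 X y ∧
        r = (code enc X, y.map (code enc))) := by
  classical
  obtain ⟨enc, henc⟩ := Set.countable_iff_exists_injOn.1 hfin.countable
  set A : Set (Sym × Q) := {X | X.1 ∈ F.V ∧ X.2 ∈ Labs} with hA
  have hAfin : A.Finite := by
    have h1 : ((F.V : Set Sym) ×ˢ Labs).Finite := F.V.finite_toSet.prod hfin
    refine h1.subset ?_
    rintro ⟨X, q⟩ ⟨h2, h3⟩
    exact ⟨h2, h3⟩
  have hAcl : ∀ X β, R2 X β → X ∈ A → ∀ Y ∈ β, Y ∈ A := by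
    intro X β h1 h2 Y hY
    refine ⟨(F.P_mem _ (hproj X β h1)).2 Y.1 (List.mem_map_of_mem hY), hcl X β h1 h2.2 Y hY⟩
  obtain ⟨D, hD⟩ : ∃ D, ∀ r ∈ F.P, r.2.length ≤ D :=
    ⟨F.P.sup (fun r => r.2.length), fun r hr => Finset.le_sup (f := fun r => r.2.length) hr⟩
  set PP : Set (Sym × List Sym) :=
    {r | ∃ X β, X ∈ A ∧ R2 X β ∧ r = (code enc X, β.map (code enc))} with hPP
  have hPPfin : PP.Finite := by
    have h1 := hAfin.prod (finite_words hAfin D)
    refine (h1.image fun p => (code enc p.1, p.2.map (code enc))).subset ?_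
    rintro r ⟨X, β, hX, hR, rfl⟩
    refine ⟨(X, β), ⟨hX, hAcl X β hR hX, ?_⟩, rfl⟩
    have := hD _ (hproj X β hR)
    simpa using this
  let F'' : Gr :=
    { V := hAfin.toFinset.image (code enc)
      P := hPPfin.toFinset
      S := code enc (F.S, q0)
      S_mem := Finset.mem_image_of_mem _ (by simp [hA, F.S_mem, hq0])
      P_mem := by
        intro r hr
        rw [Set.Finite.mem_toFinset] at hr
        obtain ⟨X, β, hX, hR, rfl⟩ := hr
        refine ⟨Finset.mem_image_of_mem _ (by simpa using hX), ?_⟩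
        intro Y hY
        simp only [List.mem_map] at hY
        obtain ⟨Z, hZ, rfl⟩ := hY
        exact Finset.mem_image_of_mem _ (by simpa using hAcl X β hR hX Z hZ) }
  refine ⟨F'', enc, henc, ?_, rfl, ?_, ?_⟩
  · -- interpretation
    refine ⟨fun X => hfin.toFinset.image (fun q => code enc (X, q)), ?_, ?_, ?_, ?_, ?_⟩
    · intro a ha Y hY
      simp only [Finset.mem_image, Set.Finite.mem_toFinset] at hY
      obtain ⟨q, hq, rfl⟩ := hY
      refine ⟨?_, _, rfl⟩
      exact Finset.mem_image_of_mem _ (by simp [hA, ha, hq])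
    · intro a ha Y hY
      simp only [Finset.mem_image, Set.Finite.mem_toFinset] at hY
      obtain ⟨q, hq, rfl⟩ := hY
      refine ⟨?_, _, rfl⟩
      exact Finset.mem_image_of_mem _ (by simp [hA, ha, hq])
    · intro X _ Y _ hne
      rw [Finset.disjoint_left]
      intro Z h1 h2
      simp only [Finset.mem_image, Set.Finite.mem_toFinset] at h1 h2
      obtain ⟨q, hq, rfl⟩ := h1
      obtain ⟨r, hr, h3⟩ := h2
      have := code_inj enc henc (X := (Y, r)) (Y := (X, q)) hr hq h3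
      apply hne
      rw [Prod.mk.injEq] at this
      exact this.1.symm
    · intro r hr
      simp only [F'', Set.Finite.mem_toFinset] at hr
      obtain ⟨X, β, hX, hR, rfl⟩ := hr
      refine ⟨_, hproj X β hR, ?_, ?_⟩
      · simp only [Finset.mem_image, Set.Finite.mem_toFinset]
        exact ⟨X.2, hX.2, rfl⟩
      · rw [List.forall₂_map_left_iff, List.forall₂_map_right_iff, List.forall₂_same]
        intro Y hY
        simp only [Finset.mem_image, Set.Finite.mem_toFinset]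
        exact ⟨Y.2, (hAcl X β hR hX Y hY).2, rfl⟩
    · simp only [Finset.mem_image, Set.Finite.mem_toFinset]
      exact ⟨q0, hq0, rfl⟩
  · intro Y hY
    simp only [F'', Finset.mem_image, Set.Finite.mem_toFinset] at hY
    obtain ⟨X, hX, rfl⟩ := hY
    exact ⟨X, hX.1, hX.2, rfl⟩
  · intro r
    simp only [F'', Set.Finite.mem_toFinset]
    constructor
    · rintro ⟨X, β, hX, hR, rfl⟩
      exact ⟨X, β, hX.1, hX.2, hR, rfl⟩
    · rintro ⟨X, β, h1, h2, hR, rfl⟩
      exact ⟨X, β, ⟨h1, h2⟩, hR, rfl⟩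

/-- derivations in the labelled copy -/
theorem lift_lang {Q : Type*} {V : Set Sym} {Labs : Set Q} {enc : Q → ℕ}
    {R2 : Sym × Q → List (Sym × Q) → Prop}
    {Rs : Sym → List Sym → Prop}
    (hAcl : ∀ X β, R2 X β → X.1 ∈ V → X.2 ∈ Labs → ∀ Y ∈ β, Y.1 ∈ V ∧ Y.2 ∈ Labs)
    (hrs : ∀ X : Sym × Q, X.1 ∈ V → X.2 ∈ Labs → ∀ y', Rs (code enc X) y' ↔
      ∃ y, R2 X y ∧ y' = y.map (code enc))
    {S : Sym} {q0 : Q} (hS : S ∈ V) (hq0 : q0 ∈ Labs) (w : List ℕ) :
    (∃ t, DL Rs t [code enc (S, q0)] (w.map Symbol.terminal)) ↔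
      ∃ (t : ℕ) (z : List (ℕ × Q)), DL R2 t [(S, q0)]
        (z.map fun x => ((Symbol.terminal x.1 : Sym), x.2)) ∧ (∀ x ∈ z, x.2 ∈ Labs) ∧
        w = z.map (fun x => Nat.pair x.1 (enc x.2)) := by
  set A : Set (Sym × Q) := {X | X.1 ∈ V ∧ X.2 ∈ Labs} with hA
  have hatt : ∀ l : List (Sym × Q), l.attach.map (fun x => x.1) = l :=
    fun l => List.attach_map_subtype_val l
  -- restricted relation
  let RA : A → List A → Prop := fun X β => R2 X.1 (β.map Subtype.val)
  have hcl' : ∀ X β, R2 X β → X ∈ A → ∀ Y ∈ β, Y ∈ A := fun X β h1 h2 => hAcl X β h1 h2.1 h2.2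
  have hval : ∀ (X : A) (y' : List (Sym × Q)), R2 X.1 y' →
      ∃ y : List A, RA X y ∧ y' = y.map Subtype.val := by
    intro X y' h
    refine ⟨y'.attach.map (fun Y => ⟨Y.1, hcl' X.1 y' h X.2 Y.1 Y.2⟩), ?_, ?_⟩
    · simp only [RA]
      rw [List.map_map]
      simpa only [Function.comp_def, hatt] using h
    · rw [List.map_map]
      simp only [Function.comp_def, hatt]
  have hrel : ∀ (X : A) (y' : List Sym), Rs (code enc X.1) y' →
      ∃ y : List A, RA X y ∧ y' = y.map (fun Y => code enc Y.1) := by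
    intro X y' h
    obtain ⟨y, hy, rfl⟩ := (hrs X.1 X.2.1 X.2.2 y').1 h
    obtain ⟨y2, hy2, rfl⟩ := hval X y hy
    exact ⟨y2, hy2, by simp [Function.comp_def]⟩
  have hrel' : ∀ (X : A) (y : List A), RA X y →
      Rs (code enc X.1) (y.map (fun Y => code enc Y.1)) := by
    intro X y h
    rw [hrs X.1 X.2.1 X.2.2]
    exact ⟨_, h, by simp [Function.comp_def]⟩
  let s0 : A := ⟨(S, q0), ⟨hS, hq0⟩⟩
  have hs0 : [code enc (S, q0)] = [s0].map (fun Y : A => code enc Y.1) := rfl
  have hs0' : [(S, q0)] = [s0].map Subtype.val := rfl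
  constructor
  · rintro ⟨t, ht⟩
    rw [hs0] at ht
    obtain ⟨z, hz1, hz2⟩ := DL_map_inv (R := RA) (f := fun Y : A => code enc Y.1) hrel ht
    have hz3 := DL_map (R := RA) (R' := R2) (f := Subtype.val) (fun X y h => h) hz1
    rw [← hs0'] at hz3
    -- decode
    have hdec : ∀ (z : List A) (w : List ℕ),
        w.map (Symbol.terminal : ℕ → Sym) = z.map (fun Y => code enc Y.1) →
        ∃ z' : List (ℕ × Q), z.map Subtype.val =
          z'.map (fun x => ((Symbol.terminal x.1 : Sym), x.2)) ∧ (∀ x ∈ z', x.2 ∈ Labs) ∧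
          w = z'.map (fun x => Nat.pair x.1 (enc x.2)) := by
      intro z
      induction z with
      | nil =>
        intro w h
        simp at h
        subst h
        exact ⟨[], by simp⟩
      | cons X z ih =>
        intro w h
        cases w with
        | nil => simp at h
        | cons n w =>
          simp only [List.map_cons, List.cons.injEq] at h
          obtain ⟨z', h1, h2, h3⟩ := ih w h.2
          obtain ⟨⟨X, q⟩, hX⟩ := X
          cases X with
          | terminal a =>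
            have h4 := h.1
            simp only [code, Symbol.terminal.injEq] at h4
            refine ⟨(a, q) :: z', ?_, ?_, ?_⟩
            · simp [h1]
            · intro x hx
              rw [List.mem_cons] at hx
              rcases hx with rfl | hx
              · exact hX.2
              · exact h2 x hx
            · simp [h3, h4]
          | nonterminal a =>
            have h4 := h.1
            simp [code] at h4
    obtain ⟨z', h1, h2, h3⟩ := hdec z w hz2
    rw [h1] at hz3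
    exact ⟨t, z', hz3, h2, h3⟩
  · rintro ⟨t, z, h1, h2, rfl⟩
    refine ⟨t, ?_⟩
    rw [hs0'] at h1
    obtain ⟨y, hy1, hy2⟩ := DL_map_inv (R := RA) (R' := R2) (f := Subtype.val) hval h1
    have := DL_map (R := RA) (R' := Rs) (f := fun Y : A => code enc Y.1) hrel' hy1
    rw [← hs0] at this
    have e1 : y.map (fun Y : A => code enc Y.1) = (y.map Subtype.val).map (code enc) := by
      simp [Function.comp_def]
    rw [e1, ← hy2, List.map_map] at this
    have e2 : (z.map (fun x => Nat.pair x.1 (enc x.2))).map (Symbol.terminal : ℕ → Sym) =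
        z.map (code enc ∘ fun x => ((Symbol.terminal x.1 : Sym), x.2)) := by
      rw [List.map_map]
      rfl
    rw [e2]
    exact this

/-- the labelled copy of an EOL grammar -/
theorem lift {Q : Type*} (F : Gr) (hF : F.IsEOL) (R2 : Sym × Q → List (Sym × Q) → Prop)
    (hproj : ∀ X β, R2 X β → (X.1, β.map Prod.fst) ∈ F.P) (Labs : Set Q) (hfin : Labs.Finite)
    (hcl : ∀ X β, R2 X β → X.2 ∈ Labs → ∀ Y ∈ β, Y.2 ∈ Labs)
    (htot : ∀ X q β, (X, β) ∈ F.P → ∃ β', R2 (X, q) β') (q0 : Q) (hq0 : q0 ∈ Labs) :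
    ∃ (F'' : Gr) (cd : ℕ × Q → ℕ), F''.IsEOL ∧ SInterp F'' F ∧
      Set.InjOn cd {x | x.2 ∈ Labs} ∧
      ∀ w, w ∈ F''.parLang ↔ ∃ (t : ℕ) (z : List (ℕ × Q)), DL R2 t [(F.S, q0)]
        (z.map fun x => ((Symbol.terminal x.1 : Sym), x.2)) ∧ (∀ x ∈ z, x.2 ∈ Labs) ∧
        w = z.map cd := by
  obtain ⟨F'', enc, henc, hSI, hS, hV, hP⟩ := lift0 F R2 hproj Labs hfin hcl q0 hq0
  refine ⟨F'', fun x => Nat.pair x.1 (enc x.2), ?_, hSI, ?_, ?_⟩
  · intro X hX
    obtain ⟨⟨X, q⟩, h1, h2, rfl⟩ := hV X hX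
    obtain ⟨β, hβ⟩ := hF X h1
    obtain ⟨β', hβ'⟩ := htot X q β hβ
    exact ⟨β'.map (code enc), (hP _).2 ⟨_, _, h1, h2, hβ', rfl⟩⟩
  · intro x hx y hy h
    simp only [Nat.pair_eq_pair] at h
    exact Prod.ext h.1 (henc hx hy h.2)
  · intro w
    rw [Gr.mem_parLang, hS]
    refine lift_lang (V := (F.V : Set Sym)) ?_ ?_ F.S_mem hq0 w
    · intro X β h h1 h2 Y hY
      exact ⟨(F.P_mem _ (hproj X β h)).2 Y.1 (List.mem_map_of_mem hY), hcl X β h h2 Y hY⟩
    · intro X h1 h2 y'
      unfold Gr.rel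
      rw [hP]
      constructor
      · rintro ⟨X', y, k1, k2, k3, k4⟩
        rw [Prod.mk.injEq] at k4
        have := code_inj enc henc h2 k2 k4.1
        subst this
        exact ⟨y, k3, k4.2⟩
      · rintro ⟨y, k1, rfl⟩
        exact ⟨X, y, h1, h2, k1, rfl⟩

end Pool.Agent.EOLForms
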