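import Pool.Agent.EOLForms.PumpContra
import Pool.Agent.EOLForms.Lift

/-! An EOL grammar generating a language with the four-letter pattern has an s-interpretation
whose language is not pumpable. -/

namespace Pool.Agent.EOLForms

/-- the finite set of labels needed -/
def Ctrl.Labs {α : Type*} (K : Ctrl α) : Set (Lb α) :=
  (Lb.free '' Set.Iio K.p) ∪ ({Lb.dead} ∪ ((Lb.exit '' Set.Iic (K.e1 true + K.e1 false)) ∪
    ((Lb.path Kd.com '' {l | l <:+ K.com}) ∪ (⋃ b : Bool, (Lb.path (Kd.br b) '' {l | l <:+ K.l1 b}) ∪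
      (Lb.path (Kd.lp b) '' {l | l = [] ∨ ∃ s l', K.lp b = some (s, l') ∧ l <:+ l'})))))

lemma finite_suffixes {β : Type*} (l0 : List β) : {l : List β | l <:+ l0}.Finite := by
  refine (List.finite_toSet l0.tails).subset ?_
  intro l hl
  exact (List.mem_tails _ _).2 hl

lemma Ctrl.Labs_finite {α : Type*} (K : Ctrl α) : K.Labs.Finite := by
  refine ((Set.finite_Iio K.p).image _).union ((Set.finite_singleton _).union
    (((Set.finite_Iic _).image _).union (((finite_suffixes K.com).image _).union ?_)))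
  refine Set.finite_iUnion fun b => ((finite_suffixes (K.l1 b)).image _).union (Set.Finite.image _ ?_)
  cases h : K.lp b with
  | none =>
    refine (Set.finite_singleton ([] : List (Stp α))).subset ?_
    rintro l (hl | ⟨s, l', h', _⟩)
    · exact hl
    · simp at h'
  | some q =>
    obtain ⟨s, l'⟩ := q
    refine ((Set.finite_singleton ([] : List (Stp α))).union (finite_suffixes l')).subset ?_
    rintro l (hl | ⟨s', l'', h', h''⟩)
    · exact Or.inl hl
    · right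
      cases h'
      exact h''

lemma Ctrl.mem_Labs {α : Type*} (K : Ctrl α) (q : Lb α) : q ∈ K.Labs ↔
    (∃ r, r < K.p ∧ q = Lb.free r) ∨ q = Lb.dead ∨
    (∃ i, i ≤ K.e1 true + K.e1 false ∧ q = Lb.exit i) ∨
    (∃ l, l <:+ K.com ∧ q = Lb.path Kd.com l) ∨
    (∃ b l, l <:+ K.l1 b ∧ q = Lb.path (Kd.br b) l) ∨
    (∃ b l, (l = [] ∨ ∃ s l', K.lp b = some (s, l') ∧ l <:+ l') ∧ q = Lb.path (Kd.lp b) l) := by
  unfold Ctrl.Labs
  simp only [Set.mem_union, Set.mem_image, Set.mem_Iio, Set.mem_singleton_iff, Set.mem_Iic,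
    Set.mem_ofPred_eq, Set.mem_iUnion]
  constructor
  · rintro (⟨r, h, rfl⟩ | rfl | ⟨i, h, rfl⟩ | ⟨l, h, rfl⟩ | ⟨b, ⟨l, h, rfl⟩ | ⟨l, h, rfl⟩⟩)
    · exact Or.inl ⟨r, h, rfl⟩
    · exact Or.inr (Or.inl rfl)
    · exact Or.inr (Or.inr (Or.inl ⟨i, h, rfl⟩))
    · exact Or.inr (Or.inr (Or.inr (Or.inl ⟨l, h, rfl⟩)))
    · exact Or.inr (Or.inr (Or.inr (Or.inr (Or.inl ⟨b, l, h, rfl⟩))))
    · exact Or.inr (Or.inr (Or.inr (Or.inr (Or.inr ⟨b, l, h, rfl⟩))))
  · rintro (⟨r, h, rfl⟩ | rfl | ⟨i, h, rfl⟩ | ⟨l, h, rfl⟩ | ⟨b, l, h, rfl⟩ | ⟨b, l, h, rfl⟩)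
    · exact Or.inl ⟨r, h, rfl⟩
    · exact Or.inr (Or.inl rfl)
    · exact Or.inr (Or.inr (Or.inl ⟨i, h, rfl⟩))
    · exact Or.inr (Or.inr (Or.inr (Or.inl ⟨l, h, rfl⟩)))
    · exact Or.inr (Or.inr (Or.inr (Or.inr ⟨b, Or.inl ⟨l, h, rfl⟩⟩)))
    · exact Or.inr (Or.inr (Or.inr (Or.inr ⟨b, Or.inr ⟨l, h, rfl⟩⟩)))

lemma Ctrl.pathL_mem {α : Type*} (K : Ctrl α) (hp : 0 < K.p) {k : Kd} {l : List (Stp α)}
    (h : Lb.path k l ∈ K.Labs ∨ (∃ b, k = Kd.br b ∧ l <:+ K.l1 b)) : K.pathL k l ∈ K.Labs := by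
  have key : Lb.path k l ∈ K.Labs := by
    rcases h with h | ⟨b, rfl, h⟩
    · exact h
    · rw [K.mem_Labs]
      exact Or.inr (Or.inr (Or.inr (Or.inr (Or.inl ⟨b, l, h, rfl⟩))))
  unfold Ctrl.pathL
  split
  · next b =>
    unfold Ctrl.endLb
    split
    · rw [K.mem_Labs]
      exact Or.inl ⟨_, Nat.mod_lt _ hp, rfl⟩
    · rw [K.mem_Labs]
      exact Or.inr (Or.inr (Or.inr (Or.inr (Or.inr ⟨b, [], Or.inl rfl, rfl⟩))))
  · exact key

lemma Ctrl.free_mem {α : Type*} (K : Ctrl α) (hp : 0 < K.p) (r : ℕ) :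
    (Lb.free (r % K.p) : Lb α) ∈ K.Labs := by
  rw [K.mem_Labs]
  exact Or.inl ⟨_, Nat.mod_lt _ hp, rfl⟩

lemma Ctrl.fr_mem {α : Type*} (K : Ctrl α) (hp : 0 < K.p) (r : ℕ) {x : List α} {Y : α × Lb α}
    (hY : Y ∈ Ctrl.fr (r % K.p) x) : Y.2 ∈ K.Labs := by
  simp only [Ctrl.fr, List.mem_map] at hY
  obtain ⟨a, _, rfl⟩ := hY
  exact K.free_mem hp r

lemma Ctrl.path_tail_mem {α : Type*} (K : Ctrl α) {k : Kd} {s : Stp α} {l : List (Stp α)}
    (h : Lb.path k (s :: l) ∈ K.Labs) : Lb.path k l ∈ K.Labs := by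
  rw [K.mem_Labs] at h ⊢
  rcases h with ⟨r, h, h'⟩ | h' | ⟨i, h, h'⟩ | ⟨l', h, h'⟩ | ⟨b, l', h, h'⟩ | ⟨b, l', h, h'⟩
  · simp at h'
  · simp at h'
  · simp at h'
  · simp only [Lb.path.injEq] at h'
    obtain ⟨rfl, rfl⟩ := h'
    exact Or.inr (Or.inr (Or.inr (Or.inl ⟨l, (List.suffix_cons s l).trans h, rfl⟩)))
  · simp only [Lb.path.injEq] at h'
    obtain ⟨rfl, rfl⟩ := h'
    exact Or.inr (Or.inr (Or.inr (Or.inr (Or.inl ⟨b, l, (List.suffix_cons s l).trans h, rfl⟩))))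
  · simp only [Lb.path.injEq] at h'
    obtain ⟨rfl, rfl⟩ := h'
    refine Or.inr (Or.inr (Or.inr (Or.inr (Or.inr ⟨b, l, ?_, rfl⟩))))
    rcases h with h | ⟨s', l'', h1, h2⟩
    · simp at h
    · exact Or.inr ⟨s', l'', h1, (List.suffix_cons s l).trans h2⟩

lemma Ctrl.Labs_closed {α : Type*} (K : Ctrl α) (hp : 0 < K.p) {R : α → List α → Prop}
    (X : α × Lb α) (β : List (α × Lb α)) (h : K.R2 R X β) (hX : X.2 ∈ K.Labs) :
    ∀ Y ∈ β, Y.2 ∈ K.Labs := by
  cases h with
  | dead X q β h =>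
    intro Y hY
    rw [List.mem_map] at hY
    obtain ⟨a, _, rfl⟩ := hY
    rw [K.mem_Labs]
    exact Or.inr (Or.inl rfl)
  | free X r β h =>
    intro Y hY
    exact K.fr_mem hp _ hY
  | exit X i β h =>
    intro Y hY
    rw [List.mem_map] at hY
    obtain ⟨a, _, rfl⟩ := hY
    rw [K.mem_Labs] at hX ⊢
    rcases hX with ⟨r, h, h'⟩ | h' | ⟨i', h, h'⟩ | ⟨l', h, h'⟩ | ⟨b, l', h, h'⟩ | ⟨b, l', h, h'⟩
    · simp at h'
    · simp at h'
    · simp only [Lb.exit.injEq] at h'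
      exact Or.inr (Or.inr (Or.inl ⟨i, by omega, rfl⟩))
    · simp at h'
    · simp at h'
    · simp at h'
  | path X k s l h =>
    intro Y hY
    simp only [List.mem_append, List.mem_cons] at hY
    rcases hY with hY | rfl | hY
    · exact K.fr_mem hp _ hY
    · exact K.pathL_mem hp (Or.inl (K.path_tail_mem hX))
    · exact K.fr_mem hp _ hY
  | split X h =>
    intro Y hY
    simp only [List.mem_append, List.mem_cons] at hY
    rcases hY with hY | rfl | hY | rfl | hY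
    · exact K.fr_mem hp _ hY
    · exact K.pathL_mem hp (Or.inr ⟨true, rfl, List.suffix_rfl⟩)
    · exact K.fr_mem hp _ hY
    · exact K.pathL_mem hp (Or.inr ⟨false, rfl, List.suffix_rfl⟩)
    · exact K.fr_mem hp _ hY
  | loop X b s l hlp h =>
    intro Y hY
    simp only [List.mem_append, List.mem_cons] at hY
    rcases hY with hY | rfl | hY
    · exact K.fr_mem hp _ hY
    · rw [K.mem_Labs]
      exact Or.inr (Or.inr (Or.inr (Or.inr (Or.inr ⟨b, l,
        Or.inr ⟨s, l, hlp, List.suffix_rfl⟩, rfl⟩))))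
    · exact K.fr_mem hp _ hY
  | lexit X b β h =>
    intro Y hY
    rw [List.mem_map] at hY
    obtain ⟨a, _, rfl⟩ := hY
    rw [K.mem_Labs]
    refine Or.inr (Or.inr (Or.inl ⟨K.e1 b - 1, ?_, rfl⟩))
    cases b <;> omega

/-- terminal symbols -/
def isT (X : Sym) : Prop := ∃ a, X = Symbol.terminal a

lemma map_of_isT {z : List Sym} (h : ∀ a ∈ z, isT a) :
    ∃ u : List ℕ, z = u.map Symbol.terminal := by
  induction z with
  | nil => exact ⟨[], rfl⟩
  | cons X z ih =>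
    obtain ⟨u, rfl⟩ := ih (fun a ha => h a (by simp [ha]))
    obtain ⟨a, rfl⟩ := h X (by simp)
    exact ⟨a :: u, rfl⟩

lemma LT_iff_parLang (F : Gr) (z : List Sym) :
    (∃ t, LT F.rel isT t [F.S] z) ↔ ∃ u ∈ F.parLang, z = u.map Symbol.terminal := by
  constructor
  · rintro ⟨t, h1, h2⟩
    obtain ⟨u, rfl⟩ := map_of_isT h2
    exact ⟨u, F.mem_parLang.2 ⟨t, h1⟩, rfl⟩
  · rintro ⟨u, hu, rfl⟩
    obtain ⟨t, ht⟩ := F.mem_parLang.1 hu
    refine ⟨t, ht, ?_⟩
    intro a ha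
    rw [List.mem_map] at ha
    obtain ⟨b, _, rfl⟩ := ha
    exact ⟨b, rfl⟩

lemma KP.congr {K K' : Set (List ℕ)} (h : EqMod K K') {w w' a b c d : ℕ}
    (hK : KP (· ∈ K) w w' a b c d) : KP (· ∈ K') w w' a b c d := by
  have key : ∀ z ∈ K', z ≠ [] → z ∈ K := by
    intro z hz hne
    have : z ∈ K' \ {[]} := ⟨hz, by simpa using hne⟩
    rw [← h] at this
    exact this.1
  have key' : ∀ z ∈ K, z ≠ [] → z ∈ K' := by
    intro z hz hne
    have : z ∈ K \ {[]} := ⟨hz, by simpa using hne⟩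
    rw [h] at this
    exact this.1
  refine ⟨?_, ?_, ?_, ?_, ?_, ?_, ?_, ?_, ?_⟩
  · exact fun z hz hne => hK.one z (key z hz hne) hne
  · exact fun z hz hne => hK.one' z (key z hz hne) hne
  · intro z hz
    by_cases hne : z = []
    · simp [hne]
    · exact hK.ab z (key z hz hne)
  · intro z hz
    by_cases hne : z = []
    · simp [hne]
    · exact hK.cd z (key z hz hne)
  · intro x y hz hx
    refine hK.p1 x y (key _ hz ?_) hx
    intro h0; simp at h0; simp [h0.1] at hx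
  · intro x y hz hx
    refine hK.p2 x y (key _ hz ?_) hx
    intro h0; simp at h0; simp [h0.2] at hx
  · intro x y hz hx
    refine hK.p3 x y (key _ hz ?_) hx
    intro h0; simp at h0; simp [h0.1] at hx
  · intro x y hz hx
    refine hK.p4 x y (key _ hz ?_) hx
    intro h0; simp at h0; simp [h0.2] at hx
  · intro N
    obtain ⟨z, h1, h2, h3⟩ := hK.big N
    refine ⟨z, key' z h1 ?_, h2, h3⟩
    rintro rfl
    simp at h2

lemma KP.image {K : Set (List ℕ)} {w w' a b c d : ℕ}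
    (hK : KP (· ∈ K) w w' a b c d) :
    KP (fun z : List Sym => ∃ u ∈ K, z = u.map Symbol.terminal) (Symbol.terminal w)
      (Symbol.terminal w') (Symbol.terminal a) (Symbol.terminal b) (Symbol.terminal c)
      (Symbol.terminal d) := by
  have hinj : Function.Injective (Symbol.terminal : ℕ → Sym) := by
    intro x y h
    simpa using h
  have hc : ∀ (u : List ℕ) (x : ℕ), (u.map (Symbol.terminal : ℕ → Sym)).count (Symbol.terminal x) =
      u.count x := fun u x => List.count_map_of_injective u _ hinj x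
  have hm : ∀ (u : List ℕ) (x : ℕ), Symbol.terminal x ∈ u.map (Symbol.terminal : ℕ → Sym) ↔
      x ∈ u := by
    intro u x
    constructor
    · intro h
      rw [List.mem_map] at h
      obtain ⟨y, hy, he⟩ := h
      rw [← hinj he]
      exact hy
    · exact fun h => List.mem_map_of_mem h
  have hs : ∀ (x y : List Sym) (u : List ℕ), x ++ y = u.map Symbol.terminal →
      ∃ x' y', u = x' ++ y' ∧ x = x'.map Symbol.terminal ∧ y = y'.map Symbol.terminal := by
    intro x y u h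
    rw [eq_comm, List.map_eq_append_iff] at h
    obtain ⟨x', y', rfl, h1, h2⟩ := h
    exact ⟨x', y', rfl, h1.symm, h2.symm⟩
  refine ⟨?_, ?_, ?_, ?_, ?_, ?_, ?_, ?_, ?_⟩
  · rintro z ⟨u, hu, rfl⟩ hne
    rw [hc]
    exact hK.one u hu (by rintro rfl; simp at hne)
  · rintro z ⟨u, hu, rfl⟩ hne
    rw [hc]
    exact hK.one' u hu (by rintro rfl; simp at hne)
  · rintro z ⟨u, hu, rfl⟩
    rw [hc, hc]
    exact hK.ab u hu
  · rintro z ⟨u, hu, rfl⟩
    rw [hc, hc]
    exact hK.cd u hu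
  · rintro x y ⟨u, hu, he⟩ hx
    obtain ⟨x', y', rfl, rfl, rfl⟩ := hs x y u he
    rw [hm] at hx ⊢
    exact hK.p1 x' y' hu hx
  · rintro x y ⟨u, hu, he⟩ hx
    obtain ⟨x', y', rfl, rfl, rfl⟩ := hs x y u he
    rw [hm] at hx
    rw [hm, hm, hm]
    exact hK.p2 x' y' hu hx
  · rintro x y ⟨u, hu, he⟩ hx
    obtain ⟨x', y', rfl, rfl, rfl⟩ := hs x y u he
    rw [hm] at hx
    rw [hm, hm]
    exact hK.p3 x' y' hu hx
  · rintro x y ⟨u, hu, he⟩ hx
    obtain ⟨x', y', rfl, rfl, rfl⟩ := hs x y u he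
    rw [hm] at hx ⊢
    exact hK.p4 x' y' hu hx
  · intro N
    obtain ⟨z, h1, h2, h3⟩ := hK.big N
    exact ⟨_, ⟨z, h1, rfl⟩, by rw [hc]; exact h2, by rw [hc]; exact h3⟩

/-- finiteness data of a grammar -/
lemma exists_EC (F : Gr) : ∃ C : EC F.rel isT, C.V = F.V ∧ 1 ≤ C.t0 := by
  have hV : ∀ X y, F.rel X y → ∀ Y ∈ y, Y ∈ F.V := fun X y h => (F.P_mem _ h).2
  obtain ⟨t0, p, hp, hper⟩ := profile_period (R := F.rel) (T := isT) F.V hV
  obtain ⟨D, hD⟩ : ∃ D, ∀ r ∈ F.P, r.2.length ≤ D :=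
    ⟨F.P.sup (fun r => r.2.length), fun r hr => Finset.le_sup (f := fun r => r.2.length) hr⟩
  exact ⟨{ V := F.V, hV := hV, D := D + 1, hD1 := by omega
           hD := fun X y h => (hD _ h).trans (by omega)
           t0 := t0 + 1, p := p, hp := hp
           per := fun t ht X hX => hper t (by omega) X hX }, rfl, by simp⟩

theorem c_main (F : Gr) (hF : F.IsEOL) {K : Set (List ℕ)} (hK : EqMod K F.parLang)
    {w w' a b c d : ℕ} (hKP : KP (· ∈ K) w w' a b c d) (hww : w ≠ w') :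
    ∃ F'' : Gr, F''.IsEOL ∧ SInterp F'' F ∧
      ∀ N, ¬ Pumps N {z | z ∈ F''.parLang ∧ z ≠ []} := by
  classical
  have h1 := (hKP.congr hK).image
  set 𝓛 : List Sym → Prop := fun z => ∃ u ∈ F.parLang, z = u.map Symbol.terminal with h𝓛
  have hT : ∀ z, 𝓛 z ↔ ∃ t, LT F.rel isT t [F.S] z := fun z => (LT_iff_parLang F z).symm
  obtain ⟨C, hCV, ht0⟩ := exists_EC F
  have hS : F.S ∈ C.V := by rw [hCV]; exact F.S_mem
  have hV : ∀ x ∈ ({Symbol.terminal w, Symbol.terminal w', Symbol.terminal b,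
      Symbol.terminal c} : Set Sym), x ∈ C.V := by
    obtain ⟨z, hz, hzb, hzc⟩ := h1.big 0
    have hne : z ≠ [] := by rintro rfl; simp at hzb
    have k1 := h1.one z hz hne
    have k2 := h1.one' z hz hne
    obtain ⟨t, ht⟩ := (hT z).1 hz
    have hcl := DL_closed (V := (C.V : Set Sym)) C.hV (x := [F.S]) (by simpa using hS) ht.1
    intro x hx
    apply hcl
    simp only [Set.mem_insert_iff, Set.mem_singleton_iff] at hx
    rcases hx with rfl | rfl | rfl | rfl <;> apply List.count_pos_iff.1 <;> omega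
  obtain ⟨K, Y, hGood⟩ := h1.good C ht0 hS hT (by simpa using hww) hV
  have hp0 := hGood.wf.hp
  have hnp := no_pump (C := C) (K := K) hT h1 hGood
  have hq0 : Lb.path Kd.com K.com ∈ K.Labs := by
    rw [K.mem_Labs]
    exact Or.inr (Or.inr (Or.inr (Or.inl ⟨_, List.suffix_rfl, rfl⟩)))
  obtain ⟨F'', cd, hE, hSI, hinj, hlang⟩ := lift F hF (K.R2 F.rel) (fun X β h => K.R2_proj h) K.Labs
    K.Labs_finite (K.Labs_closed hp0) (fun X q β h => ⟨_, Ctrl.R2.dead X q β h⟩)
    (Lb.path Kd.com K.com) hq0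
  refine ⟨F'', hE, hSI, ?_⟩
  intro N hP
  apply hnp N
  rintro z ⟨t, hz, hzf⟩ hlen
  -- write `z` with terminal letters
  obtain ⟨zz, rfl⟩ : ∃ zz : List (ℕ × Lb Sym),
      z = zz.map (fun x => ((Symbol.terminal x.1 : Sym), x.2)) := by
    clear hlen hz
    induction z with
    | nil => exact ⟨[], rfl⟩
    | cons X z ih =>
      obtain ⟨zz, rfl⟩ := ih (fun a ha => hzf a (by simp [ha]))
      obtain ⟨⟨x, hx⟩, -⟩ := hzf X (by simp)
      exact ⟨(x, X.2) :: zz, by simp [← hx]⟩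
  have hlab : ∀ x ∈ zz, x.2 ∈ K.Labs := by
    have := DL_closed (V := {X : Sym × Lb Sym | X.2 ∈ K.Labs}) (R := fun X β => K.R2 F.rel X β ∧
      X.2 ∈ K.Labs) (fun X y h => K.Labs_closed hp0 X y h.1 h.2) (t := t)
      (x := [(F.S, Lb.path Kd.com K.com)])
      (z := zz.map (fun x => ((Symbol.terminal x.1 : Sym), x.2))) (by simpa using hq0) ?_
    · intro x hx
      have h2 := this _ (List.mem_map_of_mem hx)
      exact h2
    · -- strengthen the derivation
      have : ∀ (t : ℕ) (x z : List (Sym × Lb Sym)), (∀ X ∈ x, X.2 ∈ K.Labs) →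
          DL (K.R2 F.rel) t x z → DL (fun X β => K.R2 F.rel X β ∧ X.2 ∈ K.Labs) t x z := by
        intro t
        induction t with
        | zero => intro x z _ h; exact h
        | succ t ih =>
          intro x z hx h
          obtain ⟨y, g1, g2⟩ := h
          have g3 : PStep (fun X β => K.R2 F.rel X β ∧ X.2 ∈ K.Labs) x y ∧
              ∀ Y ∈ y, Y.2 ∈ K.Labs := by
            clear g2
            induction x generalizing y with
            | nil =>
              rw [PStep_nil] at g1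
              subst g1
              exact ⟨PStep_nil.2 rfl, by simp⟩
            | cons X x ih2 =>
              rw [PStep_cons] at g1
              obtain ⟨y1, y2, g4, g5, rfl⟩ := g1
              obtain ⟨g6, g7⟩ := ih2 (fun Z hZ => hx Z (by simp [hZ])) y2 g5
              refine ⟨PStep_cons.2 ⟨y1, y2, ⟨g4, hx X (by simp)⟩, g6, rfl⟩, ?_⟩
              intro Y hY
              rw [List.mem_append] at hY
              rcases hY with hY | hY
              · exact K.Labs_closed hp0 X y1 g4 (hx X (by simp)) Y hY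
              · exact g7 Y hY
          exact ⟨y, g3.1, ih y z g3.2 g2⟩
      exact this t _ _ (by simpa using hq0) hz
  have hmemw : zz.map cd ∈ F''.parLang := (hlang _).2 ⟨t, zz, hz, hlab, rfl⟩
  have hlen' : N < (zz.map cd).length := by simpa using hlen
  obtain ⟨u, v, m, x, y, he, hwin, hvx, hpump⟩ := hP (zz.map cd) ⟨hmemw, by
    rintro h0; rw [h0] at hlen'; simp at hlen'⟩ hlen'
  have : Nonempty (ℕ × Lb Sym) := ⟨(0, Lb.dead)⟩
  set dec := Function.invFunOn cd {x : ℕ × Lb Sym | x.2 ∈ K.Labs} with hdec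
  have hleft : ∀ x : ℕ × Lb Sym, x.2 ∈ K.Labs → dec (cd x) = x :=
    fun x hx => hinj.leftInvOn_invFunOn hx
  set Df : ℕ → Sym × Lb Sym := fun n => (Symbol.terminal (dec n).1, (dec n).2) with hDf
  have hD : ∀ z : List (ℕ × Lb Sym), (∀ x ∈ z, x.2 ∈ K.Labs) →
      (z.map cd).map Df = z.map (fun x => ((Symbol.terminal x.1 : Sym), x.2)) := by
    intro z hz
    rw [List.map_map]
    apply List.map_congr_left
    intro x hx
    simp only [Function.comp, hDf]
    rw [hleft x (hz x hx)]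
  refine ⟨u.map Df, v.map Df, m.map Df, x.map Df, y.map Df, ?_, ?_, ?_, ?_⟩
  · rw [← hD zz hlab, he]
    simp
  · simpa using hwin
  · intro h0
    apply hvx
    simpa using h0
  · intro i hi
    have h2 := (hpump i hi).1
    rw [hlang] at h2
    obtain ⟨t', z', h3, h4, h5⟩ := h2
    have h6 := hD z' h4
    rw [← h5] at h6
    have e1 : u.map Df ++ (pw (v.map Df) i ++ (m.map Df ++ (pw (x.map Df) i ++ y.map Df))) =
        (u ++ (pw v i ++ (m ++ (pw x i ++ y)))).map Df := by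
      simp only [List.map_append, pw_map]
    rw [e1]
    refine ⟨t', by rw [h6]; exact h3, ?_⟩
    intro Z hZ
    rw [List.mem_map] at hZ
    obtain ⟨n, hn, rfl⟩ := hZ
    have hn' : n ∈ zz.map cd := by
      rw [he]
      simp only [List.mem_append] at hn ⊢
      rcases hn with hn | hn | hn | hn | hn
      · exact Or.inl hn
      · exact Or.inr (Or.inl (mem_pw hn))
      · exact Or.inr (Or.inr (Or.inl hn))
      · exact Or.inr (Or.inr (Or.inr (Or.inl (mem_pw hn))))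
      · exact Or.inr (Or.inr (Or.inr (Or.inr hn)))
    apply hzf
    rw [← hD zz hlab]
    exact List.mem_map_of_mem hn'

end Pool.Agent.EOLForms
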