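import Pool.Agent.EOLForms.CMain
import Pool.Agent.EOLForms.CFPump

/-! A pattern language in an s-grammatical family excludes complete EOL forms. -/

namespace Pool.Agent.EOLForms

lemma terminal_inj : Function.Injective (Symbol.terminal : ℕ → Sym) := by
  intro x y h
  simpa using h

lemma mem_seqLang (G : Gr) (w : List ℕ) :
    w ∈ G.seqLang ↔ Yl G.rel isT [G.S] (w.map Symbol.terminal) := by
  rw [Yl_iff]
  unfold Gr.seqLang
  rw [Set.mem_ofPred_eq, seq_iff]
  constructor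
  · intro h
    refine ⟨h, ?_⟩
    intro a ha
    rw [List.mem_map] at ha
    obtain ⟨b, _, rfl⟩ := ha
    exact ⟨b, rfl⟩
  · exact fun h => h.1

theorem seqLang_pumps (G : Gr) : ∃ N, Pumps N {z : List ℕ | z ∈ G.seqLang ∧ z ≠ []} := by
  have hV : ∀ X y, G.rel X y → ∀ Y ∈ y, Y ∈ G.V := fun X y h => (G.P_mem _ h).2
  obtain ⟨D, hD⟩ : ∃ D, ∀ r ∈ G.P, r.2.length ≤ D :=
    ⟨G.P.sup (fun r => r.2.length), fun r hr => Finset.le_sup (f := fun r => r.2.length) hr⟩
  have hp := cf_pump (T := isT) G.V hV (D := D + 1) (by omega)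
    (fun X y h => (hD _ h).trans (by omega)) G.S_mem
  refine ⟨(D + 1) ^ (G.V.card + 1), ?_⟩
  · rintro z ⟨hz, hne⟩ hlen
    rw [mem_seqLang] at hz
    obtain ⟨u, v, w, x, y, h1, h2, h3, h4⟩ := hp (z.map Symbol.terminal)
      ⟨hz, by simpa using hne⟩ (by simpa using hlen)
    rw [List.map_eq_append_iff] at h1
    obtain ⟨u', z1, rfl, rfl, h1⟩ := h1
    rw [List.map_eq_append_iff] at h1
    obtain ⟨v', z2, rfl, rfl, h1⟩ := h1
    rw [List.map_eq_append_iff] at h1
    obtain ⟨w', z3, rfl, rfl, h1⟩ := h1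
    rw [List.map_eq_append_iff] at h1
    obtain ⟨x', y', rfl, rfl, rfl⟩ := h1
    refine ⟨u', v', w', x', y', rfl, by simpa using h2, by simpa using h3, ?_⟩
    intro i hi
    have h5 := h4 i hi
    have e : u'.map (Symbol.terminal : ℕ → Sym) ++ (pw (v'.map Symbol.terminal) i ++
        (w'.map Symbol.terminal ++ (pw (x'.map Symbol.terminal) i ++ y'.map Symbol.terminal))) =
        (u' ++ (pw v' i ++ (w' ++ (pw x' i ++ y')))).map Symbol.terminal := by
      simp only [List.map_append, pw_map]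
    rw [e] at h5
    refine ⟨(mem_seqLang G _).2 h5.1, ?_⟩
    intro h0
    apply h5.2
    rw [h0]
    rfl

/-- A language with the four-letter pattern in `sFam G` excludes complete EOL forms. -/
theorem no_complete {F G : Gr} (hF : FamEq (eolFam F) (sFam G)) {K : Set (List ℕ)}
    (hK : K ∈ sFam G) {w w' a b c d : ℕ} (hKP : KP (· ∈ K) w w' a b c d) (hww : w ≠ w') :
    False := by
  obtain ⟨L', ⟨F', hF'E, hF'I, rfl⟩, hL'⟩ := hF.2 K hK
  obtain ⟨F'', hE, hI, hP⟩ := c_main F' hF'E hL' hKP hww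
  obtain ⟨L'', ⟨G'', _, _, rfl⟩, hL''⟩ := hF.1 _ ⟨F'', hE, hI.trans hF'I, rfl⟩
  obtain ⟨N, hN⟩ := seqLang_pumps G''
  apply hP N
  have : {z : List ℕ | z ∈ F''.parLang ∧ z ≠ []} = {z : List ℕ | z ∈ G''.seqLang ∧ z ≠ []} := by
    exact hL''
  rw [this]
  exact hN

end Pool.Agent.EOLForms
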