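import Pool.Agent.EOLForms.Marker

/-! Labelled (controlled) derivations. -/

namespace Pool.Agent.EOLForms

variable {α : Type*}

/-- kinds of controlled paths -/
inductive Kd
  | com
  | br (b : Bool)
  | lp (b : Bool)

/-- labels -/
inductive Lb (α : Type*)
  | free (r : ℕ)
  | dead
  | exit (i : ℕ)
  | path (k : Kd) (l : List (Stp α))

/-- control data -/
structure Ctrl (α : Type*) where
  p : ℕ
  com : List (Stp α)
  cA : List α
  W : α
  cB : List α
  W' : α
  cC : List α
  e : ℕ
  l1 : Bool → List (Stp α)
  lp : Bool → Option (Stp α × List (Stp α))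
  e1 : Bool → ℕ

namespace Ctrl

variable (K : Ctrl α)

/-- label at the end of a branch prefix -/
def endLb (b : Bool) : Lb α :=
  match K.lp b with
  | none => Lb.free (K.e1 b % K.p)
  | some _ => Lb.path (Kd.lp b) []

/-- label of the node from which the path `l` (of kind `k`) starts -/
def pathL : Kd → List (Stp α) → Lb α
  | Kd.br b, [] => K.endLb b
  | k, l => Lb.path k l

/-- remaining time at the end of a path of kind `k` -/
def E : Kd → ℕ
  | Kd.com => K.e + 1
  | Kd.br b => K.e1 b
  | Kd.lp b => K.e1 b

/-- attach the label `free r` -/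
def fr (r : ℕ) (x : List α) : List (α × Lb α) := x.map fun X => (X, Lb.free r)

/-- the labelled production relation -/
inductive R2 (R : α → List α → Prop) : α × Lb α → List (α × Lb α) → Prop
  | dead (X : α) (q : Lb α) (β : List α) (h : R X β) : R2 R (X, q) (β.map fun Y => (Y, Lb.dead))
  | free (X : α) (r : ℕ) (β : List α) (h : R X β) :
      R2 R (X, Lb.free r) (fr ((r + K.p - 1) % K.p) β)
  | exit (X : α) (i : ℕ) (β : List α) (h : R X β) :
      R2 R (X, Lb.exit (i + 1)) (β.map fun Y => (Y, Lb.exit i))
  | path (X : α) (k : Kd) (s : Stp α) (l : List (Stp α)) (h : R X (s.1 ++ s.2.1 :: s.2.2)) :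
      R2 R (X, Lb.path k (s :: l))
        (fr ((l.length + K.E k) % K.p) s.1 ++ (s.2.1, K.pathL k l) ::
          fr ((l.length + K.E k) % K.p) s.2.2)
  | split (X : α) (h : R X (K.cA ++ K.W :: (K.cB ++ K.W' :: K.cC))) :
      R2 R (X, Lb.path Kd.com [])
        (fr (K.e % K.p) K.cA ++ (K.W, K.pathL (Kd.br true) (K.l1 true)) ::
          (fr (K.e % K.p) K.cB ++ (K.W', K.pathL (Kd.br false) (K.l1 false)) ::
            fr (K.e % K.p) K.cC))
  | loop (X : α) (b : Bool) (s : Stp α) (l : List (Stp α)) (hlp : K.lp b = some (s, l))
      (h : R X (s.1 ++ s.2.1 :: s.2.2)) :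
      R2 R (X, Lb.path (Kd.lp b) [])
        (fr ((l.length + K.e1 b) % K.p) s.1 ++ (s.2.1, Lb.path (Kd.lp b) l) ::
          fr ((l.length + K.e1 b) % K.p) s.2.2)
  | lexit (X : α) (b : Bool) (β : List α) (h : R X β) :
      R2 R (X, Lb.path (Kd.lp b) []) (β.map fun Y => (Y, Lb.exit (K.e1 b - 1)))

/-- final letters -/
def fin (T : α → Prop) (a : α × Lb α) : Prop := T a.1 ∧ (a.2 = Lb.free 0 ∨ a.2 = Lb.exit 0)

variable {R : α → List α → Prop} {T : α → Prop}

lemma R2_proj {X : α × Lb α} {β : List (α × Lb α)} (h : K.R2 R X β) :
    R X.1 (β.map Prod.fst) := by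
  have hm : ∀ (q : Lb α) (β : List α), (β.map fun Y => (Y, q)).map Prod.fst = β := by
    intro q β; simp [Function.comp_def]
  have hf : ∀ (r : ℕ) (β : List α), (fr r β).map Prod.fst = β := by
    intro r β; simp [fr, Function.comp_def]
  cases h with
  | dead X q β h => rw [hm]; exact h
  | free X r β h => rw [hf]; exact h
  | exit X i β h => rw [hm]; exact h
  | path X k s l h => simpa [hf] using h
  | split X h => simpa [hf] using h
  | loop X b s l hlp h => simpa [hf] using h
  | lexit X b β h => rw [hm]; exact h

lemma LT_proj {t : ℕ} {x z : List (α × Lb α)} (h : LT (K.R2 R) (fin T) t x z) :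
    LT R T t (x.map Prod.fst) (z.map Prod.fst) := by
  refine ⟨DL_map (fun X y hy => K.R2_proj hy) h.1, ?_⟩
  intro a ha
  rw [List.mem_map] at ha
  obtain ⟨b, hb, rfl⟩ := ha
  exact (h.2 b hb).1

/-- dead letters never become final -/
lemma dead_nil {t : ℕ} {x : List α} {z : List (α × Lb α)}
    (h : LT (K.R2 R) (fin T) t (x.map fun Y => (Y, Lb.dead)) z) : z = [] := by
  induction t generalizing x with
  | zero =>
    obtain ⟨h1, h2⟩ := h
    simp only [DL] at h1
    subst h1
    rcases x with _ | ⟨X, x⟩
    · rfl
    · have := (h2 (X, Lb.dead) (by simp)).2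
      rcases this with h | h <;> simp at h
  | succ t ih =>
    obtain ⟨⟨y, h1, h2⟩, h3⟩ := h
    have : ∃ y' : List α, y = y'.map fun Y => (Y, Lb.dead) := by
      clear h2 ih
      induction x generalizing y with
      | nil => rw [List.map_nil, PStep_nil] at h1; exact ⟨[], by simp [h1]⟩
      | cons X x ih2 =>
        rw [List.map_cons, PStep_cons] at h1
        obtain ⟨y1, y2, h4, h5, rfl⟩ := h1
        obtain ⟨y3, rfl⟩ := ih2 _ h5
        cases h4 with
        | dead _ _ β h => exact ⟨β ++ y3, by simp⟩
    obtain ⟨y', rfl⟩ := this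
    exact ih ⟨h2, h3⟩

/-- residue attached to a label -/
def res : Lb α → ℕ
  | Lb.free r => r % K.p
  | Lb.dead => 0
  | Lb.exit i => i % K.p
  | Lb.path k l => (l.length + K.E k) % K.p

lemma res_pathL (k : Kd) (l : List (Stp α)) :
    K.res (K.pathL k l) = (l.length + K.E k) % K.p := by
  unfold pathL
  split
  · next b =>
    unfold endLb
    split
    · simp [res, E]
    · simp [res, E]
  · simp [res]

/-- well-formed control data -/
structure WF : Prop where
  hp : 0 < K.p
  he1 : ∀ b, 1 ≤ K.e1 b
  hl1 : ∀ b, ((K.l1 b).length + K.e1 b) % K.p = K.e % K.p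
  hlp : ∀ b s l, K.lp b = some (s, l) → K.p ∣ (l.length + 1)

lemma LT_single_of_ne {R' : α × Lb α → List (α × Lb α) → Prop} {T' : α × Lb α → Prop} {t : ℕ}
    {x z : List (α × Lb α)} (h : LT R' T' t x z) (hz : z ≠ []) :
    ∃ X ∈ x, ∃ y, LT R' T' t [X] y ∧ y ≠ [] := by
  induction x generalizing z with
  | nil => rw [LT_nil] at h; exact absurd h hz
  | cons X x ih =>
    rw [LT_cons] at h
    obtain ⟨z1, z2, h1, h2, rfl⟩ := h
    by_cases hz1 : z1 = []
    · subst hz1
      obtain ⟨Y, hY, y, h3, h4⟩ := ih h2 (by simpa using hz)
      exact ⟨Y, by simp [hY], y, h3, h4⟩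
    · exact ⟨X, by simp, z1, h1, hz1⟩

/-- The label determines the remaining time modulo `p`. -/
lemma res_spec (hK : K.WF) {t : ℕ} : ∀ {X : α} {q : Lb α} {z : List (α × Lb α)},
    LT (K.R2 R) (fin T) t [(X, q)] z → z ≠ [] → t % K.p = K.res q := by
  induction t with
  | zero =>
    intro X q z h hz
    obtain ⟨h1, h2⟩ := h
    simp only [DL] at h1
    subst h1
    have := (h2 (X, q) (by simp)).2
    rcases this with h | h
    · simp at h; subst h; simp [res]
    · simp at h; subst h; simp [res]
  | succ t ih =>
    intro X q z h hz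
    rw [LT_single_succ] at h
    obtain ⟨y, hR, hy⟩ := h
    obtain ⟨⟨Y, q'⟩, hY, y', h3, h4⟩ := LT_single_of_ne hy hz
    have hres := ih h3 h4
    have hp := hK.hp
    have key : ∀ r, t % K.p = r % K.p → (t + 1) % K.p = (r + 1) % K.p := by
      intro r hr
      exact Nat.ModEq.add_right 1 hr
    cases hR with
    | dead _ _ β h =>
      exfalso
      rw [List.mem_map] at hY
      obtain ⟨a, _, ha⟩ := hY
      cases ha
      have : [(Y, Lb.dead)] = [Y].map (fun Y => ((Y, Lb.dead) : α × Lb α)) := rfl
      rw [this] at h3
      exact h4 (K.dead_nil h3)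
    | free _ r β h =>
      simp only [fr, List.mem_map] at hY
      obtain ⟨a, _, ha⟩ := hY
      cases ha
      simp only [res] at hres ⊢
      rw [Nat.mod_mod] at hres
      have h5 := key _ hres
      rw [h5]
      have : r + K.p - 1 + 1 = r + K.p := by omega
      rw [this, Nat.add_mod_right]
    | exit _ i β h =>
      rw [List.mem_map] at hY
      obtain ⟨a, _, ha⟩ := hY
      cases ha
      simp only [res] at hres ⊢
      exact key _ hres
    | path _ k s l h =>
      have : K.res q' = (l.length + K.E k) % K.p := by
        simp only [List.mem_append, List.mem_cons] at hY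
        rcases hY with hY | hY | hY
        · simp only [fr, List.mem_map] at hY
          obtain ⟨a, _, ha⟩ := hY
          cases ha
          simp [res]
        · cases hY
          exact K.res_pathL k l
        · simp only [fr, List.mem_map] at hY
          obtain ⟨a, _, ha⟩ := hY
          cases ha
          simp [res]
      rw [this] at hres
      simp only [res, List.length_cons]
      have h5 := key _ hres
      rw [h5]
      congr 1
      ring
    | split _ h =>
      have : K.res q' = K.e % K.p := by
        simp only [List.mem_append, List.mem_cons] at hY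
        rcases hY with hY | hY | hY | hY | hY
        · simp only [fr, List.mem_map] at hY
          obtain ⟨a, _, ha⟩ := hY
          cases ha
          simp [res]
        · cases hY
          rw [K.res_pathL]
          exact hK.hl1 true
        · simp only [fr, List.mem_map] at hY
          obtain ⟨a, _, ha⟩ := hY
          cases ha
          simp [res]
        · cases hY
          rw [K.res_pathL]
          exact hK.hl1 false
        · simp only [fr, List.mem_map] at hY
          obtain ⟨a, _, ha⟩ := hY
          cases ha
          simp [res]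
      rw [this] at hres
      simp only [res, List.length_nil, E]
      have h5 := key _ hres
      rw [h5, Nat.zero_add]
    | loop _ b s l hlp h =>
      have : K.res q' = (l.length + K.e1 b) % K.p := by
        simp only [List.mem_append, List.mem_cons] at hY
        rcases hY with hY | hY | hY
        · simp only [fr, List.mem_map] at hY
          obtain ⟨a, _, ha⟩ := hY
          cases ha
          simp [res]
        · cases hY
          simp [res, E]
        · simp only [fr, List.mem_map] at hY
          obtain ⟨a, _, ha⟩ := hY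
          cases ha
          simp [res]
      rw [this] at hres
      simp only [res, List.length_nil, E]
      have h5 := key _ hres
      rw [h5, Nat.zero_add]
      obtain ⟨c, hc⟩ := hK.hlp b s l hlp
      have e1 : l.length + K.e1 b + 1 = K.e1 b + K.p * c := by omega
      rw [e1, Nat.add_mul_mod_self_left]
    | lexit _ b β h =>
      rw [List.mem_map] at hY
      obtain ⟨a, _, ha⟩ := hY
      cases ha
      simp only [res, List.length_nil, E] at hres ⊢
      have h5 := key _ hres
      have := hK.he1 b
      rw [h5, Nat.zero_add]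
      congr 1
      omega

/-- exit labels count the remaining time -/
lemma exit_spec {t : ℕ} : ∀ {X : α} {i : ℕ} {z : List (α × Lb α)},
    LT (K.R2 R) (fin T) t [(X, Lb.exit i)] z → z ≠ [] → t = i := by
  induction t with
  | zero =>
    intro X i z h hz
    obtain ⟨h1, h2⟩ := h
    simp only [DL] at h1
    subst h1
    have := (h2 (X, Lb.exit i) (by simp)).2
    rcases this with h | h
    · simp at h
    · simp at h; omega
  | succ t ih =>
    intro X i z h hz
    rw [LT_single_succ] at h
    obtain ⟨y, hR, hy⟩ := h
    obtain ⟨⟨Y, q'⟩, hY, y', h3, h4⟩ := LT_single_of_ne hy hz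
    cases hR with
    | dead _ _ β h =>
      exfalso
      rw [List.mem_map] at hY
      obtain ⟨a, _, ha⟩ := hY
      cases ha
      have : [(Y, Lb.dead)] = [Y].map (fun Y => ((Y, Lb.dead) : α × Lb α)) := rfl
      rw [this] at h3
      exact h4 (K.dead_nil h3)
    | exit _ i β h =>
      rw [List.mem_map] at hY
      obtain ⟨a, _, ha⟩ := hY
      cases ha
      have := ih h3 h4
      omega

end Ctrl

end Pool.Agent.EOLForms
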