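import Mathlib

/-!
Context-free grammar forms and EOL forms under strict interpretations.
-/

namespace Pool.Agent.EOLForms

/-- Symbols: terminals and nonterminals, both named by natural numbers. -/
abbrev Sym := Symbol ℕ ℕ

/-- A rewriting system `(V, Σ, P, S)`: `V` is the finite total alphabet (its terminals are the
symbols of the form `Symbol.terminal a`), `P` is the finite set of productions over `V`, and
`S ∈ V` is the start symbol. -/
structure Gr where
  V : Finset Sym
  P : Finset (Sym × List Sym)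
  S : Sym
  S_mem : S ∈ V
  P_mem : ∀ r ∈ P, r.1 ∈ V ∧ ∀ X ∈ r.2, X ∈ V

/-- `G` is a context-free grammar: the start symbol and all left-hand sides are nonterminals. -/
def Gr.IsCF (G : Gr) : Prop :=
  (∃ A, G.S = Symbol.nonterminal A) ∧ ∀ r ∈ G.P, ∃ A, r.1 = Symbol.nonterminal A

/-- `G` is a linear context-free grammar: every right-hand side contains at most one
nonterminal. -/
def Gr.IsLinear (G : Gr) : Prop :=
  G.IsCF ∧ ∀ r ∈ G.P, (∃ u : List ℕ, r.2 = u.map Symbol.terminal) ∨
    ∃ (u v : List ℕ) (B : ℕ),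
      r.2 = u.map Symbol.terminal ++ Symbol.nonterminal B :: v.map Symbol.terminal

/-- `F` is an EOL grammar: every symbol of `V`, terminals included, has a production. -/
def Gr.IsEOL (F : Gr) : Prop := ∀ X ∈ F.V, ∃ α, (X, α) ∈ F.P

/-- One sequential derivation step: one occurrence of a symbol is rewritten. -/
def Gr.SeqStep (G : Gr) (x y : List Sym) : Prop :=
  ∃ (u v : List Sym) (X : Sym) (α : List Sym), (X, α) ∈ G.P ∧ x = u ++ [X] ++ v ∧ y = u ++ α ++ v

/-- One parallel derivation step: every symbol occurrence is rewritten. -/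
def Gr.ParStep (G : Gr) (x y : List Sym) : Prop :=
  ∃ L : List (List Sym), List.Forall₂ (fun X α => (X, α) ∈ G.P) x L ∧ y = L.flatten

/-- The language of `G` as a (sequential) context-free grammar. -/
def Gr.seqLang (G : Gr) : Set (List ℕ) :=
  {w | Relation.ReflTransGen G.SeqStep [G.S] (w.map Symbol.terminal)}

/-- The language of `F` as an EOL grammar (parallel derivations). -/
def Gr.parLang (F : Gr) : Set (List ℕ) :=
  {w | Relation.ReflTransGen F.ParStep [F.S] (w.map Symbol.terminal)}

/-- `G₁` is an s-interpretation of `G₂`. -/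
def SInterp (G₁ G₂ : Gr) : Prop :=
  ∃ μ : Sym → Finset Sym,
    (∀ a, Symbol.terminal a ∈ G₂.V →
      ∀ Y ∈ μ (Symbol.terminal a), Y ∈ G₁.V ∧ ∃ b, Y = Symbol.terminal b) ∧
    (∀ A, Symbol.nonterminal A ∈ G₂.V →
      ∀ Y ∈ μ (Symbol.nonterminal A), Y ∈ G₁.V ∧ ∃ B, Y = Symbol.nonterminal B) ∧
    (∀ X ∈ G₂.V, ∀ Y ∈ G₂.V, X ≠ Y → Disjoint (μ X) (μ Y)) ∧
    (∀ r ∈ G₁.P, ∃ r' ∈ G₂.P, r.1 ∈ μ r'.1 ∧ List.Forall₂ (fun X Y => X ∈ μ Y) r.2 r'.2) ∧
    G₁.S ∈ μ G₂.S

/-- The s-grammatical family of the grammar form `G`. -/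
def sFam (G : Gr) : Set (Set (List ℕ)) :=
  {L | ∃ G' : Gr, G'.IsCF ∧ SInterp G' G ∧ L = G'.seqLang}

/-- The family of the EOL form `F`. -/
def eolFam (F : Gr) : Set (Set (List ℕ)) :=
  {L | ∃ F' : Gr, F'.IsEOL ∧ SInterp F' F ∧ L = F'.parLang}

/-- The family of linear context-free languages. -/
def linFam : Set (Set (List ℕ)) := {L | ∃ G : Gr, G.IsLinear ∧ L = G.seqLang}

/-- Two languages are identified if they differ at most by the empty word. -/
def EqMod (L L' : Set (List ℕ)) : Prop := L \ {[]} = L' \ {[]}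

/-- Containment of families, modulo the empty word. -/
def FamSub (A B : Set (Set (List ℕ))) : Prop := ∀ L ∈ A, ∃ L' ∈ B, EqMod L L'

/-- Equality of families, modulo the empty word. -/
def FamEq (A B : Set (Set (List ℕ))) : Prop := FamSub A B ∧ FamSub B A

end Pool.Agent.EOLForms
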