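import Pool.Agent.EOLForms.Bound

/-! Existence of long controlled derivations. -/

namespace Pool.Agent.EOLForms

variable {α : Type*} {R : α → List α → Prop} {T : α → Prop} {𝓛 : List α → Prop}

namespace Ctrl

variable (K : Ctrl α)

lemma PStep_lab {q q' : Lb α} (hstep : ∀ X β, R X β → K.R2 R (X, q) (β.map fun Y => (Y, q')))
    {x y : List α} (h : PStep R x y) :
    PStep (K.R2 R) (x.map fun Y => (Y, q)) (y.map fun Y => (Y, q')) := by
  induction x generalizing y with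
  | nil =>
    rw [PStep_nil] at h
    subst h
    exact PStep_nil.2 rfl
  | cons X x ih =>
    rw [PStep_cons] at h
    obtain ⟨y1, y2, h1, h2, rfl⟩ := h
    rw [List.map_cons, PStep_cons]
    exact ⟨_, _, hstep X y1 h1, ih h2, by simp⟩

lemma ex_free (hp : 0 < K.p) {t : ℕ} {x z : List α} (h : LT R T t x z) :
    LT (K.R2 R) (fin T) t (fr (t % K.p) x) (fr 0 z) := by
  refine ⟨?_, ?_⟩
  · obtain ⟨h, -⟩ := h
    induction t generalizing x with
    | zero =>
      simp only [DL] at h ⊢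
      rw [h, Nat.zero_mod]
    | succ t ih =>
      obtain ⟨y, h1, h2⟩ := h
      refine ⟨fr (t % K.p) y, ?_, ih h2⟩
      refine K.PStep_lab (q := Lb.free ((t + 1) % K.p)) (q' := Lb.free (t % K.p)) ?_ h1
      intro X β hR
      have h3 := R2.free (K := K) X ((t + 1) % K.p) β hR
      have h4 : ((t + 1) % K.p + K.p - 1) % K.p = t % K.p := by
        have e1 : (t + 1) % K.p + K.p - 1 + 1 = (t + 1) % K.p + K.p := by omega
        have h5 : ((t + 1) % K.p + K.p - 1) + 1 ≡ t + 1 [MOD K.p] := by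
          rw [e1]
          show ((t + 1) % K.p + K.p) % K.p = (t + 1) % K.p
          rw [Nat.add_mod_right, Nat.mod_mod]
        exact Nat.ModEq.add_right_cancel' _ h5
      rw [h4] at h3
      exact h3
  · intro a ha
    simp only [fr, List.mem_map] at ha
    obtain ⟨b, hb, rfl⟩ := ha
    exact ⟨h.2 b hb, Or.inl rfl⟩

lemma ex_exit {t : ℕ} {x z : List α} (h : LT R T t x z) :
    LT (K.R2 R) (fin T) t (x.map fun Y => (Y, Lb.exit t)) (z.map fun Y => (Y, Lb.exit 0)) := by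
  refine ⟨?_, ?_⟩
  · obtain ⟨h, -⟩ := h
    induction t generalizing x with
    | zero =>
      simp only [DL] at h ⊢
      rw [h]
    | succ t ih =>
      obtain ⟨y, h1, h2⟩ := h
      exact ⟨_, K.PStep_lab (fun X β hR => R2.exit X t β hR) h1, ih h2⟩
  · intro a ha
    simp only [List.mem_map] at ha
    obtain ⟨b, hb, rfl⟩ := ha
    exact ⟨h.2 b hb, Or.inr rfl⟩

lemma ex_path (hp : 0 < K.p) {k : Kd} {t' : ℕ} {Z : α} (hmod : t' % K.p = K.E k % K.p)
    {w : List (α × Lb α)} (hw : LT (K.R2 R) (fin T) t' [(Z, K.pathL k [])] w) :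
    ∀ (l : List (Stp α)) (X : α), IsPath R T t' X l Z →
      ∃ u1 u2, LT (K.R2 R) (fin T) (t' + l.length) [(X, K.pathL k l)] (u1 ++ (w ++ u2)) := by
  intro l
  induction l with
  | nil =>
    intro X h
    simp only [IsPath] at h
    subst h
    exact ⟨[], [], by simpa using hw⟩
  | cons s l ih =>
    intro X h
    obtain ⟨g1, g2, g3⟩ := h
    obtain ⟨u1, u2, h3⟩ := ih _ g3
    obtain ⟨y1, hy1⟩ := NE_word.2 (fun W (hW : W ∈ s.1) => g2 W (by simp [hW]))
    obtain ⟨y2, hy2⟩ := NE_word.2 (fun W (hW : W ∈ s.2.2) => g2 W (by simp [hW]))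
    have hl : (t' + l.length) % K.p = (l.length + K.E k) % K.p := by
      rw [Nat.add_comm l.length]
      exact Nat.ModEq.add_right _ hmod
    have f1 := K.ex_free hp hy1
    have f2 := K.ex_free hp hy2
    rw [hl] at f1 f2
    refine ⟨fr 0 y1 ++ u1, u2 ++ fr 0 y2, ?_⟩
    have e : t' + (s :: l).length = t' + l.length + 1 := by simp; ring
    rw [e, pathL_cons, LT_single_succ]
    exact ⟨_, R2.path X k s l g1, LT_mid.2 ⟨_, _, _, f1, h3, f2, by simp⟩⟩

variable (C : EC R T)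

lemma ex_loop {m : α} (hKp : K.p = C.p) (hWF : K.WF) {b : Bool} {s : Stp α} {l : List (Stp α)}
    (hlp : K.lp b = some (s, l)) (he : C.t0 ≤ K.e1 b) {Z : α}
    (hpath : IsPath R T (K.e1 b) Z (s :: l) Z)
    (hm : Has R T m (K.e1 b) Z) (n : ℕ) :
    ∃ w, w ≠ [] ∧
      LT (K.R2 R) (fin T) (K.e1 b + n * (l.length + 1)) [(Z, Lb.path (Kd.lp b) [])] w := by
  have hp0 := hWF.hp
  induction n with
  | zero =>
    obtain ⟨z, hz, hmz⟩ := hm
    have he1 := hWF.he1 b
    obtain ⟨t, ht⟩ : ∃ t, K.e1 b = t + 1 := ⟨K.e1 b - 1, by omega⟩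
    rw [ht, LT_single_succ] at hz
    obtain ⟨β, hR, hβ⟩ := hz
    refine ⟨z.map fun Y => (Y, Lb.exit 0), ?_, ?_⟩
    · intro h0
      simp at h0
      subst h0
      simp at hmz
    · have e1 : K.e1 b + 0 * (l.length + 1) = t + 1 := by omega
      rw [e1, LT_single_succ]
      have h2 := R2.lexit (K := K) Z b β hR
      have e2 : K.e1 b - 1 = t := by omega
      rw [e2] at h2
      exact ⟨_, h2, K.ex_exit hβ⟩
  | succ n ih =>
    obtain ⟨w, hw, hwL⟩ := ih
    set t' := K.e1 b + n * (l.length + 1) with ht'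
    have hmod : t' % K.p = K.e1 b % K.p := by
      obtain ⟨c, hc⟩ := hWF.hlp b s l hlp
      rw [ht', hc]
      have : K.e1 b + n * (K.p * c) = K.e1 b + K.p * (n * c) := by ring
      rw [this, Nat.add_mul_mod_self_left]
    have hpath' : IsPath R T t' Z (s :: l) Z :=
      C.path_shift he (by omega) (by rw [← hKp]; exact hmod.symm) hpath
    obtain ⟨g1, g2, g3⟩ := hpath'
    obtain ⟨u1, u2, h3⟩ := K.ex_path hp0 (k := Kd.lp b) (t' := t') hmod
      (by exact hwL) l s.2.1 g3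
    obtain ⟨y1, hy1⟩ := NE_word.2 (fun W (hW : W ∈ s.1) => g2 W (by simp [hW]))
    obtain ⟨y2, hy2⟩ := NE_word.2 (fun W (hW : W ∈ s.2.2) => g2 W (by simp [hW]))
    have hl : (t' + l.length) % K.p = (l.length + K.e1 b) % K.p := by
      rw [Nat.add_comm l.length]
      exact Nat.ModEq.add_right _ hmod
    have f1 := K.ex_free hp0 hy1
    have f2 := K.ex_free hp0 hy2
    rw [hl] at f1 f2
    refine ⟨fr 0 y1 ++ ((u1 ++ (w ++ u2)) ++ fr 0 y2), ?_, ?_⟩
    · intro h0
      apply hw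
      simp only [List.append_eq_nil_iff] at h0
      tauto
    · have e : K.e1 b + (n + 1) * (l.length + 1) = t' + l.length + 1 := by rw [ht']; ring
      rw [e, LT_single_succ]
      refine ⟨_, R2.loop Z b s l hlp g1, LT_mid.2 ⟨_, _, _, f1, ?_, f2, rfl⟩⟩
      exact h3

lemma ex_branch [DecidableEq α] {m σ : α} (hmV : m ∈ C.V) (hKp : K.p = C.p) (hWF : K.WF)
    (he : C.t0 ≤ K.e) {b : Bool} {X : α} (hX : X ∈ C.V) {sib : List α}
    (hb : BrOK C K m σ b X sib) :
    ∃ M, 0 < M ∧ C.p ∣ M ∧ ∀ j : ℕ, ∃ w, w ≠ [] ∧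
      LT (K.R2 R) (fin T) (K.e + j * M) [(X, K.pathL (Kd.br b) (K.l1 b))] w := by
  have hp0 := hWF.hp
  cases hb with
  | F h1 h2 h3 h4 h5 =>
    refine ⟨C.p, C.hp, dvd_rfl, ?_⟩
    intro j
    have hmod : (K.e + j * C.p) % C.p = K.e % C.p := by simp
    obtain ⟨z, hz, hmz⟩ := C.has_mod (t' := K.e + j * C.p) he (by omega) hmod.symm hX hmV h4
    have := K.ex_free hp0 hz
    refine ⟨fr 0 z, ?_, ?_⟩
    · intro h0
      simp [fr] at h0
      subst h0
      simp at hmz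
    · have e1 : K.pathL (Kd.br b) (K.l1 b) = Lb.free ((K.e + j * C.p) % K.p) := by
        rw [h1]
        simp only [pathL, endLb, h2, h3]
        rw [hKp, hmod]
      rw [e1]
      simpa [fr] using this
  | R l s h1 h2 h3 h4 h5 h6 h7 =>
    refine ⟨C.p, C.hp, dvd_rfl, ?_⟩
    intro j
    have hs : s.2.1 ∈ C.V := C.path_end_mem hX h4
    have hmod : (K.e1 b + j * C.p) % C.p = K.e1 b % C.p := by simp
    obtain ⟨z, hz, hmz⟩ := C.has_mod (t' := K.e1 b + j * C.p) h3 (by omega) hmod.symm hs hmV h5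
    have hfree := K.ex_free hp0 hz
    have e1 : K.pathL (Kd.br b) [] = Lb.free ((K.e1 b + j * C.p) % K.p) := by
      simp only [pathL, endLb, h2]
      rw [hKp, hmod]
    have hw : LT (K.R2 R) (fin T) (K.e1 b + j * C.p) [(s.2.1, K.pathL (Kd.br b) [])]
        (fr 0 z) := by
      rw [e1]
      simpa [fr] using hfree
    obtain ⟨u1, u2, h8⟩ := K.ex_path hp0 (k := Kd.br b) (t' := K.e1 b + j * C.p)
      (by rw [hKp]; exact hmod) hw (l ++ [s]) X
      (C.path_shift h3 (by omega) hmod.symm h4)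
    refine ⟨u1 ++ (fr 0 z ++ u2), ?_, ?_⟩
    · intro h0
      simp [fr] at h0
      rw [h0.2.1] at hmz
      simp at hmz
    · rw [h1]
      have e2 : K.e + j * C.p = K.e1 b + j * C.p + (l ++ [s]).length := by
        rw [h7]; simp; ring
      rw [e2]
      exact h8
  | L s l2 Z h1 h2 h3 h4 h5 h6 h7 h8 =>
    refine ⟨l2.length + 1, by omega, h3, ?_⟩
    intro j
    obtain ⟨w, hw, hwL⟩ := K.ex_loop C hKp hWF h1 h2 h5 h7 (j + 1)
    have e4 : K.pathL (Kd.br b) [] = Lb.path (Kd.lp b) [] := by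
      unfold pathL endLb
      simp [h1]
    rw [← e4] at hwL
    have hmod : (K.e1 b + (j + 1) * (l2.length + 1)) % C.p = K.e1 b % C.p := by
      obtain ⟨c, hc⟩ := h3
      rw [hc]
      have : K.e1 b + (j + 1) * (C.p * c) = K.e1 b + C.p * ((j + 1) * c) := by ring
      rw [this, Nat.add_mul_mod_self_left]
    have hmod' : (K.e1 b + (l2.length + 1)) % C.p = K.e1 b % C.p := by
      obtain ⟨c, hc⟩ := h3
      rw [hc, Nat.add_mul_mod_self_left]
    obtain ⟨u1, u2, h9⟩ := K.ex_path hp0 (k := Kd.br b)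
      (t' := K.e1 b + (j + 1) * (l2.length + 1)) (by rw [hKp]; exact hmod) hwL (K.l1 b) X
      (C.path_shift (t := K.e1 b + (l2.length + 1)) (by omega) (by omega)
        (hmod'.trans hmod.symm) h4)
    refine ⟨u1 ++ (w ++ u2), ?_, ?_⟩
    · intro h0
      apply hw
      simp only [List.append_eq_nil_iff] at h0
      tauto
    · have e2 : K.e + j * (l2.length + 1) =
          K.e1 b + (j + 1) * (l2.length + 1) + (K.l1 b).length := by
        rw [h8]; ring
      rw [e2]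
      exact h9

end Ctrl

theorem Good.exist [DecidableEq α] {C : EC R T} {K : Ctrl α} {S Y : α} {m σ : Bool → α}
    (h : Good C K 𝓛 S Y m σ) (N : ℕ) :
    ∃ t z, N ≤ t ∧ z ≠ [] ∧ LT (K.R2 R) (Ctrl.fin T) t [(S, Lb.path Kd.com K.com)] z := by
  have hp0 := h.wf.hp
  have hchild : ∀ Z ∈ K.cA ++ K.W :: (K.cB ++ K.W' :: K.cC), Z ∈ C.V := C.hV _ _ h.hY
  obtain ⟨M1, hM1, hd1, h1⟩ := K.ex_branch C (h.hm true) h.hp h.wf h.he (hchild _ (by simp)) h.brT
  obtain ⟨M2, hM2, hd2, h2⟩ := K.ex_branch C (h.hm false) h.hp h.wf h.he (hchild _ (by simp)) h.brF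
  obtain ⟨w1, hw1, k1⟩ := h1 (N * M2)
  obtain ⟨w2, hw2, k2⟩ := h2 (N * M1)
  set t' := K.e + N * M2 * M1 with ht'
  have e1 : K.e + N * M1 * M2 = t' := by rw [ht']; ring
  rw [e1] at k2
  have hmod : t' % C.p = K.e % C.p := by
    obtain ⟨c, hc⟩ := hd1
    rw [ht', hc]
    have : K.e + N * M2 * (C.p * c) = K.e + C.p * (N * M2 * c) := by ring
    rw [this, Nat.add_mul_mod_self_left]
  have hge : K.e ≤ t' := by omega
  have hNE : ∀ Z ∈ K.cA ++ (K.cB ++ K.cC), NE R T t' Z := by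
    intro Z hZ
    refine C.ne_mod h.he (by have := h.he; omega) hmod.symm ?_ (h.hNE Z hZ)
    apply hchild
    simp only [List.mem_append, List.mem_cons] at hZ ⊢
    tauto
  obtain ⟨yA, hA⟩ := NE_word.2 (fun W (hW : W ∈ K.cA) => hNE W (by simp [hW]))
  obtain ⟨yB, hB⟩ := NE_word.2 (fun W (hW : W ∈ K.cB) => hNE W (by simp [hW]))
  obtain ⟨yC, hC⟩ := NE_word.2 (fun W (hW : W ∈ K.cC) => hNE W (by simp [hW]))
  have fA := K.ex_free hp0 hA
  have fB := K.ex_free hp0 hB
  have fC := K.ex_free hp0 hC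
  have hmod' : t' % K.p = K.e % K.p := by rw [h.hp]; exact hmod
  rw [hmod'] at fA fB fC
  have hY : LT (K.R2 R) (Ctrl.fin T) (t' + 1) [(Y, Lb.path Kd.com [])]
      (Ctrl.fr 0 yA ++ (w1 ++ (Ctrl.fr 0 yB ++ (w2 ++ Ctrl.fr 0 yC)))) := by
    rw [LT_single_succ]
    exact ⟨_, Ctrl.R2.split Y h.hY, LT_mid.2 ⟨_, _, _, fA, k1,
      LT_mid.2 ⟨_, _, _, fB, k2, fC, rfl⟩, rfl⟩⟩
  obtain ⟨u1, u2, h8⟩ := K.ex_path hp0 (k := Kd.com) (t' := t' + 1)
    (by simp only [Ctrl.E]; exact Nat.ModEq.add_right 1 hmod') hY K.com S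
    (C.path_shift (t := K.e + 1) (by have := h.he; omega) (by have := h.he; omega)
      (C.mod_add hmod.symm 1) h.hcom)
  refine ⟨t' + 1 + K.com.length, _, ?_, ?_, h8⟩
  · have : N ≤ N * M2 * M1 := by
      rw [Nat.mul_assoc]
      exact Nat.le_mul_of_pos_right _ (Nat.mul_pos hM2 hM1)
    omega
  · intro h0
    apply hw1
    simp only [List.append_eq_nil_iff] at h0
    tauto

end Pool.Agent.EOLForms
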