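import Pool.Agent.EOLForms.LiftCF

/-! Hard-wired derivations. -/

namespace Pool.Agent.EOLForms

variable {α : Type*} {R : α → List α → Prop} {T : α → Prop}

/-- derivation forests with labelled leaves -/
inductive Fo (α : Type*)
  | nil
  | keep (X : α) (q : ℕ) (f : Fo α)
  | expand (A : α) (g f : Fo α)

/-- labels: leaf labels and forests to be generated -/
inductive Glb (α : Type*)
  | leaf (q : ℕ)
  | tree (g : Fo α)

namespace Fo

/-- labelled roots -/
def roots : Fo α → List (α × Glb α)
  | nil => []
  | keep X q f => (X, Glb.leaf q) :: roots f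
  | expand A g f => (A, Glb.tree g) :: roots f

/-- labelled frontier -/
def front : Fo α → List (α × ℕ)
  | nil => []
  | keep X q f => (X, q) :: front f
  | expand _ g f => front g ++ front f

/-- leaf labelling -/
def lf (z : List (α × ℕ)) : List (α × Glb α) := z.map fun x => (x.1, Glb.leaf x.2)

/-- validity -/
def Valid (R : α → List α → Prop) : Fo α → Prop
  | nil => True
  | keep _ _ f => Valid R f
  | expand A g f => R A (g.roots.map Prod.fst) ∧ Valid R g ∧ Valid R f

/-- concatenation -/
def app : Fo α → Fo α → Fo α
  | nil, h => h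
  | keep X q f, h => keep X q (app f h)
  | expand A g f, h => expand A g (app f h)

lemma roots_app (f h : Fo α) : (f.app h).roots = f.roots ++ h.roots := by
  induction f with
  | nil => rfl
  | keep X q f ih => simp [app, roots, ih]
  | expand A g f _ ih => simp [app, roots, ih]

lemma front_app (f h : Fo α) : (f.app h).front = f.front ++ h.front := by
  induction f with
  | nil => rfl
  | keep X q f ih => simp [app, front, ih]
  | expand A g f _ ih => simp [app, front, ih]

lemma valid_app {f h : Fo α} (hf : f.Valid R) (hh : h.Valid R) : (f.app h).Valid R := by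
  induction f with
  | nil => exact hh
  | keep X q f ih => exact ih hf
  | expand A g f _ ih => exact ⟨hf.1, hf.2.1, ih hf.2.2⟩

/-- every derivation is represented by a forest with prescribed leaf labels -/
lemma exists_forest (t : ℕ) : ∀ (x : List α) (γ : List (α × ℕ)), DL (Pl R) t x (γ.map Prod.fst) →
    ∃ f : Fo α, f.Valid R ∧ f.roots.map Prod.fst = x ∧ f.front = γ := by
  induction t with
  | zero =>
    intro x γ h
    simp only [DL] at h
    subst h
    induction γ with
    | nil => exact ⟨nil, trivial, rfl, rfl⟩
    | cons c γ ih =>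
      obtain ⟨f, h1, h2, h3⟩ := ih
      exact ⟨keep c.1 c.2 f, h1, by simp [roots, h2], by simp [front, h3]⟩
  | succ t ih =>
    intro x
    induction x with
    | nil =>
      intro γ h
      rw [DL_nil] at h
      simp at h
      subst h
      exact ⟨nil, trivial, rfl, rfl⟩
    | cons X x ihx =>
      intro γ h
      rw [DL_cons] at h
      obtain ⟨z1, z2, h1, h2, h3⟩ := h
      rw [List.map_eq_append_iff] at h3
      obtain ⟨γ1, γ2, rfl, rfl, rfl⟩ := h3
      obtain ⟨f2, k1, k2, k3⟩ := ihx γ2 h2
      rw [DL_single_succ] at h1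
      obtain ⟨y, h4, h5⟩ := h1
      obtain ⟨f1, j1, j2, j3⟩ := ih y γ1 h5
      rcases h4 with h4 | rfl
      · exact ⟨expand X f1 f2, ⟨by rw [j2]; exact h4, j1, k1⟩, by simp [roots, k2],
          by simp [front, j3, k3]⟩
      · exact ⟨f1.app f2, valid_app j1 k1, by simp [roots_app, j2, k2],
          by simp [front_app, j3, k3]⟩

/-- subforests appearing as tree labels -/
def subs : Fo α → Set (Fo α)
  | nil => ∅
  | keep _ _ f => subs f
  | expand _ g f => {g} ∪ (subs g ∪ subs f)

lemma subs_finite (f : Fo α) : f.subs.Finite := by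
  induction f with
  | nil => exact Set.finite_empty
  | keep X q f ih => exact ih
  | expand A g f ihg ihf => exact (Set.finite_singleton _).union (ihg.union ihf)

lemma subs_trans {f g : Fo α} (h : g ∈ f.subs) : g.subs ⊆ f.subs := by
  induction f with
  | nil => exact absurd h (by simp [subs])
  | keep X q f ih => exact ih h
  | expand A g' f ihg ihf =>
    rcases h with h | h | h
    · rw [Set.mem_singleton_iff] at h
      subst h
      exact fun x hx => Or.inr (Or.inl hx)
    · exact fun x hx => Or.inr (Or.inl (ihg h hx))
    · exact fun x hx => Or.inr (Or.inr (ihf h hx))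

lemma roots_tree {f g : Fo α} {X : α} (h : (X, Glb.tree g) ∈ f.roots) : g ∈ f.subs := by
  induction f with
  | nil => simp [roots] at h
  | keep Y q f ih =>
    simp only [roots, List.mem_cons, Prod.mk.injEq, reduceCtorEq, and_false, false_or] at h
    exact ih h
  | expand A g' f _ ihf =>
    simp only [roots, List.mem_cons, Prod.mk.injEq, Glb.tree.injEq] at h
    rcases h with ⟨_, rfl⟩ | h
    · exact Or.inl rfl
    · exact Or.inr (Or.inr (ihf h))

lemma roots_leaf {f : Fo α} {X : α} {q : ℕ} (h : (X, Glb.leaf q) ∈ f.roots) :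
    (X, q) ∈ f.front := by
  induction f with
  | nil => simp [roots] at h
  | keep Y q f ih =>
    simp only [roots, front, List.mem_cons, Prod.mk.injEq, Glb.leaf.injEq] at h ⊢
    rcases h with h | h
    · exact Or.inl h
    · exact Or.inr (ih h)
  | expand A g' f _ ihf =>
    simp only [roots, List.mem_cons, Prod.mk.injEq, reduceCtorEq, and_false, false_or] at h
    simp only [front, List.mem_append]
    exact Or.inr (ihf h)

lemma front_sub {f g : Fo α} (h : g ∈ f.subs) : ∀ x ∈ g.front, x ∈ f.front := by
  induction f with
  | nil => exact absurd h (by simp [subs])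
  | keep X q f ih =>
    intro x hx
    simp only [front, List.mem_cons]
    exact Or.inr (ih h x hx)
  | expand A g' f ihg ihf =>
    intro x hx
    simp only [front, List.mem_append]
    rcases h with h | h | h
    · rw [Set.mem_singleton_iff] at h
      subst h
      exact Or.inl hx
    · exact Or.inl (ihg h x hx)
    · exact Or.inr (ihf h x hx)

end Fo

/-- the labelled production relation with special rules `Sp` -/
inductive GR (R : α → List α → Prop) (Sp : Set (α × ℕ × Fo α)) :
    α × Glb α → List (α × Glb α) → Prop
  | tree (A : α) (g : Fo α) (h : R A (g.roots.map Prod.fst)) : GR R Sp (A, Glb.tree g) g.roots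
  | sp (X : α) (q : ℕ) (g : Fo α) (hS : (X, q, g) ∈ Sp) (h : R X (g.roots.map Prod.fst)) :
      GR R Sp (X, Glb.leaf q) g.roots

variable {Sp : Set (α × ℕ × Fo α)}

lemma GR.proj {X : α × Glb α} {β : List (α × Glb α)} (h : GR R Sp X β) :
    R X.1 (β.map Prod.fst) := by
  cases h with
  | tree A g h => exact h
  | sp X q g _ h => exact h

/-- terminal symbols with labels -/
def TL (T : α → Prop) (X : α × Glb α) : Prop := T X.1

lemma Yl_rule {R' : α → List α → Prop} {X : α} {w : List α} (hX : ¬ T X) (h : Yl R' T [X] w) :
    ∃ β, R' X β ∧ Yl R' T β w := by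
  obtain ⟨t, ht⟩ := h
  induction t with
  | zero =>
    obtain ⟨h1, h2⟩ := ht
    simp only [DL] at h1
    subst h1
    exact absurd (h2 X (by simp)) hX
  | succ t ih =>
    rw [LT_single_succ] at ht
    obtain ⟨β, h1, h2⟩ := ht
    rcases h1 with h1 | rfl
    · exact ⟨β, h1, t, h2⟩
    · exact ih h2

lemma Fo.der {f : Fo α} (hf : f.Valid R) : Der (GR R Sp) f.roots (Fo.lf f.front) := by
  induction f with
  | nil => exact Der.refl _
  | keep X q f ih =>
    have := (Der.refl (R := GR R Sp) [(X, Glb.leaf q)]).append (ih hf)
    simpa [roots, front, lf] using this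
  | expand A g f ihg ihf =>
    have h1 : Der (GR R Sp) [(A, Glb.tree g)] (lf g.front) :=
      (Der.single (GR.tree A g hf.1)).trans (ihg hf.2.1)
    have := h1.append (ihf hf.2.2)
    simpa [roots, front, lf] using this

lemma Fo.yl_front (hcf : ∀ a β, T a → ¬ R a β) {f : Fo α} (hf : f.Valid R) :
    ∀ {w : List (α × Glb α)}, Yl (GR R Sp) (TL T) f.roots w →
      Yl (GR R Sp) (TL T) (Fo.lf f.front) w := by
  induction f with
  | nil => intro w h; exact h
  | keep X q f ih =>
    intro w h
    simp only [roots] at h
    rw [Yl_cons] at h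
    obtain ⟨z1, z2, h1, h2, rfl⟩ := h
    simp only [front, lf, List.map_cons]
    rw [Yl_cons]
    exact ⟨z1, z2, h1, ih hf h2, rfl⟩
  | expand A g f ihg ihf =>
    intro w h
    simp only [roots] at h
    rw [Yl_cons] at h
    obtain ⟨z1, z2, h1, h2, rfl⟩ := h
    simp only [front, lf, List.map_append]
    rw [Yl_append]
    refine ⟨z1, z2, ?_, ihf hf.2.2 h2, rfl⟩
    apply ihg hf.2.1
    obtain ⟨β, h3, h4⟩ := Yl_rule (T := TL T) (X := (A, Glb.tree g))
      (fun hT => hcf A _ hT hf.1) h1
    cases h3 with
    | tree _ _ _ => exact h4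

end Pool.Agent.EOLForms
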