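import Pool.Agent.EOLForms.Combine

/-! Labelled copies of context-free grammars. -/

namespace Pool.Agent.EOLForms

/-- the labelled copy of a context-free grammar -/
theorem liftCF {Q : Type*} (F : Gr) (hF : F.IsCF) (R2 : Sym × Q → List (Sym × Q) → Prop)
    (hproj : ∀ X β, R2 X β → (X.1, β.map Prod.fst) ∈ F.P) (Labs : Set Q) (hfin : Labs.Finite)
    (hcl : ∀ X β, R2 X β → X.2 ∈ Labs → ∀ Y ∈ β, Y.2 ∈ Labs)
    (q0 : Q) (hq0 : q0 ∈ Labs) :
    ∃ (F'' : Gr) (cd : ℕ × Q → ℕ), F''.IsCF ∧ SInterp F'' F ∧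
      Set.InjOn cd {x | x.2 ∈ Labs} ∧
      ∀ w, w ∈ F''.seqLang ↔ ∃ (z : List (ℕ × Q)), Der R2 [(F.S, q0)]
        (z.map fun x => ((Symbol.terminal x.1 : Sym), x.2)) ∧ (∀ x ∈ z, x.2 ∈ Labs) ∧
        w = z.map cd := by
  obtain ⟨F'', enc, henc, hSI, hS, hV, hP⟩ := lift0 F R2 hproj Labs hfin hcl q0 hq0
  refine ⟨F'', fun x => Nat.pair x.1 (enc x.2), ⟨?_, ?_⟩, hSI, ?_, ?_⟩
  · obtain ⟨A, hA⟩ := hF.1
    rw [hS, hA]
    exact ⟨_, rfl⟩
  · intro r hr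
    obtain ⟨X, y, h1, h2, h3, rfl⟩ := (hP r).1 hr
    obtain ⟨A, hA⟩ := hF.2 _ (hproj X y h3)
    simp only at hA
    simp only [code, hA]
    exact ⟨_, rfl⟩
  · intro x hx y hy h
    simp only [Nat.pair_eq_pair] at h
    exact Prod.ext h.1 (henc hx hy h.2)
  · intro w
    unfold Gr.seqLang
    rw [Set.mem_ofPred_eq, seq_iff, hS]
    unfold Der
    rw [lift_lang (V := (F.V : Set Sym)) (R2 := Pl R2) (Labs := Labs) ?_ ?_ F.S_mem hq0 w]
    · constructor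
      · rintro ⟨t, z, h1, h2, h3⟩
        exact ⟨z, ⟨t, h1⟩, h2, h3⟩
      · rintro ⟨z, ⟨t, h1⟩, h2, h3⟩
        exact ⟨t, z, h1, h2, h3⟩
    · intro X β h h1 h2 Y hY
      rcases h with h | rfl
      · exact ⟨(F.P_mem _ (hproj X β h)).2 Y.1 (List.mem_map_of_mem hY), hcl X β h h2 Y hY⟩
      · rw [List.mem_singleton] at hY
        subst hY
        exact ⟨h1, h2⟩
    · intro X h1 h2 y'
      unfold Pl Gr.rel
      rw [hP]
      constructor
      · rintro (⟨X', y, k1, k2, k3, k4⟩ | rfl)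
        · rw [Prod.mk.injEq] at k4
          have := code_inj enc henc h2 k2 k4.1
          subst this
          exact ⟨y, Or.inl k3, k4.2⟩
        · exact ⟨[X], Or.inr rfl, rfl⟩
      · rintro ⟨y, k1 | rfl, rfl⟩
        · exact Or.inl ⟨X, y, h1, h2, k1, rfl⟩
        · exact Or.inr rfl

end Pool.Agent.EOLForms
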