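import Pool.Agent.EOLForms.NSE
import Pool.Agent.EOLForms.BFinal

/-! Without two self-embedding symbols in one sentential form the language is linear. -/

namespace Pool.Agent.EOLForms

variable {α : Type*} {R : α → List α → Prop} {T : α → Prop}

/-- `M` can be peeled at `z` inside the family `𝓕` -/
def Peel (𝓕 : Set (Set (List α))) (M : Set (List α)) (z : List α) : Prop :=
  (∃ a z', ∃ M' ∈ 𝓕, z = a :: z' ∧ z' ∈ M' ∧ ∀ y ∈ M', a :: y ∈ M) ∨
  (∃ a z', ∃ M' ∈ 𝓕, z = z' ++ [a] ∧ z' ∈ M' ∧ ∀ y ∈ M', y ++ [a] ∈ M)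

lemma Peel.mono {𝓕 : Set (Set (List α))} {M N : Set (List α)} {z : List α} (h : Peel 𝓕 M z)
    (hMN : M ⊆ N) : Peel 𝓕 N z := by
  rcases h with ⟨a, z', M', h1, h2, h3, h4⟩ | ⟨a, z', M', h1, h2, h3, h4⟩
  · exact Or.inl ⟨a, z', M', h1, h2, h3, fun y hy => hMN (h4 y hy)⟩
  · exact Or.inr ⟨a, z', M', h1, h2, h3, fun y hy => hMN (h4 y hy)⟩

namespace CFD

variable (C : CFD R T)

/-- left quotients of the regular segment languages -/
def QL : Set (Set (List α)) := ⋃ P ∈ C.Ps, Set.range (lq P)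

/-- right quotients of the regular segment languages -/
def QR : Set (Set (List α)) := ⋃ P ∈ C.Ps, Set.range (fun x => revL (lq (revL P) x))

/-- the family -/
def Fam (S : α) : Set (Set (List α)) :=
  C.QL ∪ {M | ∃ Q1 ∈ C.QL, ∃ A ∈ C.V, ∃ Q2 ∈ C.QR, Reach R T S A ∧
    M = prodL Q1 (prodL (Lg R T [A]) Q2)}

lemma QL_finite : C.QL.Finite := C.Ps_finite.biUnion (by rintro P ⟨_, _, _, h⟩; exact h)

lemma QR_finite : C.QR.Finite := by
  refine C.Ps_finite.biUnion ?_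
  rintro P ⟨_, _, _, h⟩
  have h1 : (Set.range (lq (revL P))).Finite := Rg_rev h
  refine (h1.image revL).subset ?_
  rintro M ⟨x, rfl⟩
  exact ⟨_, ⟨x, rfl⟩, rfl⟩

lemma Fam_finite (S : α) : (C.Fam S).Finite := by
  refine C.QL_finite.union ?_
  have h1 := (C.QL_finite.prod C.V.finite_toSet).prod C.QR_finite
  refine (h1.image fun q => prodL q.1.1 (prodL (Lg R T [q.1.2]) q.2)).subset ?_
  rintro M ⟨Q1, h1, A, h2, Q2, h3, _, rfl⟩
  exact ⟨((Q1, A), Q2), ⟨⟨h1, h2⟩, h3⟩, rfl⟩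

lemma QL_q {Q : Set (List α)} (hQ : Q ∈ C.QL) (a : α) : lq Q [a] ∈ C.QL := by
  simp only [QL, Set.mem_iUnion] at hQ ⊢
  obtain ⟨P, hP, x, rfl⟩ := hQ
  exact ⟨P, hP, x ++ [a], lq_append P x [a]⟩

lemma QR_q {Q : Set (List α)} (hQ : Q ∈ C.QR) (a : α) : {y | y ++ [a] ∈ Q} ∈ C.QR := by
  simp only [QR, Set.mem_iUnion] at hQ ⊢
  obtain ⟨P, hP, x, rfl⟩ := hQ
  refine ⟨P, hP, x ++ [a], ?_⟩
  simp only
  rw [lq_append]
  ext y
  simp [revL, lq]

lemma QL_P {P : Set (List α)} (hP : P ∈ C.Ps) : P ∈ C.QL := by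
  simp only [QL, Set.mem_iUnion]
  exact ⟨P, hP, [], rfl⟩

lemma QR_P {P : Set (List α)} (hP : P ∈ C.Ps) : P ∈ C.QR := by
  simp only [QR, Set.mem_iUnion]
  refine ⟨P, hP, [], ?_⟩
  simp only [lq_nil]
  exact rv_rv P

lemma nil_Ps : ({[]} : Set (List α)) ∈ C.Ps :=
  ⟨[], ⟨by simp, by simp⟩, Lg_nil.symm, Rg_nil⟩

lemma Fam_S {S : α} (hS : S ∈ C.V) : Lg R T [S] ∈ C.Fam S := by
  right
  refine ⟨{[]}, C.QL_P C.nil_Ps, S, hS, {[]}, C.QR_P C.nil_Ps, Reach.refl S, ?_⟩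
  ext z
  constructor
  · intro h
    exact ⟨[], rfl, z, ⟨z, h, [], rfl, by simp⟩, rfl⟩
  · rintro ⟨x, hx, y, ⟨z1, h1, z2, h2, rfl⟩, rfl⟩
    have hx' : x = [] := hx
    have hz' : z2 = [] := h2
    subst hx'
    subst hz'
    simpa using h1

/-- symbols from which no self-embedding symbol is reachable -/
def N0 (R : α → List α → Prop) (T : α → Prop) (A : α) : Prop := ∀ E, Reach R T A E → ¬ SE R T E

lemma reg_N0 {A : α} (hA : A ∈ C.V) (h : N0 R T A) : Rg (Lg R T [A]) :=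
  C.reg_of_nse _ A hA le_rfl h

theorem claim {S : α} (hTwo : ¬ TwoSE R T S) : ∀ (t : ℕ) (A : α) (z : List α), A ∈ C.V →
    Reach R T S A → LT (Pl R) T t [A] z → z ≠ [] → Peel (C.Fam S) (Lg R T [A]) z := by
  intro t
  induction t using Nat.strong_induction_on with
  | _ t ih =>
  intro A z hA hSA hz hne
  have leftpeel : ∀ P ∈ C.Ps, z ∈ P → P ⊆ Lg R T [A] → Peel (C.Fam S) (Lg R T [A]) z := by
    intro P hP hzP hsub
    left
    cases z with
    | nil => exact absurd rfl hne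
    | cons a z =>
      exact ⟨a, z, lq P [a], Or.inl (C.QL_q (C.QL_P hP) a), rfl, hzP, fun y hy => hsub hy⟩
  rcases LT_cases hz with ⟨h1, rfl⟩ | ⟨t', ht', β, hR, hβ⟩
  · have e := C.Lg_term h1
    refine leftpeel (Lg R T [A]) ⟨[A], ⟨by simpa using hA, by simpa using C.hD1⟩, rfl, ?_⟩ ?_
      subset_rfl
    · rw [e]; exact Rg_single A
    · rw [e]; rfl
  · by_cases hN : ∃ B ∈ β, ¬ N0 R T B
    swap
    · push Not at hN
      refine leftpeel (Lg R T β) ⟨β, C.seg_of_rule (β1 := []) (β2 := []) (by simpa using hR), rfl,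
        ?_⟩ ⟨_, hβ⟩ (fun y hy => (Der.single hR).yl hy)
      exact Rg_word fun B hB => C.reg_N0 (C.hV _ _ hR B hB) (hN B hB)
    · obtain ⟨β1, B, β2, rfl, hB, hβ1⟩ := exists_first _ hN
      simp only [not_not] at hβ1
      obtain ⟨z1, y, z2, g1, g2, g3, rfl⟩ := LT_mid.1 hβ
      have hBV : B ∈ C.V := C.hV _ _ hR B (by simp)
      have hctx : Ctx R T A B z1 z2 := Ctx.of_rule hR ⟨_, g1⟩ ⟨_, g3⟩
      -- the right part contains no further symbol of this kind
      have hβ2 : ∀ B' ∈ β2, N0 R T B' := by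
        intro B' hB'
        by_contra hB'N
        obtain ⟨γ1, γ2, rfl⟩ := List.append_of_mem hB'
        obtain ⟨x1, x2, x3, k1, k2, k3, rfl⟩ := LT_mid.1 g3
        unfold N0 at hB hB'N
        push Not at hB hB'N
        obtain ⟨E, ⟨u, v, hE⟩, ⟨w, hw⟩, p, q, hEE, hp, hq⟩ := hB
        obtain ⟨E', ⟨u', v', hE'⟩, ⟨w', hw'⟩, p', q', hEE', hp', hq'⟩ := hB'N
        obtain ⟨s1, s2, hS⟩ := hSA
        apply hTwo
        refine ⟨E, E', s1 ++ (z1 ++ u), v ++ (x1 ++ u'), v' ++ (x3 ++ s2), p, q, w, p', q', w',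
          ?_, ?_, ?_, ?_, hEE, hp, hq, hw, hEE', hp', hq', hw'⟩
        · have y1 : Yl R T β1 z1 := ⟨_, g1⟩
          have y2 : Yl R T γ1 x1 := ⟨_, k1⟩
          have y3 : Yl R T γ2 x3 := ⟨_, k3⟩
          rw [Yl_iff] at y1 y2 y3
          have d1 : Der R [A] (z1 ++ ((u ++ ([E] ++ v)) ++ (x1 ++ ((u' ++ ([E'] ++ v')) ++ x3)))) := by
            refine (Der.single hR).trans ?_
            have e : β1 ++ B :: (γ1 ++ B' :: γ2) = β1 ++ ([B] ++ (γ1 ++ ([B'] ++ γ2))) := by simp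
            rw [e]
            exact y1.1.append (hE.1.append (y2.1.append (hE'.1.append y3.1)))
          have d2 := hS.1.trans ((Der.refl s1).append (d1.append (Der.refl s2)))
          simpa using d2
        · intro a ha
          simp only [List.mem_append] at ha
          rcases ha with ha | ha | ha
          · exact hS.2.1 a ha
          · exact hctx.2.1 a ha
          · exact hE.2.1 a ha
        · intro a ha
          simp only [List.mem_append] at ha
          rcases ha with ha | ha | ha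
          · exact hE.2.2 a ha
          · exact k1.2 a ha
          · exact hE'.2.1 a ha
        · intro a ha
          simp only [List.mem_append] at ha
          rcases ha with ha | ha | ha
          · exact hE'.2.2 a ha
          · exact k3.2 a ha
          · exact hS.2.2 a ha
      have hP1 : Lg R T β1 ∈ C.Ps := ⟨β1, C.seg_of_rule (β1 := []) (β2 := B :: β2)
        (by simpa using hR), rfl, Rg_word fun X hX => C.reg_N0 (C.hV _ _ hR X (by simp [hX]))
        (hβ1 X hX)⟩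
      have hP2 : Lg R T β2 ∈ C.Ps := ⟨β2, C.seg_of_rule (β1 := β1 ++ [B]) (β2 := [])
        (by simpa using hR), rfl, Rg_word fun X hX => C.reg_N0 (C.hV _ _ hR X (by simp [hX]))
        (hβ2 X hX)⟩
      have hSB : Reach R T S B := hSA.trans ⟨z1, z2, hctx⟩
      have hprod : ∀ a ∈ Lg R T β1, ∀ b ∈ Lg R T [B], ∀ c ∈ Lg R T β2,
          a ++ (b ++ c) ∈ Lg R T [A] := by
        intro a ha b hb c hc
        exact (Der.single hR).yl (Yl_mid.2 ⟨a, b, c, ha, hb, hc, rfl⟩)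
      cases z1 with
      | cons a z1 =>
        left
        refine ⟨a, z1 ++ (y ++ z2), prodL (lq (Lg R T β1) [a]) (prodL (Lg R T [B]) (Lg R T β2)),
          Or.inr ⟨_, C.QL_q (C.QL_P hP1) a, B, hBV, _, C.QR_P hP2, hSB, rfl⟩, rfl,
          ⟨z1, ⟨_, g1⟩, _, ⟨y, ⟨_, g2⟩, z2, ⟨_, g3⟩, rfl⟩, rfl⟩, ?_⟩
        rintro w ⟨a1, ha1, _, ⟨b1, hb1, c1, hc1, rfl⟩, rfl⟩
        exact hprod (a :: a1) ha1 b1 hb1 c1 hc1
      | nil =>
        rcases List.eq_nil_or_concat z2 with rfl | ⟨z2', a, rfl⟩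
        · have h5 := ih t' ht' B y hBV hSB g2 (by simpa using hne)
          have h6 : Lg R T [B] ⊆ Lg R T [A] := by
            intro b hb
            have := hprod [] ⟨_, g1⟩ b hb [] ⟨_, g3⟩
            simpa using this
          have := h5.mono h6
          simpa using this
        · right
          refine ⟨a, y ++ z2', prodL (Lg R T β1) (prodL (Lg R T [B]) {w | w ++ [a] ∈ Lg R T β2}),
            Or.inr ⟨_, C.QL_P hP1, B, hBV, _, C.QR_q (C.QR_P hP2) a, hSB, rfl⟩, by simp,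
            ⟨[], ⟨_, g1⟩, _, ⟨y, ⟨_, g2⟩, z2', ?_, rfl⟩, rfl⟩, ?_⟩
          · show z2' ++ [a] ∈ Lg R T β2
            exact ⟨_, by simpa using g3⟩
          · rintro w ⟨a1, ha1, _, ⟨b1, hb1, c1, hc1, rfl⟩, rfl⟩
            have := hprod a1 ha1 b1 hb1 (c1 ++ [a]) hc1
            simpa using this

theorem fam_peel {S : α} (hTwo : ¬ TwoSE R T S) : ∀ M ∈ C.Fam S, ∀ z ∈ M, z ≠ [] →
    Peel (C.Fam S) M z := by
  rintro M (hM | ⟨Q1, h1, A, hA, Q2, h2, hSA, rfl⟩) z hz hne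
  · left
    cases z with
    | nil => exact absurd rfl hne
    | cons a z => exact ⟨a, z, lq M [a], Or.inl (C.QL_q hM a), rfl, hz, fun y hy => hy⟩
  · obtain ⟨x, hx, _, ⟨y, hy, w, hw, rfl⟩, rfl⟩ := hz
    cases x with
    | cons a x =>
      left
      refine ⟨a, x ++ (y ++ w), prodL (lq Q1 [a]) (prodL (Lg R T [A]) Q2),
        Or.inr ⟨_, C.QL_q h1 a, A, hA, Q2, h2, hSA, rfl⟩, rfl, ⟨x, hx, _, ⟨y, hy, w, hw, rfl⟩, rfl⟩,
        ?_⟩
      rintro v ⟨a1, ha1, b1, hb1, rfl⟩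
      exact ⟨a :: a1, ha1, b1, hb1, rfl⟩
    | nil =>
      rcases List.eq_nil_or_concat w with rfl | ⟨w', a, rfl⟩
      · obtain ⟨t, ht⟩ := hy
        have h5 := C.claim hTwo t A y hA hSA ht (by simpa using hne)
        have h6 : Lg R T [A] ⊆ prodL Q1 (prodL (Lg R T [A]) Q2) := by
          intro b hb
          exact ⟨[], hx, b, ⟨b, hb, [], hw, by simp⟩, rfl⟩
        have := h5.mono h6
        simpa using this
      · right
        refine ⟨a, y ++ w', prodL Q1 (prodL (Lg R T [A]) {v | v ++ [a] ∈ Q2}),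
          Or.inr ⟨_, h1, A, hA, _, C.QR_q h2 a, hSA, rfl⟩, by simp,
          ⟨[], hx, _, ⟨y, hy, w', by simpa using hw, rfl⟩, rfl⟩, ?_⟩
        rintro v ⟨a1, ha1, _, ⟨b1, hb1, c1, hc1, rfl⟩, rfl⟩
        exact ⟨a1, ha1, b1 ++ (c1 ++ [a]), ⟨b1, hb1, c1 ++ [a], hc1, rfl⟩, by simp⟩

/-- all letters belong to `V` -/
lemma Lg_letters {x : List α} (hx : ∀ a ∈ x, a ∈ C.V) {z : List α} (hz : z ∈ Lg R T x) :
    ∀ a ∈ z, a ∈ C.V := by
  obtain ⟨t, h1, _⟩ := hz
  refine DL_closed (V := (C.V : Set α)) (R := fun X y => Pl R X y ∧ X ∈ C.V) ?_ hx ?_ (t := t)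
  · rintro X y ⟨h | rfl, hX⟩ Y hY
    · exact C.hV _ _ h Y hY
    · rw [List.mem_singleton] at hY
      subst hY
      exact hX
  · induction t generalizing x with
    | zero => exact h1
    | succ t ih =>
      obtain ⟨y, h2, h3⟩ := h1
      have h4 : PStep (fun X y => Pl R X y ∧ X ∈ C.V) x y ∧ ∀ Y ∈ y, Y ∈ C.V := by
        clear h3 ih
        induction x generalizing y with
        | nil => rw [PStep_nil] at h2; subst h2; exact ⟨PStep_nil.2 rfl, by simp⟩
        | cons X x ih2 =>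
          rw [PStep_cons] at h2
          obtain ⟨y1, y2, g1, g2, rfl⟩ := h2
          obtain ⟨g3, g4⟩ := ih2 (fun a ha => hx a (by simp [ha])) y2 g2
          refine ⟨PStep_cons.2 ⟨y1, y2, ⟨g1, hx X (by simp)⟩, g3, rfl⟩, ?_⟩
          intro Y hY
          rw [List.mem_append] at hY
          rcases hY with hY | hY
          · rcases g1 with g1 | rfl
            · exact C.hV _ _ g1 Y hY
            · rw [List.mem_singleton] at hY
              subst hY
              exact hx Y (by simp)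
          · exact g4 Y hY
      exact ⟨y, h4.1, ih h4.2 h3⟩

lemma fam_letters {S : α} : ∀ M ∈ C.Fam S, ∀ z ∈ M, ∀ a ∈ z, a ∈ C.V := by
  have hQL : ∀ M ∈ C.QL, ∀ z ∈ M, ∀ a ∈ z, a ∈ C.V := by
    intro M hM z hz a ha
    simp only [QL, Set.mem_iUnion] at hM
    obtain ⟨P, ⟨l, hl, rfl, _⟩, x, rfl⟩ := hM
    exact C.Lg_letters hl.1 hz a (by simp [ha])
  have hQR : ∀ M ∈ C.QR, ∀ z ∈ M, ∀ a ∈ z, a ∈ C.V := by
    intro M hM z hz a ha
    simp only [QR, Set.mem_iUnion] at hM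
    obtain ⟨P, ⟨l, hl, rfl, _⟩, x, rfl⟩ := hM
    have h1 : (x ++ z.reverse).reverse ∈ Lg R T l := hz
    exact C.Lg_letters hl.1 h1 a (by simp [ha])
  rintro M (hM | ⟨Q1, h1, A, hA, Q2, h2, hSA, rfl⟩) z hz a ha
  · exact hQL M hM z hz a ha
  · obtain ⟨x, hx, _, ⟨y, hy, w, hw, rfl⟩, rfl⟩ := hz
    simp only [List.mem_append] at ha
    rcases ha with ha | ha | ha
    · exact hQL Q1 h1 x hx a ha
    · exact C.Lg_letters (by simpa using hA) hy a ha
    · exact hQR Q2 h2 w hw a ha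

end CFD

end Pool.Agent.EOLForms
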