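import Pool.Agent.EOLForms.Lin

/-! Linear grammars from finite peeling families, and the main theorem. -/

namespace Pool.Agent.EOLForms

theorem linFam_of_family (𝓕 : Set (Set (List ℕ))) (hfin : 𝓕.Finite) (A : Finset ℕ)
    (hA : ∀ M ∈ 𝓕, ∀ z ∈ M, ∀ a ∈ z, a ∈ A)
    (h : ∀ M ∈ 𝓕, ∀ z ∈ M, z ≠ [] → Peel 𝓕 M z) : ∀ M ∈ 𝓕, M ∈ linFam := by
  classical
  obtain ⟨enc, henc⟩ := Set.countable_iff_exists_injOn.1 hfin.countable
  let nt : Set (List ℕ) → Sym := fun M => Symbol.nonterminal (enc M)
  have hnt : ∀ M ∈ 𝓕, ∀ M' ∈ 𝓕, nt M = nt M' → M = M' := by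
    intro M hM M' hM' he
    apply henc hM hM'
    simpa [nt] using he
  set P1 : Set (Sym × List Sym) := {r | ∃ M ∈ 𝓕, ∃ M' ∈ 𝓕, ∃ a ∈ A, (∀ y ∈ M', a :: y ∈ M) ∧
    r = (nt M, [Symbol.terminal a, nt M'])} with hP1
  set P2 : Set (Sym × List Sym) := {r | ∃ M ∈ 𝓕, ∃ M' ∈ 𝓕, ∃ a ∈ A, (∀ y ∈ M', y ++ [a] ∈ M) ∧
    r = (nt M, [nt M', Symbol.terminal a])} with hP2
  set P3 : Set (Sym × List Sym) := {r | ∃ M ∈ 𝓕, [] ∈ M ∧ r = (nt M, [])} with hP3
  have hf1 : P1.Finite := by
    refine (((hfin.prod hfin).prod A.finite_toSet).image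
      fun q => (nt q.1.1, [Symbol.terminal q.2, nt q.1.2])).subset ?_
    rintro r ⟨M, h1, M', h2, a, h3, _, rfl⟩
    exact ⟨((M, M'), a), ⟨⟨h1, h2⟩, h3⟩, rfl⟩
  have hf2 : P2.Finite := by
    refine (((hfin.prod hfin).prod A.finite_toSet).image
      fun q => (nt q.1.1, [nt q.1.2, Symbol.terminal q.2])).subset ?_
    rintro r ⟨M, h1, M', h2, a, h3, _, rfl⟩
    exact ⟨((M, M'), a), ⟨⟨h1, h2⟩, h3⟩, rfl⟩
  have hf3 : P3.Finite := by
    refine (hfin.image fun M => (nt M, ([] : List Sym))).subset ?_
    rintro r ⟨M, h1, _, rfl⟩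
    exact ⟨M, h1, rfl⟩
  have hf : (P1 ∪ (P2 ∪ P3)).Finite := hf1.union (hf2.union hf3)
  intro M0 hM0
  let G : Gr :=
    { V := hfin.toFinset.image nt ∪ A.image Symbol.terminal
      P := hf.toFinset
      S := nt M0
      S_mem := by
        rw [Finset.mem_union, Finset.mem_image]
        exact Or.inl ⟨M0, by simpa using hM0, rfl⟩
      P_mem := by
        have hn : ∀ M ∈ 𝓕, nt M ∈ hfin.toFinset.image nt ∪ A.image Symbol.terminal := by
          intro M hM
          rw [Finset.mem_union, Finset.mem_image]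
          exact Or.inl ⟨M, by simpa using hM, rfl⟩
        have ht : ∀ a ∈ A, (Symbol.terminal a : Sym) ∈
            hfin.toFinset.image nt ∪ A.image Symbol.terminal := by
          intro a ha
          rw [Finset.mem_union, Finset.mem_image, Finset.mem_image]
          exact Or.inr ⟨a, ha, rfl⟩
        intro r hr
        rw [Set.Finite.mem_toFinset] at hr
        rcases hr with ⟨M, h1, M', h2, a, h3, _, rfl⟩ | ⟨M, h1, M', h2, a, h3, _, rfl⟩ |
          ⟨M, h1, _, rfl⟩
        · refine ⟨hn M h1, ?_⟩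
          intro X hX
          simp only [List.mem_cons, List.not_mem_nil, or_false] at hX
          rcases hX with rfl | rfl
          · exact ht a h3
          · exact hn M' h2
        · refine ⟨hn M h1, ?_⟩
          intro X hX
          simp only [List.mem_cons, List.not_mem_nil, or_false] at hX
          rcases hX with rfl | rfl
          · exact hn M' h2
          · exact ht a h3
        · exact ⟨hn M h1, by simp⟩ }
  have hrel : ∀ X β, G.rel X β ↔ (X, β) ∈ P1 ∪ (P2 ∪ P3) := by
    intro X β
    simp only [Gr.rel, G, Set.Finite.mem_toFinset]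
  have hcf : ∀ a β, isT a → ¬ G.rel a β := by
    rintro a β ⟨n, rfl⟩ hr
    rw [hrel] at hr
    rcases hr with ⟨M, h1, M', h2, a, h3, _, he⟩ | ⟨M, h1, M', h2, a, h3, _, he⟩ | ⟨M, h1, _, he⟩
    all_goals
      rw [Prod.mk.injEq] at he
      simp [nt] at he
  have hntT : ∀ M, ¬ isT (nt M) := by
    rintro M ⟨n, hn⟩
    simp [nt] at hn
  have hlang : ∀ (n : ℕ) (M : Set (List ℕ)) (w : List ℕ), M ∈ 𝓕 → w.length = n →
      (Yl G.rel isT [nt M] (w.map Symbol.terminal) ↔ w ∈ M) := by
    intro n
    induction n using Nat.strong_induction_on with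
    | _ n ih =>
    intro M w hM hw
    subst hw
    constructor
    · intro hY
      obtain ⟨β, hR, hβ⟩ := Yl_rule (hntT M) hY
      rw [hrel] at hR
      rcases hR with ⟨M1, h1, M', h2, a, h3, h4, he⟩ | ⟨M1, h1, M', h2, a, h3, h4, he⟩ |
        ⟨M1, h1, h4, he⟩
      · rw [Prod.mk.injEq] at he
        obtain ⟨he1, rfl⟩ := he
        have := hnt M hM M1 h1 he1
        subst this
        rw [Yl_cons] at hβ
        obtain ⟨z1, z2, k1, k2, k3⟩ := hβ
        have := Yl_of_terminal hcf ⟨a, rfl⟩ k1
        subst this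
        cases w with
        | nil => simp at k3
        | cons b w =>
          simp only [List.map_cons, List.singleton_append, List.cons.injEq,
            Symbol.terminal.injEq] at k3
          obtain ⟨rfl, rfl⟩ := k3
          exact h4 _ ((ih w.length (by simp) M' w h2 rfl).1 k2)
      · rw [Prod.mk.injEq] at he
        obtain ⟨he1, rfl⟩ := he
        have := hnt M hM M1 h1 he1
        subst this
        rw [Yl_cons] at hβ
        obtain ⟨z1, z2, k1, k2, k3⟩ := hβ
        have := Yl_of_terminal hcf ⟨a, rfl⟩ k2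
        subst this
        rcases List.eq_nil_or_concat w with rfl | ⟨w', b, rfl⟩
        · simp at k3
        · simp only [List.concat_eq_append] at *
          rw [List.map_append, List.map_singleton] at k3
          obtain ⟨k4, k5⟩ := List.append_inj' k3 rfl
          simp only [List.cons.injEq, Symbol.terminal.injEq, and_true] at k5
          subst k5
          subst k4
          exact h4 _ ((ih w'.length (by simp) M' w' h2 rfl).1 k1)
      · rw [Prod.mk.injEq] at he
        obtain ⟨he1, rfl⟩ := he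
        have := hnt M hM M1 h1 he1
        subst this
        rw [Yl_nil] at hβ
        simp at hβ
        rw [hβ]
        exact h4
    · intro hwM
      by_cases hne : w = []
      · subst hne
        refine (Der.single (X := nt M) (β := []) ?_).yl (Yl_nil.2 rfl)
        rw [hrel]
        exact Or.inr (Or.inr ⟨M, hM, hwM, rfl⟩)
      · rcases h M hM w hwM hne with ⟨a, z', M', h1, rfl, h3, h4⟩ | ⟨a, z', M', h1, rfl, h3, h4⟩
        · have ha : a ∈ A := hA M hM _ hwM a (by simp)
          refine (Der.single (X := nt M) (β := [Symbol.terminal a, nt M']) ?_).yl ?_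
          · rw [hrel]
            exact Or.inl ⟨M, hM, M', h1, a, ha, h4, rfl⟩
          · rw [Yl_cons]
            exact ⟨[Symbol.terminal a], z'.map Symbol.terminal, Yl.term (by
              intro b hb
              rw [List.mem_singleton] at hb
              exact ⟨a, hb⟩), (ih z'.length (by simp) M' z' h1 rfl).2 h3, by simp⟩
        · have ha : a ∈ A := hA M hM _ hwM a (by simp)
          refine (Der.single (X := nt M) (β := [nt M', Symbol.terminal a]) ?_).yl ?_
          · rw [hrel]
            exact Or.inr (Or.inl ⟨M, hM, M', h1, a, ha, h4, rfl⟩)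
          · rw [Yl_cons]
            exact ⟨z'.map Symbol.terminal, [Symbol.terminal a],
              (ih z'.length (by simp) M' z' h1 rfl).2 h3, Yl.term (by
              intro b hb
              rw [List.mem_singleton] at hb
              exact ⟨a, hb⟩), by simp⟩
  refine ⟨G, ⟨⟨⟨enc M0, rfl⟩, ?_⟩, ?_⟩, ?_⟩
  · intro r hr
    simp only [G, Set.Finite.mem_toFinset] at hr
    rcases hr with ⟨M, h1, M', h2, a, h3, _, rfl⟩ | ⟨M, h1, M', h2, a, h3, _, rfl⟩ |
      ⟨M, h1, _, rfl⟩
    all_goals exact ⟨enc M, rfl⟩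
  · intro r hr
    simp only [G, Set.Finite.mem_toFinset] at hr
    rcases hr with ⟨M, h1, M', h2, a, h3, _, rfl⟩ | ⟨M, h1, M', h2, a, h3, _, rfl⟩ |
      ⟨M, h1, _, rfl⟩
    · exact Or.inr ⟨[a], [], enc M', rfl⟩
    · exact Or.inr ⟨[], [a], enc M', rfl⟩
    · exact Or.inl ⟨[], rfl⟩
  · ext w
    rw [mem_seqLang]
    exact (hlang w.length M0 w hM0 rfl).symm

/-- Without two self-embedding symbols in one sentential form the language is linear. -/
theorem a_main (G : Gr) (hG : G.IsCF) (hTwo : ¬ TwoSE G.rel isT G.S) : G.seqLang ∈ linFam := by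
  classical
  obtain ⟨D, hD⟩ : ∃ D, ∀ r ∈ G.P, r.2.length ≤ D :=
    ⟨G.P.sup (fun r => r.2.length), fun r hr => Finset.le_sup (f := fun r => r.2.length) hr⟩
  let C : CFD G.rel isT :=
    { V := G.V
      hV := fun X y h => (G.P_mem _ h).2
      D := D + 1
      hD1 := by omega
      hD := fun X y h => (hD _ h).trans (by omega)
      hcf := by
        rintro a β ⟨n, rfl⟩ hr
        obtain ⟨A, hA⟩ := hG.2 _ hr
        simp at hA }
  let f : Set (List Sym) → Set (List ℕ) := fun M => {w | w.map Symbol.terminal ∈ M}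
  set 𝓕 : Set (Set (List ℕ)) := f '' (C.Fam G.S) with h𝓕
  have hSfam : f (Lg G.rel isT [G.S]) ∈ 𝓕 := ⟨_, C.Fam_S G.S_mem, rfl⟩
  have e : G.seqLang = f (Lg G.rel isT [G.S]) := by
    ext w
    exact mem_seqLang G w
  rw [e]
  refine linFam_of_family 𝓕 ((C.Fam_finite G.S).image f)
    ((G.V.filter fun X => isT X).image fun X => match X with
      | Symbol.terminal a => a
      | Symbol.nonterminal _ => 0) ?_ ?_ _ hSfam
  · rintro M ⟨M, hM, rfl⟩ z hz a ha
    rw [Finset.mem_image]
    refine ⟨Symbol.terminal a, ?_, rfl⟩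
    rw [Finset.mem_filter]
    exact ⟨C.fam_letters M hM _ hz _ (List.mem_map_of_mem ha), a, rfl⟩
  · rintro M ⟨M, hM, rfl⟩ z hz hne
    rcases C.fam_peel hTwo M hM _ hz (by simpa using hne) with
      ⟨a, z', M', h1, h2, h3, h4⟩ | ⟨a, z', M', h1, h2, h3, h4⟩
    · left
      cases z with
      | nil => exact absurd rfl hne
      | cons b z =>
        rw [List.map_cons, List.cons.injEq] at h2
        obtain ⟨rfl, rfl⟩ := h2
        exact ⟨b, z, f M', ⟨M', h1, rfl⟩, rfl, h3, fun y hy => h4 _ hy⟩
    · right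
      rcases List.eq_nil_or_concat z with rfl | ⟨w, b, rfl⟩
      · exact absurd rfl hne
      · simp only [List.concat_eq_append] at *
        rw [List.map_append, List.map_singleton] at h2
        obtain ⟨k4, k5⟩ := List.append_inj' h2 rfl
        simp only [List.cons.injEq, and_true] at k5
        subst k5
        subst k4
        refine ⟨b, w, f M', ⟨M', h1, rfl⟩, rfl, h3, fun y hy => ?_⟩
        show (y ++ [b]).map Symbol.terminal ∈ M
        rw [List.map_append]
        exact h4 _ hy

/-- If some EOL form is complete for the family of a context-free grammar form, then the family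
consists of linear languages. -/
theorem main (G F : Gr) (hF : FamEq (eolFam F) (sFam G)) : FamSub (sFam G) linFam := by
  rintro L ⟨G', hCF, hSI, rfl⟩
  by_cases hTwo : TwoSE G'.rel isT G'.S
  · exfalso
    obtain ⟨K, ⟨G'', hCF'', hSI'', rfl⟩, w, w', a, b, c, d, hww, hKP⟩ := b_main G' hCF hTwo
    exact no_complete hF ⟨G'', hCF'', hSI''.trans hSI, rfl⟩ hKP hww
  · exact ⟨_, a_main G' hCF hTwo, rfl⟩

end Pool.Agent.EOLForms
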