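import Pool.Agent.EOLForms.Path

/-! Following the path to a marker letter. -/

namespace Pool.Agent.EOLForms

variable {α : Type*} {R : α → List α → Prop} {T : α → Prop}

lemma child_with {m : α} {t : ℕ} : ∀ {β y : List α}, LT R T t β y → m ∈ y →
    ∃ δ1 Y δ2 z1 y' z2, β = δ1 ++ Y :: δ2 ∧ LT R T t δ1 z1 ∧ LT R T t [Y] y' ∧
      LT R T t δ2 z2 ∧ y = z1 ++ (y' ++ z2) ∧ m ∈ y' := by
  intro β
  induction β with
  | nil => intro y h hm; rw [LT_nil] at h; subst h; simp at hm
  | cons X β ih =>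
    intro y h hm
    rw [LT_cons] at h
    obtain ⟨z1, z2, h1, h2, rfl⟩ := h
    rw [List.mem_append] at hm
    rcases hm with hm | hm
    · exact ⟨[], X, β, [], z1, z2, rfl, LT_nil.2 rfl, h1, h2, by simp, hm⟩
    · obtain ⟨δ1, Y, δ2, y1, y', y2, e1, g1, g2, g3, e2, hc⟩ := ih h2 hm
      exact ⟨X :: δ1, Y, δ2, z1 ++ y1, y', y2, by simp [e1], LT_cons.2 ⟨z1, y1, h1, g1, rfl⟩,
        g2, g3, by simp [e2], hc⟩

lemma word_bound [DecidableEq α] {σ : α} {B t : ℕ} : ∀ {δ z : List α},
    (∀ W ∈ δ, ∀ z, LT R T t [W] z → z.count σ ≤ B) → LT R T t δ z →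
    z.count σ ≤ δ.length * B := by
  intro δ
  induction δ with
  | nil => intro z _ h; rw [LT_nil] at h; subst h; simp
  | cons X δ ih =>
    intro z h1 h2
    rw [LT_cons] at h2
    obtain ⟨z1, z2, h3, h4, rfl⟩ := h2
    have a1 := h1 X (by simp) z1 h3
    have a2 := ih (fun W hW => h1 W (by simp [hW])) h4
    rw [List.count_append, List.length_cons]
    calc z1.count σ + z2.count σ ≤ B + δ.length * B := by omega
      _ = (δ.length + 1) * B := by ring

namespace EC

variable (C : EC R T)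

/-- uniform bound for the bounded classes -/
lemma exists_bound [DecidableEq α] (σ : α) : ∃ B1 : ℕ, ∀ W ∈ C.V, ∀ e, C.t0 ≤ e →
    ¬ C.Unb σ e W → ∀ z, LT R T e [W] z → z.count σ ≤ B1 := by
  classical
  have h1 : ∀ q : α × ℕ, ∃ B : ℕ, ∀ e, C.t0 ≤ e → e % C.p = q.2 → ¬ C.Unb σ e q.1 →
      ∀ z, LT R T e [q.1] z → z.count σ ≤ B := by
    intro q
    by_cases h : ∃ e, C.t0 ≤ e ∧ e % C.p = q.2 ∧ ¬ C.Unb σ e q.1
    · obtain ⟨e, _, he2, he3⟩ := h
      unfold Unb at he3
      push Not at he3
      obtain ⟨B, hB⟩ := he3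
      exact ⟨B, fun e' he' hm _ z hz => hB e' he' (hm.trans he2.symm) z hz⟩
    · push Not at h
      exact ⟨0, fun e he hm hn => absurd (h e he hm) hn⟩
  choose b hb using h1
  refine ⟨∑ q ∈ C.V ×ˢ Finset.range C.p, b q, ?_⟩
  intro W hW e he hn z hz
  have h2 := hb (W, e % C.p) e he rfl hn z hz
  have h3 : b (W, e % C.p) ≤ ∑ q ∈ C.V ×ˢ Finset.range C.p, b q :=
    Finset.single_le_sum (f := b) (fun _ _ => Nat.zero_le _)
      (by simp [hW, Nat.mod_lt _ C.hp])
  omega

/-- on the path to the marker there is a sibling with unbounded growth -/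
def StrR [DecidableEq α] (m σ : α) (t : ℕ) (X : α) : Prop :=
  ∃ (l : List (Stp α)) (s : Stp α) (e : ℕ), C.t0 ≤ e ∧ IsPath R T e X (l ++ [s]) s.2.1 ∧
    Has R T m e s.2.1 ∧ (∃ W ∈ s.1 ++ s.2.2, C.Unb σ e W) ∧ t = e + l.length + 1

/-- on the path to the marker there is an active loop -/
def StrL (m σ : α) (t : ℕ) (X : α) : Prop :=
  ∃ (l1 : List (Stp α)) (s : Stp α) (l2 : List (Stp α)) (Z : α) (e : ℕ), C.t0 ≤ e ∧
    C.p ∣ (l2.length + 1) ∧ IsPath R T (e + (l2.length + 1)) X l1 Z ∧
    IsPath R T e Z (s :: l2) Z ∧ (∃ W ∈ s.1 ++ s.2.2, Has R T σ (e + l2.length) W) ∧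
    Has R T m e Z ∧ t = l1.length + (l2.length + 1) + e

lemma StrL_step {m σ : α} {t : ℕ} {X : α} {s : Stp α} (hR : R X (s.1 ++ s.2.1 :: s.2.2))
    (hs : ∀ W ∈ s.1 ++ s.2.2, NE R T t W) (h : C.StrL m σ t s.2.1) : C.StrL m σ (t + 1) X := by
  obtain ⟨l1, s', l2, Z, e, g1, g2, g3, g4, g5, g6, g7⟩ := h
  refine ⟨s :: l1, s', l2, Z, e, g1, g2, ⟨hR, ?_, g3⟩, g4, g5, g6, ?_⟩
  · intro W hW
    have := hs W hW
    rw [g7] at this
    have e1 : e + (l2.length + 1) + l1.length = l1.length + (l2.length + 1) + e := by ring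
    rw [e1]
    exact this
  · rw [g7]; simp; ring

lemma StrR_step [DecidableEq α] {m σ : α} {t : ℕ} {X : α} {s : Stp α}
    (hR : R X (s.1 ++ s.2.1 :: s.2.2))
    (hs : ∀ W ∈ s.1 ++ s.2.2, NE R T t W) (h : C.StrR m σ t s.2.1) : C.StrR m σ (t + 1) X := by
  obtain ⟨l, s', e, g1, g2, g3, g4, g5⟩ := h
  refine ⟨s :: l, s', e, g1, ⟨hR, ?_, g2⟩, g3, g4, ?_⟩
  · intro W hW
    have := hs W hW
    rw [g5] at this
    have e1 : e + (l ++ [s']).length = e + l.length + 1 := by simp; ring
    change NE R T (e + (l ++ [s']).length) W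
    rw [e1]
    exact this
  · rw [g5]; simp; ring

lemma marker [DecidableEq α] {m σ : α} {B1 : ℕ} (hB1 : ∀ W ∈ C.V, ∀ e, C.t0 ≤ e →
      ¬ C.Unb σ e W → ∀ z, LT R T e [W] z → z.count σ ≤ B1) :
    ∀ (k : ℕ) (X : α) (y : List α), X ∈ C.V → LT R T (C.t0 + k) [X] y → m ∈ y →
    C.StrR m σ (C.t0 + k) X ∨ C.StrL m σ (C.t0 + k) X ∨
    ∃ s : Finset (α × ℕ), s ⊆ C.V ×ˢ Finset.range C.p ∧
      y.count σ ≤ C.D ^ C.t0 + C.D * B1 * s.card ∧
      ∀ q ∈ s, ∃ (l : List (Stp α)) (τ : ℕ), C.t0 ≤ τ ∧ C.t0 + k = τ + l.length ∧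
        IsPath R T τ X l q.1 ∧ τ % C.p = q.2 ∧ Has R T m τ q.1 := by
  intro k
  induction k with
  | zero =>
    intro X z hX hz _
    right; right
    refine ⟨∅, by simp, ?_, by simp⟩
    have h1 := C.length_le hz
    have h2 := List.count_le_length (a := σ) (l := z)
    simp at h1 ⊢
    omega
  | succ k ih =>
    intro X z hX hz hm
    have e : C.t0 + (k + 1) = C.t0 + k + 1 := by ring
    rw [e] at hz ⊢
    have hz0 := hz
    rw [LT_single_succ] at hz
    obtain ⟨β, hR, hβ⟩ := hz
    obtain ⟨δ1, Y, δ2, z1, y, z2, rfl, g1, g2, g3, rfl, hmy⟩ := child_with hβ hm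
    have hY : Y ∈ C.V := C.hV _ _ hR _ (by simp)
    have hDlen : (δ1 ++ Y :: δ2).length ≤ C.D := C.hD _ _ hR
    have hne : ∀ W ∈ δ1 ++ δ2, NE R T (C.t0 + k) W := by
      intro W hW
      have h := NE_word.1 ⟨_, hβ⟩
      apply h
      rw [List.mem_append] at hW
      rcases hW with hW | hW <;> simp [hW]
    by_cases hU : ∃ W ∈ δ1 ++ δ2, C.Unb σ (C.t0 + k) W
    · -- immediate unbounded sibling
      left
      refine ⟨[], (δ1, Y, δ2), C.t0 + k, by omega, ⟨hR, ?_, rfl⟩, ⟨y, g2, hmy⟩, hU, by simp⟩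
      intro W hW
      simpa using hne W hW
    · push Not at hU
      have hs1 : z1.count σ ≤ δ1.length * B1 := by
        apply word_bound _ g1
        intro W hW z hz
        exact hB1 W (C.hV _ _ hR _ (by simp [hW])) _ (by omega) (hU W (by simp [hW])) z hz
      have hs2 : z2.count σ ≤ δ2.length * B1 := by
        apply word_bound _ g3
        intro W hW z hz
        exact hB1 W (C.hV _ _ hR _ (by simp [hW])) _ (by omega) (hU W (by simp [hW])) z hz
      rcases ih Y y hY g2 hmy with hL | hL | ⟨s, hs1', hs2', hs3⟩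
      · left
        exact C.StrR_step (s := (δ1, Y, δ2)) hR hne hL
      · right; left
        exact C.StrL_step (s := (δ1, Y, δ2)) hR hne hL
      · have ext : ∀ q ∈ s, ∃ (l : List (Stp α)) (τ : ℕ), C.t0 ≤ τ ∧
            C.t0 + k + 1 = τ + l.length ∧
            IsPath R T τ X l q.1 ∧ τ % C.p = q.2 ∧ Has R T m τ q.1 := by
          intro q hq
          obtain ⟨l, τ, k1, k2, k3, k4, k5⟩ := hs3 q hq
          refine ⟨(δ1, Y, δ2) :: l, τ, k1, by simp; omega, ⟨hR, ?_, k3⟩, k4, k5⟩
          intro W hW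
          rw [← k2]
          exact hne W hW
        by_cases hact : (z1 ++ z2).count σ = 0
        · right; right
          refine ⟨s, hs1', ?_, ext⟩
          rw [List.count_append] at hact
          rw [List.count_append, List.count_append]
          omega
        · have hmem : σ ∈ z1 ++ z2 := by
            rw [← List.count_pos_iff]; omega
          have hHas : ∃ W ∈ δ1 ++ δ2, Has R T σ (C.t0 + k) W := by
            rw [List.mem_append] at hmem
            rcases hmem with h | h
            · obtain ⟨W, hW, hW2⟩ := (Has_word.1 ⟨z1, g1, h⟩).2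
              exact ⟨W, by simp [hW], hW2⟩
            · obtain ⟨W, hW, hW2⟩ := (Has_word.1 ⟨z2, g3, h⟩).2
              exact ⟨W, by simp [hW], hW2⟩
          by_cases hin : (X, (C.t0 + k + 1) % C.p) ∈ s
          · right; left
            obtain ⟨l, τ, k1, k2, k3, k4, k5⟩ := hs3 _ hin
            simp only at k3 k4 k5
            refine ⟨[], (δ1, Y, δ2), l, X, τ, k1, ?_, rfl, ⟨hR, ?_, k3⟩, ?_, k5, ?_⟩
            · have hle : τ ≤ C.t0 + k + 1 := by omega
              have := (Nat.modEq_iff_dvd' hle).1 k4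
              have e2 : C.t0 + k + 1 - τ = l.length + 1 := by omega
              rwa [e2] at this
            · intro W hW
              rw [← k2]
              exact hne W hW
            · rw [← k2]
              exact hHas
            · simp; omega
          · right; right
            refine ⟨insert (X, (C.t0 + k + 1) % C.p) s, ?_, ?_, ?_⟩
            · intro q hq
              rw [Finset.mem_insert] at hq
              rcases hq with rfl | hq
              · simp [hX, Nat.mod_lt _ C.hp]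
              · exact hs1' hq
            · rw [Finset.card_insert_of_notMem hin]
              have h5 : (δ1.length + δ2.length) * B1 ≤ C.D * B1 := by
                apply Nat.mul_le_mul_right
                simp at hDlen
                omega
              have h6 : (δ1.length + δ2.length) * B1 = δ1.length * B1 + δ2.length * B1 := by ring
              have h7 : C.D * B1 * (s.card + 1) = C.D * B1 * s.card + C.D * B1 := by ring
              rw [List.count_append, List.count_append, h7]
              omega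
            · intro q hq
              rw [Finset.mem_insert] at hq
              rcases hq with rfl | hq
              · exact ⟨[], C.t0 + k + 1, by omega, by simp, rfl, rfl, ⟨_, hz0, hm⟩⟩
              · exact ext q hq

/-- many letters `σ` force one of the two structures on the path to the marker -/
theorem marker_main [DecidableEq α] (m σ : α) : ∃ B : ℕ, ∀ (t : ℕ) (X : α) (y : List α),
    C.t0 ≤ t → X ∈ C.V → LT R T t [X] y → m ∈ y → B < y.count σ →
    C.StrR m σ t X ∨ C.StrL m σ t X := by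
  obtain ⟨B1, hB1⟩ := C.exists_bound σ
  refine ⟨C.D ^ C.t0 + C.D * B1 * (C.V.card * C.p), ?_⟩
  intro t X y ht hX hy hm hB
  obtain ⟨k, rfl⟩ := Nat.exists_eq_add_of_le ht
  rcases C.marker (m := m) hB1 k X y hX hy hm with h | h | ⟨s, hs1, hs2, _⟩
  · exact Or.inl h
  · exact Or.inr h
  · exfalso
    have hcard : s.card ≤ C.V.card * C.p := by
      have := Finset.card_le_card hs1
      rwa [Finset.card_product, Finset.card_range] at this
    have h3 := Nat.mul_le_mul_left (C.D * B1) hcard
    omega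

end EC

end Pool.Agent.EOLForms
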