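import Pool.Agent.EOLForms.Reg

/-! Symbols not deriving self-embedding symbols generate regular languages. -/

namespace Pool.Agent.EOLForms

variable {α : Type*} {R : α → List α → Prop} {T : α → Prop}

/-- the language of a word -/
def Lg (R : α → List α → Prop) (T : α → Prop) (x : List α) : Set (List α) := {z | Yl R T x z}

/-- context-free data -/
structure CFD (R : α → List α → Prop) (T : α → Prop) where
  V : Finset α
  hV : ∀ X y, R X y → ∀ Y ∈ y, Y ∈ V
  D : ℕ
  hD1 : 1 ≤ D
  hD : ∀ X y, R X y → y.length ≤ D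
  hcf : ∀ a β, T a → ¬ R a β

/-- `B` is reachable from `A` in a terminal context -/
def Reach (R : α → List α → Prop) (T : α → Prop) (A B : α) : Prop := ∃ u v, Ctx R T A B u v

/-- productive self-embedding symbols -/
def SE (R : α → List α → Prop) (T : α → Prop) (E : α) : Prop :=
  (∃ w, Yl R T [E] w) ∧ ∃ u v, Ctx R T E E u v ∧ u ≠ [] ∧ v ≠ []

lemma Reach.refl (A : α) : Reach R T A A := ⟨[], [], Ctx.refl A⟩

lemma Reach.trans {A B C : α} (h1 : Reach R T A B) (h2 : Reach R T B C) : Reach R T A C := by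
  obtain ⟨u, v, h1⟩ := h1
  obtain ⟨u', v', h2⟩ := h2
  exact ⟨_, _, h1.trans h2⟩

lemma Lg_append (x1 x2 : List α) : Lg R T (x1 ++ x2) = prodL (Lg R T x1) (Lg R T x2) := by
  ext z
  constructor
  · intro h
    obtain ⟨z1, z2, h1, h2, rfl⟩ := Yl_append.1 h
    exact ⟨z1, h1, z2, h2, rfl⟩
  · rintro ⟨z1, h1, z2, h2, rfl⟩
    exact Yl_append.2 ⟨z1, z2, h1, h2, rfl⟩

lemma Lg_nil : Lg R T [] = {[]} := by
  ext z
  exact Yl_nil

lemma Rg_word {x : List α} (h : ∀ X ∈ x, Rg (Lg R T [X])) : Rg (Lg R T x) := by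
  induction x with
  | nil => rw [Lg_nil]; exact Rg_nil
  | cons X x ih =>
    have e : X :: x = [X] ++ x := rfl
    rw [e, Lg_append]
    exact Rg_prod (h X (by simp)) (ih fun Y hY => h Y (by simp [hY]))

lemma exists_first (p : α → Prop) : ∀ {β : List α}, (∃ X ∈ β, p X) →
    ∃ β1 X β2, β = β1 ++ X :: β2 ∧ p X ∧ ∀ Y ∈ β1, ¬ p Y := by
  intro β
  induction β with
  | nil => simp
  | cons a β ih =>
    intro h
    by_cases ha : p a
    · exact ⟨[], a, β, rfl, ha, by simp⟩
    · obtain ⟨X, hX, hpX⟩ := h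
      rw [List.mem_cons] at hX
      rcases hX with rfl | hX
      · exact absurd hpX ha
      · obtain ⟨β1, Y, β2, h1, h2, h3⟩ := ih ⟨X, hX, hpX⟩
        refine ⟨a :: β1, Y, β2, by rw [h1]; rfl, h2, ?_⟩
        intro Z hZ
        rw [List.mem_cons] at hZ
        rcases hZ with rfl | hZ
        · exact ha
        · exact h3 Z hZ

lemma exists_last (p : α → Prop) {β : List α} (h : ∃ X ∈ β, p X) :
    ∃ β1 X β2, β = β1 ++ X :: β2 ∧ p X ∧ ∀ Y ∈ β2, ¬ p Y := by
  obtain ⟨X, hX, hpX⟩ := h
  obtain ⟨β1, Y, β2, h1, h2, h3⟩ := exists_first p (β := β.reverse)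
    ⟨X, by simpa using hX, hpX⟩
  refine ⟨β2.reverse, Y, β1.reverse, ?_, h2, ?_⟩
  · have := congrArg List.reverse h1
    simpa using this
  · intro Z hZ
    exact h3 Z (by simpa using hZ)

namespace CFD

variable (C : CFD R T)

include C in
lemma Lg_term {a : α} (ha : T a) : Lg R T [a] = {[a]} := by
  ext z
  constructor
  · intro h
    exact Yl_of_terminal C.hcf ha h
  · rintro rfl
    exact Yl.term (by simpa using ha)

/-- words over `V` of length at most `D` -/
def Seg : Set (List α) := {l | (∀ x ∈ l, x ∈ C.V) ∧ l.length ≤ C.D}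

lemma Seg_finite : C.Seg.Finite := finite_words C.V.finite_toSet C.D

/-- the regular languages of segments -/
def Ps : Set (Set (List α)) := {P | ∃ l ∈ C.Seg, P = Lg R T l ∧ Rg P}

lemma Ps_finite : C.Ps.Finite := by
  refine (C.Seg_finite.image (Lg R T)).subset ?_
  rintro P ⟨l, hl, rfl, _⟩
  exact ⟨l, hl, rfl⟩

lemma seg_of_rule {X : α} {β1 β β2 : List α} (h : R X (β1 ++ (β ++ β2))) : β ∈ C.Seg := by
  refine ⟨fun Y hY => C.hV _ _ h Y (by simp [hY]), ?_⟩
  have := C.hD _ _ h
  simp only [List.length_append] at this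
  omega

/-- rules of `X` used in a derivation of `z` in at most `t` steps -/
lemma LT_cases {t : ℕ} {X : α} {z : List α} (h : LT (Pl R) T t [X] z) :
    (T X ∧ z = [X]) ∨ ∃ t' < t, ∃ β, R X β ∧ LT (Pl R) T t' β z := by
  induction t with
  | zero =>
    obtain ⟨h1, h2⟩ := h
    simp only [DL] at h1
    subst h1
    exact Or.inl ⟨h2 X (by simp), rfl⟩
  | succ t ih =>
    rw [LT_single_succ] at h
    obtain ⟨β, h1, h2⟩ := h
    rcases h1 with h1 | rfl
    · exact Or.inr ⟨t, by omega, β, h1, h2⟩
    · rcases ih h2 with h3 | ⟨t', ht', β, h3, h4⟩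
      · exact Or.inl h3
      · exact Or.inr ⟨t', by omega, β, h3, h4⟩

open Classical in
theorem reg_of_nse : ∀ (n : ℕ) (A : α), A ∈ C.V →
    (C.V.filter fun B => Reach R T A B).card ≤ n → (∀ E, Reach R T A E → ¬ SE R T E) →
    Rg (Lg R T [A]) := by
  intro n
  induction n with
  | zero =>
    intro A hA hc _
    exfalso
    have : A ∈ C.V.filter fun B => Reach R T A B := by
      rw [Finset.mem_filter]
      exact ⟨hA, Reach.refl A⟩
    have := Finset.card_pos.2 ⟨A, this⟩
    omega
  | succ n ih =>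
    intro A hA hc hSE
    -- symbols below
    have hlow : ∀ B ∈ C.V, Reach R T A B → ¬ Reach R T B A → Rg (Lg R T [B]) := by
      intro B hB h1 h2
      apply ih B hB _ (fun E hE => hSE E (h1.trans hE))
      have hss : (C.V.filter fun E => Reach R T B E) ⊂ (C.V.filter fun E => Reach R T A E) := by
        rw [Finset.ssubset_iff_of_subset]
        · refine ⟨A, ?_, ?_⟩
          · rw [Finset.mem_filter]; exact ⟨hA, Reach.refl A⟩
          · rw [Finset.mem_filter]; exact fun h => h2 h.2
        · intro E hE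
          rw [Finset.mem_filter] at hE ⊢
          exact ⟨hE.1, h1.trans hE.2⟩
      have := Finset.card_lt_card hss
      omega
    by_cases hprod : ∃ w, Yl R T [A] w
    swap
    · have e : Lg R T [A] = ∅ := by
        ext z
        constructor
        · intro h; exact absurd ⟨z, h⟩ hprod
        · intro h; exact absurd h (by simp)
      rw [e]
      exact Rg_empty
    -- the component of `A`
    let I := {B // B ∈ C.V ∧ Reach R T A B ∧ Reach R T B A}
    have hIfin : Finite I := by
      have : ({B | B ∈ C.V ∧ Reach R T A B ∧ Reach R T B A} : Set α).Finite :=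
        C.V.finite_toSet.subset fun B hB => hB.1
      exact this
    let iA : I := ⟨A, hA, Reach.refl A, Reach.refl A⟩
    -- dichotomy
    have hdich : (∀ B B' : I, ∀ u v, Ctx R T B.1 B'.1 u v → v = []) ∨
        (∀ B B' : I, ∀ u v, Ctx R T B.1 B'.1 u v → u = []) := by
      by_contra hno
      push Not at hno
      obtain ⟨⟨B1, B1', u1, v1, h1, hv1⟩, ⟨B2, B2', u2, v2, h2, hu2⟩⟩ := hno
      obtain ⟨a1, a2, k1⟩ := B1.2.2.1
      obtain ⟨b1, b2, k2⟩ := B1'.2.2.2
      obtain ⟨c1, c2, k3⟩ := B2.2.2.1
      obtain ⟨d1, d2, k4⟩ := B2'.2.2.2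
      have h3 := (k1.trans (h1.trans k2)).trans (k3.trans (h2.trans k4))
      refine hSE A (Reach.refl A) ⟨hprod, _, _, h3, ?_, ?_⟩
      · intro h0
        simp only [List.append_eq_nil_iff] at h0
        tauto
      · intro h0
        simp only [List.append_eq_nil_iff] at h0
        tauto
    -- regularity of segments without component symbols
    have hseg : ∀ (B : I) (β1 β β2 z1 z z2 : List α), R B.1 (β1 ++ (β ++ β2)) →
        Yl R T β1 z1 → Yl R T β z → Yl R T β2 z2 →
        (∀ Y ∈ β, ¬ (Reach R T A Y ∧ Reach R T Y A)) → Rg (Lg R T β) := by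
      intro B β1 β β2 z1 z z2 hR h1 h2 h3 hno
      apply Rg_word
      intro Y hY
      have hYV : Y ∈ C.V := C.hV _ _ hR Y (by simp [hY])
      obtain ⟨γ1, γ2, rfl⟩ := List.append_of_mem hY
      obtain ⟨y1, y, y2, k1, k2, k3, rfl⟩ := Yl_mid.1 h2
      have hreach : Reach R T A Y := by
        refine B.2.2.1.trans ⟨z1 ++ y1, y2 ++ z2, ?_⟩
        have hR' : R B.1 ((β1 ++ γ1) ++ Y :: (γ2 ++ β2)) := by
          simpa using hR
        exact Ctx.of_rule hR' (Yl_append.2 ⟨_, _, h1, k1, rfl⟩) (Yl_append.2 ⟨_, _, k3, h3, rfl⟩)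
      exact hlow Y hYV hreach fun h => hno Y hY ⟨hreach, h⟩
    rcases hdich with hd | hd
    · -- right type
      have := sys_reg (ι := I) (fun i t => {z | LT (Pl R) T t [i.1] z}) C.Ps C.Ps_finite
        (by rintro P ⟨_, _, _, h⟩; exact h) (by
          rintro i t z hz
          rcases LT_cases hz with ⟨h1, rfl⟩ | ⟨t', ht', β, hR, hβ⟩
          · left
            have e := C.Lg_term h1
            refine ⟨Lg R T [i.1], ⟨[i.1], ⟨by simpa using i.2.1, by simpa using C.hD1⟩, rfl, ?_⟩,
              ?_, fun y hy => hy⟩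
            · rw [e]; exact Rg_single _
            · rw [e]; rfl
          · by_cases hC : ∃ Y ∈ β, Reach R T A Y ∧ Reach R T Y A
            · right
              obtain ⟨β1, X, β2, rfl, hX, hβ1⟩ := exists_first _ hC
              obtain ⟨z1, y, z2, g1, g2, g3, rfl⟩ := LT_mid.1 hβ
              have hXV : X ∈ C.V := C.hV _ _ hR X (by simp)
              have hz2 : z2 = [] := hd i ⟨X, hXV, hX⟩ z1 z2 (Ctx.of_rule hR ⟨_, g1⟩ ⟨_, g3⟩)
              subst hz2
              refine ⟨Lg R T β1, ⟨β1, C.seg_of_rule (β1 := []) (β2 := X :: β2) (by simpa using hR),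
                rfl, ?_⟩, ⟨X, hXV, hX⟩, t', ht', z1, ⟨_, g1⟩, y, g2, by simp, ?_⟩
              · exact hseg i [] β1 (X :: β2) [] z1 (y ++ []) (by simpa using hR) (Yl_nil.2 rfl)
                  ⟨_, g1⟩ (Yl_cons.2 ⟨y, [], ⟨_, g2⟩, ⟨_, g3⟩, rfl⟩) hβ1
              · intro p' hp' l' hl'
                have : Yl R T (β1 ++ X :: β2) (p' ++ (l' ++ [])) :=
                  Yl_mid.2 ⟨p', l', [], hp', hl', ⟨_, g3⟩, rfl⟩
                obtain ⟨t'', h6⟩ := (Der.single hR).yl this
                refine ⟨t'', ?_⟩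
                show LT (Pl R) T t'' [i.1] (p' ++ l')
                simpa using h6
            · left
              push Not at hC
              have hC' : ∀ Y ∈ β, ¬ (Reach R T A Y ∧ Reach R T Y A) := by
                intro Y hY h
                exact hC Y hY h.1 h.2
              refine ⟨Lg R T β, ⟨β, C.seg_of_rule (β1 := []) (β2 := []) (by simpa using hR), rfl,
                ?_⟩, ⟨_, hβ⟩, fun y hy => (Der.single hR).yl hy⟩
              exact hseg i [] β [] [] z [] (by simpa using hR) (Yl_nil.2 rfl) ⟨_, hβ⟩ (Yl_nil.2 rfl)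
                hC') iA
      exact this
    · -- left type
      have := sys_reg (ι := I) (fun i t => {z | LT (Pl R) T t [i.1] z.reverse})
        (revL '' C.Ps) (C.Ps_finite.image _)
        (by rintro P ⟨Q, ⟨_, _, _, h⟩, rfl⟩; exact Rg_rev h) (by
          rintro i t z hz
          rcases LT_cases hz with ⟨h1, hz1⟩ | ⟨t', ht', β, hR, hβ⟩
          · left
            have e := C.Lg_term h1
            refine ⟨revL (Lg R T [i.1]), ⟨_, ⟨[i.1], ⟨by simpa using i.2.1,
              by simpa using C.hD1⟩, rfl, ?_⟩, rfl⟩, ?_, fun y hy => hy⟩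
            · rw [e]; exact Rg_single _
            · rw [e]; exact hz1
          · by_cases hC : ∃ Y ∈ β, Reach R T A Y ∧ Reach R T Y A
            · right
              obtain ⟨β1, X, β2, rfl, hX, hβ2⟩ := exists_last _ hC
              obtain ⟨z1, y, z2, g1, g2, g3, hzz⟩ := LT_mid.1 hβ
              have hXV : X ∈ C.V := C.hV _ _ hR X (by simp)
              have hz1 : z1 = [] := hd i ⟨X, hXV, hX⟩ z1 z2 (Ctx.of_rule hR ⟨_, g1⟩ ⟨_, g3⟩)
              subst hz1
              refine ⟨revL (Lg R T β2), ⟨_, ⟨β2, C.seg_of_rule (β1 := β1 ++ [X]) (β2 := [])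
                (by simpa using hR), rfl, ?_⟩, rfl⟩, ⟨X, hXV, hX⟩, t', ht', z2.reverse, ?_,
                y.reverse, ?_, ?_, ?_⟩
              · exact hseg i (β1 ++ [X]) β2 [] ([] ++ y) z2 [] (by simpa using hR)
                  (Yl_append.2 ⟨_, _, ⟨_, g1⟩, ⟨_, g2⟩, rfl⟩)
                  ⟨_, g3⟩ (Yl_nil.2 rfl) hβ2
              · show Yl R T β2 z2.reverse.reverse
                rw [List.reverse_reverse]
                exact ⟨_, g3⟩
              · show LT (Pl R) T t' [X] y.reverse.reverse
                rw [List.reverse_reverse]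
                exact g2
              · have := congrArg List.reverse hzz
                simpa using this
              · intro p' hp' l' hl'
                have : Yl R T (β1 ++ X :: β2) ([] ++ (l'.reverse ++ p'.reverse)) :=
                  Yl_mid.2 ⟨[], l'.reverse, p'.reverse, ⟨_, g1⟩, hl', hp', rfl⟩
                have h5 := (Der.single hR).yl this
                obtain ⟨t'', h6⟩ := h5
                refine ⟨t'', ?_⟩
                show LT (Pl R) T t'' [i.1] (p' ++ l').reverse
                simpa using h6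
            · left
              push Not at hC
              have hC' : ∀ Y ∈ β, ¬ (Reach R T A Y ∧ Reach R T Y A) := by
                intro Y hY h
                exact hC Y hY h.1 h.2
              refine ⟨revL (Lg R T β), ⟨_, ⟨β, C.seg_of_rule (β1 := []) (β2 := [])
                (by simpa using hR), rfl, ?_⟩, rfl⟩, ⟨_, hβ⟩, fun y hy => (Der.single hR).yl hy⟩
              exact hseg i [] β [] [] z.reverse [] (by simpa using hR) (Yl_nil.2 rfl) ⟨_, hβ⟩
                (Yl_nil.2 rfl) hC') iA
      have h2 := Rg_rev this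
      have e : revL {z | ∃ t, z ∈ ({z | LT (Pl R) T t [iA.1] z.reverse} : Set (List α))} =
          Lg R T [A] := by
        ext z
        show (∃ t, LT (Pl R) T t [A] z.reverse.reverse) ↔ _
        rw [List.reverse_reverse]
        rfl
      rw [e] at h2
      exact h2

end CFD

end Pool.Agent.EOLForms
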