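import Pool.Agent.EOLForms.Defs

/-! Parallel derivations over an arbitrary type of symbols. -/

namespace Pool.Agent.EOLForms

variable {α : Type*} {β : Type*}

/-- one parallel step -/
def PStep (R : α → List α → Prop) (x y : List α) : Prop :=
  ∃ L : List (List α), List.Forall₂ R x L ∧ y = L.flatten

/-- derivation in exactly `t` parallel steps -/
def DL (R : α → List α → Prop) : ℕ → List α → List α → Prop
  | 0, x, z => z = x
  | t + 1, x, z => ∃ y, PStep R x y ∧ DL R t y z

variable {R : α → List α → Prop}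

lemma PStep_nil {y : List α} : PStep R [] y ↔ y = [] := by
  constructor
  · rintro ⟨L, h, rfl⟩
    cases h
    rfl
  · rintro rfl
    exact ⟨[], List.Forall₂.nil, rfl⟩

lemma PStep_cons {X : α} {x y : List α} :
    PStep R (X :: x) y ↔ ∃ y1 y2, R X y1 ∧ PStep R x y2 ∧ y = y1 ++ y2 := by
  constructor
  · rintro ⟨L, h, rfl⟩
    cases h with
    | cons h1 h2 => exact ⟨_, _, h1, ⟨_, h2, rfl⟩, by simp⟩
  · rintro ⟨y1, y2, h1, ⟨L, h2, rfl⟩, rfl⟩
    exact ⟨y1 :: L, List.Forall₂.cons h1 h2, by simp⟩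

lemma PStep_singleton {X : α} {y : List α} : PStep R [X] y ↔ R X y := by
  rw [PStep_cons]
  constructor
  · rintro ⟨y1, y2, h1, h2, rfl⟩
    rw [PStep_nil] at h2
    subst h2
    simpa using h1
  · intro h
    exact ⟨y, [], h, PStep_nil.2 rfl, by simp⟩

lemma PStep_append {x1 x2 y : List α} :
    PStep R (x1 ++ x2) y ↔ ∃ y1 y2, PStep R x1 y1 ∧ PStep R x2 y2 ∧ y = y1 ++ y2 := by
  induction x1 generalizing y with
  | nil =>
    simp only [List.nil_append]
    constructor
    · intro h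
      exact ⟨[], y, PStep_nil.2 rfl, h, rfl⟩
    · rintro ⟨y1, y2, h1, h2, rfl⟩
      rw [PStep_nil] at h1
      subst h1
      exact h2
  | cons X x1 ih =>
    rw [List.cons_append, PStep_cons]
    constructor
    · rintro ⟨y1, y2, h1, h2, rfl⟩
      rw [ih] at h2
      obtain ⟨y3, y4, h3, h4, rfl⟩ := h2
      exact ⟨y1 ++ y3, y4, PStep_cons.2 ⟨y1, y3, h1, h3, rfl⟩, h4, by simp⟩
    · rintro ⟨y1, y2, h1, h2, rfl⟩
      rw [PStep_cons] at h1
      obtain ⟨y3, y4, h3, h4, rfl⟩ := h1
      exact ⟨y3, y4 ++ y2, h3, ih.2 ⟨y4, y2, h4, h2, rfl⟩, by simp⟩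

lemma DL_nil {t : ℕ} {z : List α} : DL R t [] z ↔ z = [] := by
  induction t with
  | zero => rfl
  | succ t ih =>
    simp only [DL, PStep_nil]
    constructor
    · rintro ⟨y, rfl, h⟩
      exact ih.1 h
    · intro h
      exact ⟨[], rfl, ih.2 h⟩

lemma DL_append {t : ℕ} {x1 x2 z : List α} :
    DL R t (x1 ++ x2) z ↔ ∃ z1 z2, DL R t x1 z1 ∧ DL R t x2 z2 ∧ z = z1 ++ z2 := by
  induction t generalizing x1 x2 with
  | zero =>
    simp only [DL]
    constructor
    · rintro rfl
      exact ⟨x1, x2, rfl, rfl, rfl⟩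
    · rintro ⟨z1, z2, rfl, rfl, rfl⟩
      rfl
  | succ t ih =>
    simp only [DL]
    constructor
    · rintro ⟨y, h1, h2⟩
      rw [PStep_append] at h1
      obtain ⟨y1, y2, h3, h4, rfl⟩ := h1
      rw [ih] at h2
      obtain ⟨z1, z2, h5, h6, rfl⟩ := h2
      exact ⟨z1, z2, ⟨y1, h3, h5⟩, ⟨y2, h4, h6⟩, rfl⟩
    · rintro ⟨z1, z2, ⟨y1, h3, h5⟩, ⟨y2, h4, h6⟩, rfl⟩
      exact ⟨y1 ++ y2, PStep_append.2 ⟨y1, y2, h3, h4, rfl⟩, ih.2 ⟨z1, z2, h5, h6, rfl⟩⟩

lemma DL_single_succ {t : ℕ} {X : α} {z : List α} :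
    DL R (t + 1) [X] z ↔ ∃ y, R X y ∧ DL R t y z := by
  simp only [DL, PStep_singleton]

lemma DL_cons {t : ℕ} {X : α} {x z : List α} :
    DL R t (X :: x) z ↔ ∃ z1 z2, DL R t [X] z1 ∧ DL R t x z2 ∧ z = z1 ++ z2 := by
  have : X :: x = [X] ++ x := rfl
  rw [this, DL_append]

/-- splitting at a designated symbol -/
lemma DL_mid {t : ℕ} {x1 x2 z : List α} {X : α} :
    DL R t (x1 ++ X :: x2) z ↔ ∃ z1 y z2, DL R t x1 z1 ∧ DL R t [X] y ∧ DL R t x2 z2 ∧
      z = z1 ++ (y ++ z2) := by
  rw [DL_append]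
  constructor
  · rintro ⟨z1, z2, h1, h2, rfl⟩
    rw [DL_cons] at h2
    obtain ⟨y, z3, h3, h4, rfl⟩ := h2
    exact ⟨z1, y, z3, h1, h3, h4, rfl⟩
  · rintro ⟨z1, y, z2, h1, h3, h4, rfl⟩
    exact ⟨z1, y ++ z2, h1, DL_cons.2 ⟨y, z2, h3, h4, rfl⟩, rfl⟩

lemma DL_trans {s t : ℕ} {x y z : List α} (h1 : DL R s x y) (h2 : DL R t y z) :
    DL R (s + t) x z := by
  induction s generalizing x with
  | zero =>
    simp only [DL] at h1
    subst h1
    simpa using h2
  | succ s ih =>
    obtain ⟨w, h3, h4⟩ := h1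
    have e : s + 1 + t = (s + t) + 1 := by ring
    rw [e]
    exact ⟨w, h3, ih h4⟩

lemma DL_split {s t : ℕ} {x z : List α} (h : DL R (s + t) x z) :
    ∃ y, DL R s x y ∧ DL R t y z := by
  induction s generalizing x with
  | zero => exact ⟨x, rfl, by simpa using h⟩
  | succ s ih =>
    have e : s + 1 + t = (s + t) + 1 := by ring
    rw [e] at h
    obtain ⟨w, h3, h4⟩ := h
    obtain ⟨y, h5, h6⟩ := ih h4
    exact ⟨y, ⟨w, h3, h5⟩, h6⟩

lemma DL_iff_reflTransGen {x z : List α} :
    Relation.ReflTransGen (PStep R) x z ↔ ∃ t, DL R t x z := by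
  constructor
  · intro h
    induction h using Relation.ReflTransGen.head_induction_on with
    | refl => exact ⟨0, rfl⟩
    | head h1 _ ih =>
      obtain ⟨t, ht⟩ := ih
      exact ⟨t + 1, _, h1, ht⟩
  · rintro ⟨t, ht⟩
    induction t generalizing x with
    | zero => simp only [DL] at ht; subst ht; exact Relation.ReflTransGen.refl
    | succ t ih =>
      obtain ⟨y, h1, h2⟩ := ht
      exact Relation.ReflTransGen.head h1 (ih h2)

/-- symbols of derived words stay in a closed set -/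
lemma DL_closed {V : Set α} (hV : ∀ X y, R X y → ∀ Y ∈ y, Y ∈ V) {t : ℕ} {x z : List α}
    (hx : ∀ X ∈ x, X ∈ V) (h : DL R t x z) : ∀ X ∈ z, X ∈ V := by
  induction t generalizing x with
  | zero => simp only [DL] at h; subst h; exact hx
  | succ t ih =>
    obtain ⟨y, h1, h2⟩ := h
    apply ih _ h2
    intro Y hY
    obtain ⟨L, hL, rfl⟩ := h1
    rw [List.mem_flatten] at hY
    obtain ⟨l, hl, hYl⟩ := hY
    clear h2
    induction hL with
    | nil => simp at hl
    | cons h3 _ ih2 =>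
      simp at hl
      rcases hl with rfl | hl
      · exact hV _ _ h3 Y hYl
      · exact ih2 (fun X hX => hx X (by simp [hX])) hl

/-- length bound -/
lemma DL_length {D : ℕ} (hD : ∀ X y, R X y → y.length ≤ D) {t : ℕ} {x z : List α}
    (h : DL R t x z) : z.length ≤ x.length * D ^ t := by
  induction t generalizing x with
  | zero => simp only [DL] at h; subst h; simp
  | succ t ih =>
    obtain ⟨y, h1, h2⟩ := h
    have h3 := ih h2
    have h4 : y.length ≤ x.length * D := by
      obtain ⟨L, hL, rfl⟩ := h1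
      clear h2 h3
      induction hL with
      | nil => simp
      | @cons a b l1 l2 h5 _ ih2 =>
        have := hD _ _ h5
        simp only [List.flatten_cons, List.length_append, List.length_cons]
        have e : (l1.length + 1) * D = D + l1.length * D := by ring
        rw [e]
        omega
    calc z.length ≤ y.length * D ^ t := h3
      _ ≤ (x.length * D) * D ^ t := Nat.mul_le_mul_right _ h4
      _ = x.length * D ^ (t + 1) := by ring

/-- renaming of symbols -/
lemma DL_map {R' : β → List β → Prop} {f : α → β} (h : ∀ X y, R X y → R' (f X) (y.map f))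
    {t : ℕ} {x z : List α} (hd : DL R t x z) : DL R' t (x.map f) (z.map f) := by
  induction t generalizing x with
  | zero => simp only [DL] at hd ⊢; rw [hd]
  | succ t ih =>
    obtain ⟨y, h1, h2⟩ := hd
    refine ⟨y.map f, ?_, ih h2⟩
    obtain ⟨L, hL, rfl⟩ := h1
    refine ⟨L.map (List.map f), ?_, by rw [List.map_flatten]⟩
    clear h2
    induction hL with
    | nil => exact List.Forall₂.nil
    | cons h3 _ ih2 => exact List.Forall₂.cons (h _ _ h3) ih2

/-- derivations from a renamed word are renamed derivations, if the productions of renamed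
symbols are renamed productions -/
lemma DL_map_inv {R' : β → List β → Prop} {f : α → β}
    (h : ∀ X y', R' (f X) y' → ∃ y, R X y ∧ y' = y.map f)
    {t : ℕ} {x : List α} {z' : List β} (hd : DL R' t (x.map f) z') :
    ∃ z, DL R t x z ∧ z' = z.map f := by
  induction t generalizing x with
  | zero => simp only [DL] at hd; exact ⟨x, rfl, hd⟩
  | succ t ih =>
    obtain ⟨y', h1, h2⟩ := hd
    have h3 : ∃ y, PStep R x y ∧ y' = y.map f := by
      clear h2 ih
      induction x generalizing y' with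
      | nil =>
        rw [List.map_nil, PStep_nil] at h1
        exact ⟨[], PStep_nil.2 rfl, by simp [h1]⟩
      | cons X x ih2 =>
        rw [List.map_cons, PStep_cons] at h1
        obtain ⟨y1, y2, h4, h5, rfl⟩ := h1
        obtain ⟨y3, h6, rfl⟩ := h _ _ h4
        obtain ⟨y4, h7, rfl⟩ := ih2 _ h5
        exact ⟨y3 ++ y4, PStep_cons.2 ⟨y3, y4, h6, h7, rfl⟩, by simp⟩
    obtain ⟨y, h4, rfl⟩ := h3
    obtain ⟨z, h5, h6⟩ := ih h2
    exact ⟨z, ⟨y, h4, h5⟩, h6⟩

end Pool.Agent.EOLForms
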