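import Pool.Agent.EOLForms.Period

/-! Paths in derivation trees, loops, and growth along residue classes. -/

namespace Pool.Agent.EOLForms

variable {α : Type*}

/-- a step of a path: left siblings, the child on the path, right siblings -/
abbrev Stp (α : Type*) := List α × α × List α

/-- `l` is a path from `X` to `Z`, where `Z` has `t` remaining steps, all siblings being able to
produce terminal words in the remaining time. -/
def IsPath (R : α → List α → Prop) (T : α → Prop) (t : ℕ) : α → List (Stp α) → α → Prop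
  | X, [], Z => X = Z
  | X, s :: l, Z => R X (s.1 ++ s.2.1 :: s.2.2) ∧
      (∀ W ∈ s.1 ++ s.2.2, NE R T (t + l.length) W) ∧ IsPath R T t s.2.1 l Z

/-- finiteness and periodicity data -/
structure EC (R : α → List α → Prop) (T : α → Prop) where
  V : Finset α
  hV : ∀ X y, R X y → ∀ Y ∈ y, Y ∈ V
  D : ℕ
  hD1 : 1 ≤ D
  hD : ∀ X y, R X y → y.length ≤ D
  t0 : ℕ
  p : ℕ
  hp : 0 < p
  per : ∀ t, t0 ≤ t → ∀ X ∈ V, (NE R T (t + p) X ↔ NE R T t X) ∧
      ∀ σ ∈ V, (Has R T σ (t + p) X ↔ Has R T σ t X)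

variable {R : α → List α → Prop} {T : α → Prop}

lemma IsPath.append {t : ℕ} {X Y Z : α} {l1 l2 : List (Stp α)}
    (h1 : IsPath R T (t + l2.length) X l1 Y) (h2 : IsPath R T t Y l2 Z) :
    IsPath R T t X (l1 ++ l2) Z := by
  induction l1 generalizing X with
  | nil =>
    simp only [IsPath] at h1
    subst h1
    simpa using h2
  | cons s l1 ih =>
    obtain ⟨g1, g2, g3⟩ := h1
    refine ⟨g1, ?_, ih g3⟩
    intro W hW
    have := g2 W hW
    have e : t + (l1 ++ l2).length = t + l2.length + l1.length := by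
      rw [List.length_append]; ring
    change NE R T (t + (l1 ++ l2).length) W
    rw [e]
    exact this

lemma IsPath.split {t : ℕ} {X Z : α} {l1 l2 : List (Stp α)} (h : IsPath R T t X (l1 ++ l2) Z) :
    ∃ Y, IsPath R T (t + l2.length) X l1 Y ∧ IsPath R T t Y l2 Z := by
  induction l1 generalizing X with
  | nil => exact ⟨X, rfl, h⟩
  | cons s l1 ih =>
    obtain ⟨g1, g2, g3⟩ := h
    obtain ⟨Y, h1, h2⟩ := ih g3
    refine ⟨Y, ⟨g1, ?_, h1⟩, h2⟩
    intro W hW
    have : NE R T (t + (l1 ++ l2).length) W := g2 W hW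
    have e : t + (l1 ++ l2).length = t + l2.length + l1.length := by
      rw [List.length_append]; ring
    rw [e] at this
    exact this

/-- yields along a path, with prescribed yields for the siblings of the first step -/
lemma IsPath.yield {t : ℕ} {X Z : α} {l : List (Stp α)} (h : IsPath R T t X l Z) {z : List α}
    (hz : LT R T t [Z] z) : ∃ z1 z2, LT R T (t + l.length) [X] (z1 ++ (z ++ z2)) := by
  induction l generalizing X with
  | nil =>
    simp only [IsPath] at h
    subst h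
    exact ⟨[], [], by simpa using hz⟩
  | cons s l ih =>
    obtain ⟨g1, g2, g3⟩ := h
    obtain ⟨z1, z2, h3⟩ := ih g3
    obtain ⟨y1, hy1⟩ := NE_word.2 (fun W (hW : W ∈ s.1) => g2 W (by simp [hW]))
    obtain ⟨y2, hy2⟩ := NE_word.2 (fun W (hW : W ∈ s.2.2) => g2 W (by simp [hW]))
    refine ⟨y1 ++ z1, z2 ++ y2, ?_⟩
    have e : t + (s :: l).length = t + l.length + 1 := by simp; ring
    rw [e, LT_single_succ]
    refine ⟨_, g1, LT_mid.2 ⟨y1, _, y2, hy1, h3, hy2, by simp⟩⟩

/-- yields along a path whose first step has a sibling able to produce `σ` -/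
lemma IsPath.yield_active {t : ℕ} {X Z : α} {s : Stp α} {l : List (Stp α)}
    (h : IsPath R T t X (s :: l) Z) {z : List α}
    (hz : LT R T t [Z] z) {σ : α} (ha : ∃ W ∈ s.1 ++ s.2.2, Has R T σ (t + l.length) W) :
    ∃ z1 z2, LT R T (t + (l.length + 1)) [X] (z1 ++ (z ++ z2)) ∧ σ ∈ z1 ++ z2 := by
  obtain ⟨g1, g2, g3⟩ := h
  obtain ⟨z1, z2, h3⟩ := g3.yield hz
  have e : t + (l.length + 1) = t + l.length + 1 := by ring
  rw [e]
  obtain ⟨W, hW, hW2⟩ := ha
  rw [List.mem_append] at hW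
  rcases hW with hW | hW
  · obtain ⟨y1, hy1, hσ⟩ := Has_word.2 ⟨fun W (hW : W ∈ s.1) => g2 W (by simp [hW]), W, hW, hW2⟩
    obtain ⟨y2, hy2⟩ := NE_word.2 (fun W (hW : W ∈ s.2.2) => g2 W (by simp [hW]))
    refine ⟨y1 ++ z1, z2 ++ y2, ?_, by simp [hσ]⟩
    rw [LT_single_succ]
    exact ⟨_, g1, LT_mid.2 ⟨y1, _, y2, hy1, h3, hy2, by simp⟩⟩
  · obtain ⟨y1, hy1⟩ := NE_word.2 (fun W (hW : W ∈ s.1) => g2 W (by simp [hW]))
    obtain ⟨y2, hy2, hσ⟩ := Has_word.2 ⟨fun W (hW : W ∈ s.2.2) => g2 W (by simp [hW]), W, hW, hW2⟩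
    refine ⟨y1 ++ z1, z2 ++ y2, ?_, by simp [hσ]⟩
    rw [LT_single_succ]
    exact ⟨_, g1, LT_mid.2 ⟨y1, _, y2, hy1, h3, hy2, by simp⟩⟩

namespace EC

variable (C : EC R T)

lemma per_mul (k : ℕ) {t : ℕ} (ht : C.t0 ≤ t) {X : α} (hX : X ∈ C.V) :
    (NE R T (t + k * C.p) X ↔ NE R T t X) ∧
      ∀ σ ∈ C.V, (Has R T σ (t + k * C.p) X ↔ Has R T σ t X) := by
  induction k with
  | zero => simp
  | succ k ih =>
    have h := C.per (t + k * C.p) (by omega) X hX
    have e : t + (k + 1) * C.p = t + k * C.p + C.p := by ring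
    rw [e]
    exact ⟨h.1.trans ih.1, fun σ hσ => (h.2 σ hσ).trans (ih.2 σ hσ)⟩

lemma per_mod {t t' : ℕ} (ht : C.t0 ≤ t) (ht' : C.t0 ≤ t') (hm : t % C.p = t' % C.p) {X : α}
    (hX : X ∈ C.V) : (NE R T t X ↔ NE R T t' X) ∧
      ∀ σ ∈ C.V, (Has R T σ t X ↔ Has R T σ t' X) := by
  wlog hle : t ≤ t' generalizing t t'
  · have := this ht' ht hm.symm (by omega)
    exact ⟨this.1.symm, fun σ hσ => (this.2 σ hσ).symm⟩
  · have hd : C.p ∣ t' - t := (Nat.modEq_iff_dvd' hle).1 hm
    obtain ⟨k, hk⟩ := hd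
    have e : t' = t + k * C.p := by rw [mul_comm]; omega
    rw [e]
    have := C.per_mul k ht hX
    exact ⟨this.1.symm, fun σ hσ => (this.2 σ hσ).symm⟩

lemma ne_mod {t t' : ℕ} (ht : C.t0 ≤ t) (ht' : C.t0 ≤ t') (hm : t % C.p = t' % C.p) {X : α}
    (hX : X ∈ C.V) (h : NE R T t X) : NE R T t' X := (C.per_mod ht ht' hm hX).1.1 h

lemma has_mod {t t' : ℕ} (ht : C.t0 ≤ t) (ht' : C.t0 ≤ t') (hm : t % C.p = t' % C.p) {X σ : α}
    (hX : X ∈ C.V) (hσ : σ ∈ C.V) (h : Has R T σ t X) : Has R T σ t' X :=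
  ((C.per_mod ht ht' hm hX).2 σ hσ).1 h

lemma mod_add {t t' : ℕ} (hm : t % C.p = t' % C.p) (k : ℕ) : (t + k) % C.p = (t' + k) % C.p := by
  exact Nat.ModEq.add_right k hm

/-- paths can be moved in time inside a residue class -/
lemma path_shift {t t' : ℕ} (ht : C.t0 ≤ t) (ht' : C.t0 ≤ t') (hm : t % C.p = t' % C.p)
    {X Z : α} {l : List (Stp α)} (h : IsPath R T t X l Z) : IsPath R T t' X l Z := by
  induction l generalizing X with
  | nil => exact h
  | cons s l ih =>
    obtain ⟨g1, g2, g3⟩ := h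
    refine ⟨g1, ?_, ih g3⟩
    intro W hW
    refine C.ne_mod (t := t + l.length) (by omega) (by omega) (C.mod_add hm _) ?_ (g2 W hW)
    apply C.hV _ _ g1
    rw [List.mem_append] at hW
    rcases hW with hW | hW
    · simp [hW]
    · simp [hW]

lemma path_end_mem {t : ℕ} {X Z : α} {l : List (Stp α)} (hX : X ∈ C.V)
    (h : IsPath R T t X l Z) : Z ∈ C.V := by
  induction l generalizing X with
  | nil => simp only [IsPath] at h; subst h; exact hX
  | cons s l ih => exact ih (C.hV _ _ h.1 _ (by simp)) h.2.2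

lemma length_le {t : ℕ} {X : α} {z : List α} (h : LT R T t [X] z) : z.length ≤ C.D ^ t := by
  have := DL_length C.hD h.1
  simpa using this

end EC

/-- choice of a heaviest child -/
lemma heaviest [DecidableEq α] (σ : α) {t : ℕ} : ∀ (β z : List α), β ≠ [] → LT R T t β z →
    ∃ δ1 Y δ2 z1 y z2, β = δ1 ++ Y :: δ2 ∧ LT R T t δ1 z1 ∧ LT R T t [Y] y ∧ LT R T t δ2 z2 ∧
      z = z1 ++ (y ++ z2) ∧ z.count σ ≤ β.length * y.count σ := by
  intro β
  induction β with
  | nil => intro z h; exact absurd rfl h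
  | cons X β ih =>
    intro z _ hz
    rw [LT_cons] at hz
    obtain ⟨z1, z2, h1, h2, rfl⟩ := hz
    by_cases hβ : β = []
    · subst hβ
      rw [LT_nil] at h2
      subst h2
      exact ⟨[], X, [], [], z1, [], rfl, LT_nil.2 rfl, h1, LT_nil.2 rfl, by simp, by simp⟩
    · obtain ⟨δ1, Y, δ2, y1, y, y2, e1, g1, g2, g3, e2, hc⟩ := ih z2 hβ h2
      by_cases hle : y.count σ ≤ z1.count σ
      · refine ⟨[], X, β, [], z1, z2, rfl, LT_nil.2 rfl, h1, h2, by simp, ?_⟩
        rw [List.count_append, List.length_cons]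
        have := Nat.mul_le_mul_left β.length hle
        calc z1.count σ + z2.count σ ≤ z1.count σ + β.length * z1.count σ := by omega
          _ = (β.length + 1) * z1.count σ := by ring
      · refine ⟨X :: δ1, Y, δ2, z1 ++ y1, y, y2, by simp [e1], LT_cons.2 ⟨z1, y1, h1, g1, rfl⟩,
          g2, g3, by simp [e2], ?_⟩
        rw [List.count_append, List.length_cons]
        calc z1.count σ + z2.count σ ≤ y.count σ + β.length * y.count σ := by omega
          _ = (β.length + 1) * y.count σ := by ring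

namespace EC

variable (C : EC R T)

/-- an active loop is reachable from `X` (with `t` remaining steps) -/
def LoopR (σ : α) (t : ℕ) (X : α) : Prop :=
  ∃ (l1 : List (Stp α)) (s : Stp α) (l2 : List (Stp α)) (Z : α) (e : ℕ), C.t0 ≤ e ∧
    C.p ∣ (l2.length + 1) ∧ IsPath R T (e + (l2.length + 1)) X l1 Z ∧
    IsPath R T e Z (s :: l2) Z ∧ (∃ W ∈ s.1 ++ s.2.2, Has R T σ (e + l2.length) W) ∧
    NE R T e Z ∧ t = l1.length + (l2.length + 1) + e

lemma LoopR_step {σ : α} {t : ℕ} {X : α} {s : Stp α} (hR : R X (s.1 ++ s.2.1 :: s.2.2))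
    (hs : ∀ W ∈ s.1 ++ s.2.2, NE R T t W) (h : C.LoopR σ t s.2.1) : C.LoopR σ (t + 1) X := by
  obtain ⟨l1, s', l2, Z, e, g1, g2, g3, g4, g5, g6, g7⟩ := h
  refine ⟨s :: l1, s', l2, Z, e, g1, g2, ⟨hR, ?_, g3⟩, g4, g5, g6, ?_⟩
  · intro W hW
    have := hs W hW
    rw [g7] at this
    have e1 : e + (l2.length + 1) + l1.length = l1.length + (l2.length + 1) + e := by ring
    rw [e1]
    exact this
  · rw [g7]; simp; ring

/-- many letters `σ` force an active loop -/
lemma heavy [DecidableEq α] (σ : α) : ∀ (k : ℕ) (X : α) (z : List α), X ∈ C.V → LT R T (C.t0 + k) [X] z →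
    C.LoopR σ (C.t0 + k) X ∨
    ∃ s : Finset (α × ℕ), s ⊆ C.V ×ˢ Finset.range C.p ∧
      z.count σ ≤ C.D ^ C.t0 * C.D ^ s.card ∧
      ∀ q ∈ s, ∃ (l : List (Stp α)) (τ : ℕ), C.t0 ≤ τ ∧ C.t0 + k = τ + l.length ∧
        IsPath R T τ X l q.1 ∧ τ % C.p = q.2 ∧ NE R T τ q.1 := by
  intro k
  induction k with
  | zero =>
    intro X z hX hz
    right
    refine ⟨∅, by simp, ?_, by simp⟩
    have h1 := C.length_le hz
    have h2 := List.count_le_length (a := σ) (l := z)
    simp at h1 ⊢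
    omega
  | succ k ih =>
    intro X z hX hz
    have e : C.t0 + (k + 1) = C.t0 + k + 1 := by ring
    rw [e] at hz ⊢
    have hz0 := hz
    rw [LT_single_succ] at hz
    obtain ⟨β, hR, hβ⟩ := hz
    by_cases hb : β = []
    · subst hb
      rw [LT_nil] at hβ
      subst hβ
      right
      exact ⟨∅, by simp, by simp, by simp⟩
    obtain ⟨δ1, Y, δ2, z1, y, z2, rfl, g1, g2, g3, rfl, hc⟩ := heaviest σ β z hb hβ
    have hY : Y ∈ C.V := C.hV _ _ hR _ (by simp)
    have hDlen : (δ1 ++ Y :: δ2).length ≤ C.D := C.hD _ _ hR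
    have hD1 : 1 ≤ C.D := by
      simp at hDlen; omega
    have hne : ∀ W ∈ δ1 ++ δ2, NE R T (C.t0 + k) W := by
      intro W hW
      have h := NE_word.1 ⟨_, hβ⟩
      apply h
      rw [List.mem_append] at hW
      rcases hW with hW | hW <;> simp [hW]
    rcases ih Y y hY g2 with hL | ⟨s, hs1, hs2, hs3⟩
    · left
      exact C.LoopR_step (s := (δ1, Y, δ2)) hR hne hL
    · have ext : ∀ q ∈ s, ∃ (l : List (Stp α)) (τ : ℕ), C.t0 ≤ τ ∧ C.t0 + k + 1 = τ + l.length ∧
          IsPath R T τ X l q.1 ∧ τ % C.p = q.2 ∧ NE R T τ q.1 := by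
        intro q hq
        obtain ⟨l, τ, k1, k2, k3, k4, k5⟩ := hs3 q hq
        refine ⟨(δ1, Y, δ2) :: l, τ, k1, by simp; omega, ⟨hR, ?_, k3⟩, k4, k5⟩
        intro W hW
        rw [← k2]
        exact hne W hW
      by_cases hact : (z1 ++ z2).count σ = 0
      · right
        refine ⟨s, hs1, ?_, ext⟩
        rw [List.count_append] at hact
        rw [List.count_append, List.count_append]
        omega
      · -- the step is active
        have hmem : σ ∈ z1 ++ z2 := by
          rw [← List.count_pos_iff]; omega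
        have hHas : ∃ W ∈ δ1 ++ δ2, Has R T σ (C.t0 + k) W := by
          rw [List.mem_append] at hmem
          rcases hmem with h | h
          · obtain ⟨W, hW, hW2⟩ := (Has_word.1 ⟨z1, g1, h⟩).2
            exact ⟨W, by simp [hW], hW2⟩
          · obtain ⟨W, hW, hW2⟩ := (Has_word.1 ⟨z2, g3, h⟩).2
            exact ⟨W, by simp [hW], hW2⟩
        by_cases hin : (X, (C.t0 + k + 1) % C.p) ∈ s
        · left
          obtain ⟨l, τ, k1, k2, k3, k4, k5⟩ := hs3 _ hin
          simp only at k3 k4 k5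
          refine ⟨[], (δ1, Y, δ2), l, X, τ, k1, ?_, rfl, ⟨hR, ?_, k3⟩, ?_, k5, ?_⟩
          · have hle : τ ≤ C.t0 + k + 1 := by omega
            have := (Nat.modEq_iff_dvd' hle).1 k4
            have e2 : C.t0 + k + 1 - τ = l.length + 1 := by omega
            rwa [e2] at this
          · intro W hW
            rw [← k2]
            exact hne W hW
          · rw [← k2]
            exact hHas
          · simp; omega
        · right
          refine ⟨insert (X, (C.t0 + k + 1) % C.p) s, ?_, ?_, ?_⟩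
          · intro q hq
            rw [Finset.mem_insert] at hq
            rcases hq with rfl | hq
            · simp [hX, Nat.mod_lt _ C.hp]
            · exact hs1 hq
          · rw [Finset.card_insert_of_notMem hin]
            calc (z1 ++ (y ++ z2)).count σ ≤ (δ1 ++ Y :: δ2).length * y.count σ := hc
              _ ≤ C.D * (C.D ^ C.t0 * C.D ^ s.card) := Nat.mul_le_mul hDlen hs2
              _ = C.D ^ C.t0 * C.D ^ (s.card + 1) := by ring
          · intro q hq
            rw [Finset.mem_insert] at hq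
            rcases hq with rfl | hq
            · exact ⟨[], C.t0 + k + 1, by omega, by simp, rfl, rfl, ⟨_, hz0⟩⟩
            · exact ext q hq

/-- `σ` is unbounded at `X` on the residue class of `t` -/
def Unb [DecidableEq α] (σ : α) (t : ℕ) (X : α) : Prop :=
  ∀ B : ℕ, ∃ t', C.t0 ≤ t' ∧ t' % C.p = t % C.p ∧ ∃ z, LT R T t' [X] z ∧ B < z.count σ

/-- iterating a loop -/
lemma loop_iterate [DecidableEq α] {σ : α} (hσ : σ ∈ C.V) {Z : α} {s : Stp α} {l2 : List (Stp α)} {e : ℕ}
    (he : C.t0 ≤ e) (hp : C.p ∣ (l2.length + 1)) (hl : IsPath R T e Z (s :: l2) Z)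
    (ha : ∃ W ∈ s.1 ++ s.2.2, Has R T σ (e + l2.length) W) (k : ℕ) :
    ∀ e', C.t0 ≤ e' → e' % C.p = e % C.p → NE R T e' Z →
      ∃ z, LT R T (e' + k * (l2.length + 1)) [Z] z ∧ k ≤ z.count σ := by
  induction k with
  | zero =>
    intro e' _ _ h3
    obtain ⟨z, hz⟩ := h3
    exact ⟨z, by simpa using hz, by simp⟩
  | succ k ih =>
    intro e' h1 h2 h3
    obtain ⟨z, hz, hk⟩ := ih e' h1 h2 h3
    have hmod : (e' + k * (l2.length + 1)) % C.p = e % C.p := by
      obtain ⟨c, hc⟩ := hp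
      rw [hc]
      have e3 : e' + k * (C.p * c) = e' + C.p * (k * c) := by ring
      rw [e3, Nat.add_mul_mod_self_left, h2]
    have hpath := C.path_shift he (t' := e' + k * (l2.length + 1)) (by omega) hmod.symm hl
    have hact : ∃ W ∈ s.1 ++ s.2.2,
        Has R T σ (e' + k * (l2.length + 1) + l2.length) W := by
      obtain ⟨W, hW, hW2⟩ := ha
      refine ⟨W, hW, C.has_mod (t := e + l2.length) (by omega) (by omega) ?_ ?_ hσ hW2⟩
      · exact (C.mod_add hmod l2.length).symm
      · apply C.hV _ _ hl.1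
        rw [List.mem_append] at hW
        rcases hW with hW | hW <;> simp [hW]
    obtain ⟨z1, z2, g1, g2⟩ := hpath.yield_active hz hact
    refine ⟨z1 ++ (z ++ z2), ?_, ?_⟩
    · have e4 : e' + (k + 1) * (l2.length + 1) = e' + k * (l2.length + 1) + (l2.length + 1) := by
        ring
      rw [e4]
      exact g1
    · have : 0 < (z1 ++ z2).count σ := List.count_pos_iff.2 g2
      rw [List.count_append] at this
      rw [List.count_append, List.count_append]
      omega

/-- unbounded growth is at least linear on the residue class -/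
theorem growth [DecidableEq α] {σ : α} (hσ : σ ∈ C.V) {t : ℕ} {X : α} (hX : X ∈ C.V)
    (h : C.Unb σ t X) :
    ∃ c : ℕ, ∀ t', C.t0 ≤ t' → t' % C.p = t % C.p →
      ∃ z, LT R T t' [X] z ∧ t' ≤ c * (z.count σ + 1) := by
  obtain ⟨t1, ht1, hm1, z, hz, hB⟩ := h (C.D ^ C.t0 * C.D ^ (C.V.card * C.p) + C.D ^ C.t0)
  obtain ⟨k, hk⟩ := Nat.exists_eq_add_of_le ht1
  have hD1 := C.hD1
  rw [hk] at hz
  have hLoop : C.LoopR σ (C.t0 + k) X := by
    rcases C.heavy σ k X z hX hz with hL | ⟨s, hs1, hs2, _⟩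
    · exact hL
    · exfalso
      have hcard : s.card ≤ C.V.card * C.p := by
        have := Finset.card_le_card hs1
        rwa [Finset.card_product, Finset.card_range] at this
      have hpow : C.D ^ s.card ≤ C.D ^ (C.V.card * C.p) := Nat.pow_le_pow_right hD1 hcard
      have := Nat.mul_le_mul_left (C.D ^ C.t0) hpow
      have hcc : z.count σ ≤ C.D ^ C.t0 * C.D ^ s.card := hs2
      omega
  obtain ⟨l1, s, l2, Z, e, g1, g2, g3, g4, g5, g6, g7⟩ := hLoop
  have hZ : Z ∈ C.V := C.path_end_mem hX g3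
  refine ⟨l1.length + (l2.length + 1) + e + (l2.length + 1), ?_⟩
  intro t' ht' hm'
  set ℓ := l2.length + 1 with hℓ
  by_cases hlarge : t' < l1.length + ℓ + e
  · -- small times
    have hne : NE R T t' X := by
      have h1 : NE R T t1 X := ⟨z, by rw [hk]; exact hz⟩
      exact C.ne_mod ht1 ht' (hm1.trans hm'.symm) hX h1
    obtain ⟨z', hz'⟩ := hne
    refine ⟨z', hz', ?_⟩
    calc t' ≤ l1.length + ℓ + e + ℓ := by omega
      _ = (l1.length + ℓ + e + ℓ) * 1 := by ring
      _ ≤ (l1.length + ℓ + e + ℓ) * (z'.count σ + 1) := Nat.mul_le_mul_left _ (by omega)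
  · -- use the loop
    push Not at hlarge
    set r := t' - (l1.length + e) with hr
    set q := r / ℓ with hq
    set e' := e + r % ℓ with he'
    have hℓpos : 0 < ℓ := by omega
    have hrq : r = ℓ * q + r % ℓ := (Nat.div_add_mod r ℓ).symm
    have ht'eq : t' = e' + q * ℓ + l1.length := by
      have : q * ℓ = ℓ * q := mul_comm _ _
      omega
    have hlt := Nat.mod_lt r hℓpos
    -- residue of e'
    have hmodt : t' % C.p = (l1.length + ℓ + e) % C.p := by
      rw [hm', ← hm1, hk, g7]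
    have hmode : e' % C.p = e % C.p := by
      have h1 : (e' + (q * ℓ + l1.length)) ≡ (e + (ℓ + l1.length)) [MOD C.p] := by
        have e1 : e' + (q * ℓ + l1.length) = t' := by omega
        have e2 : e + (ℓ + l1.length) = l1.length + ℓ + e := by omega
        rw [e1, e2]
        exact hmodt
      have h2 : (q * ℓ + l1.length) ≡ (ℓ + l1.length) [MOD C.p] := by
        apply Nat.ModEq.add_right
        have a1 : q * ℓ ≡ 0 [MOD C.p] := (Nat.modEq_zero_iff_dvd).2 (Dvd.dvd.mul_left g2 q)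
        have a2 : ℓ ≡ 0 [MOD C.p] := (Nat.modEq_zero_iff_dvd).2 g2
        exact a1.trans a2.symm
      exact Nat.ModEq.add_right_cancel h2 h1
    have hne' : NE R T e' Z := C.ne_mod g1 (by omega) hmode.symm hZ g6
    obtain ⟨z', hz', hcount⟩ := C.loop_iterate hσ g1 g2 g4 g5 q e' (by omega) hmode hne'
    have hpath : IsPath R T (e' + q * ℓ) X l1 Z := by
      refine C.path_shift (t := e + ℓ) (by omega) (by omega) ?_ g3
      have a1 : q * ℓ ≡ 0 [MOD C.p] := (Nat.modEq_zero_iff_dvd).2 (Dvd.dvd.mul_left g2 q)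
      have a2 : ℓ ≡ 0 [MOD C.p] := (Nat.modEq_zero_iff_dvd).2 g2
      exact Nat.ModEq.add hmode.symm (a2.trans a1.symm)
    obtain ⟨z1, z2, hfin⟩ := hpath.yield hz'
    refine ⟨z1 ++ (z' ++ z2), by rw [ht'eq]; exact hfin, ?_⟩
    have hc2 : q ≤ (z1 ++ (z' ++ z2)).count σ := by
      rw [List.count_append, List.count_append]; omega
    have h5 : t' ≤ (l1.length + ℓ + e + ℓ) * (q + 1) := by
      have : (l1.length + ℓ + e + ℓ) * (q + 1) = (l1.length + ℓ + e) * q + ℓ * q + (l1.length + ℓ + e + ℓ) := by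
        ring
      rw [this]
      have h6 : q * ℓ = ℓ * q := mul_comm _ _
      omega
    exact h5.trans (Nat.mul_le_mul_left _ (by omega))

end EC

end Pool.Agent.EOLForms
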