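import Pool.Agent.EOLForms.Exist

/-! Languages with the four-letter pattern and good control data for them. -/

namespace Pool.Agent.EOLForms

variable {α : Type*} {R : α → List α → Prop} {T : α → Prop} {𝓛 : List α → Prop}

/-- the pattern: markers `w`, `w'`, paired letters `a, b` and `c, d`, in the order
`a … w … b … c … w' … d` -/
structure KP [DecidableEq α] (𝓛 : List α → Prop) (w w' a b c d : α) : Prop where
  one : ∀ z, 𝓛 z → z ≠ [] → z.count w = 1
  one' : ∀ z, 𝓛 z → z ≠ [] → z.count w' = 1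
  ab : ∀ z, 𝓛 z → z.count a = z.count b
  cd : ∀ z, 𝓛 z → z.count c = z.count d
  p1 : ∀ x y, 𝓛 (x ++ y) → w ∈ x → a ∉ y
  p2 : ∀ x y, 𝓛 (x ++ y) → w ∈ y → b ∉ x ∧ c ∉ x ∧ w' ∉ x
  p3 : ∀ x y, 𝓛 (x ++ y) → w' ∈ x → b ∉ y ∧ c ∉ y
  p4 : ∀ x y, 𝓛 (x ++ y) → w' ∈ y → d ∉ x
  big : ∀ N : ℕ, ∃ z, 𝓛 z ∧ N < z.count b ∧ N < z.count c

lemma KP.rig1 [DecidableEq α] {w w' a b c d : α} (h : KP 𝓛 w w' a b c d) : Rig 𝓛 w b where
  one := h.one
  rig := by
    intro x y y1 z h1 h2 hne hw
    have hone := h.one _ h1 hne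
    simp only [List.count_append] at hone
    have hy : y.count w = 0 := List.count_eq_zero.2 hw
    have hab1 := h.ab _ h1
    have hab2 := h.ab _ h2
    simp only [List.count_append] at hab1 hab2
    by_cases hx : w ∈ x
    · have k1 := h.p1 _ _ h1 hx
      have k2 := h.p1 _ _ h2 hx
      have k1' := List.count_eq_zero.2 k1
      have k2' := List.count_eq_zero.2 k2
      simp only [List.count_append] at k1' k2'
      omega
    · have hz : w ∈ z := by
        have : x.count w = 0 := List.count_eq_zero.2 hx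
        rw [← List.count_pos_iff]; omega
      have k1 := (h.p2 (x ++ y) z (by simpa using h1) hz).1
      have k2 := (h.p2 (x ++ y1) z (by simpa using h2) hz).1
      have k1' := List.count_eq_zero.2 k1
      have k2' := List.count_eq_zero.2 k2
      simp only [List.count_append] at k1' k2'
      omega

lemma KP.rig2 [DecidableEq α] {w w' a b c d : α} (h : KP 𝓛 w w' a b c d) : Rig 𝓛 w' c where
  one := h.one'
  rig := by
    intro x y y1 z h1 h2 hne hw
    have hone := h.one' _ h1 hne
    simp only [List.count_append] at hone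
    have hy : y.count w' = 0 := List.count_eq_zero.2 hw
    have hcd1 := h.cd _ h1
    have hcd2 := h.cd _ h2
    simp only [List.count_append] at hcd1 hcd2
    by_cases hx : w' ∈ x
    · have k1 := (h.p3 _ _ h1 hx).2
      have k2 := (h.p3 _ _ h2 hx).2
      have k1' := List.count_eq_zero.2 k1
      have k2' := List.count_eq_zero.2 k2
      simp only [List.count_append] at k1' k2'
      omega
    · have hz : w' ∈ z := by
        have : x.count w' = 0 := List.count_eq_zero.2 hx
        rw [← List.count_pos_iff]; omega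
      have k1 := h.p4 (x ++ y) z (by simpa using h1) hz
      have k2 := h.p4 (x ++ y1) z (by simpa using h2) hz
      have k1' := List.count_eq_zero.2 k1
      have k2' := List.count_eq_zero.2 k2
      simp only [List.count_append] at k1' k2'
      omega

lemma KP.split [DecidableEq α] {w w' a b c d : α} (h : KP 𝓛 w w' a b c d) (hww : w ≠ w') :
    ∀ (t : ℕ) (X : α) (z x1 x2 : List α), LT R T t [X] z → 𝓛 (x1 ++ (z ++ x2)) → w ∈ z →
      w' ∈ z → ∃ (com : List (Stp α)) (Y : α) (e : ℕ) (cA : List α) (W : α) (cB : List α) (W' : α)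
        (cC zA y zB y' zC u1 u2 : List α), t = e + 1 + com.length ∧ IsPath R T (e + 1) X com Y ∧
        R Y (cA ++ W :: (cB ++ W' :: cC)) ∧ LT R T e cA zA ∧ LT R T e [W] y ∧ LT R T e cB zB ∧
        LT R T e [W'] y' ∧ LT R T e cC zC ∧ w ∈ y ∧ w' ∈ y' ∧
        z = u1 ++ ((zA ++ (y ++ (zB ++ (y' ++ zC)))) ++ u2) := by
  intro t
  induction t with
  | zero =>
    intro X z x1 x2 hz _ h1 h2
    obtain ⟨hz, -⟩ := hz
    simp only [DL] at hz
    subst hz
    simp at h1 h2
    exact absurd (h1.trans h2.symm) hww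
  | succ t ih =>
    intro X z x1 x2 hz hL h1 h2
    rw [LT_single_succ] at hz
    obtain ⟨β, hR, hβ⟩ := hz
    have hβ0 := hβ
    obtain ⟨δ1, Y, δ2, z1, y, z2, rfl, g1, g2, g3, rfl, hwy⟩ := child_with hβ h1
    by_cases h3 : w' ∈ y
    · obtain ⟨com, Y', e, cA, W, cB, W', cC, zA, y1, zB, y1', zC, u1, u2, k1, k2, k3, k4, k5, k6,
        k7, k8, k9, k10, k11⟩ := ih Y y (x1 ++ z1) (z2 ++ x2) g2 (by simpa using hL) hwy h3
      refine ⟨(δ1, Y, δ2) :: com, Y', e, cA, W, cB, W', cC, zA, y1, zB, y1', zC, z1 ++ u1,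
        u2 ++ z2, ?_, ⟨hR, ?_, k2⟩, k3, k4, k5, k6, k7, k8, k9, k10, ?_⟩
      · rw [k1]; simp; ring
      · intro Z hZ
        have := NE_word.1 ⟨_, hβ0⟩
        rw [← k1]
        apply this
        simp only [List.mem_append, List.mem_cons] at hZ ⊢
        tauto
      · rw [k11]; simp
    · have h4 : w' ∉ z1 := by
        intro h5
        have := (h.p2 (x1 ++ z1) (y ++ z2 ++ x2) (by simpa using hL) (by simp [hwy])).2.2
        apply this
        simp [h5]
      have h5 : w' ∈ z2 := by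
        simp only [List.mem_append] at h2
        tauto
      obtain ⟨ε1, W', ε2, v1, y', v2, rfl, j1, j2, j3, rfl, hwy'⟩ := child_with g3 h5
      exact ⟨[], X, t, δ1, Y, ε1, W', ε2, z1, y, v1, y', v2, [], [], by simp, rfl, hR, g1, g2, j1,
        j2, j3, hwy, hwy', by simp⟩

/-- data for one branch -/
lemma mkBranch [DecidableEq α] (C : EC R T) (ht0 : 1 ≤ C.t0) (m σ : α) : ∃ B : ℕ,
    ∀ (e : ℕ) (X : α) (δ1 δ2 z1 y z2 : List α), C.t0 ≤ e → X ∈ C.V → (∀ Z ∈ δ1 ++ δ2, Z ∈ C.V) →
      δ1.length + δ2.length ≤ C.D → LT R T e δ1 z1 → LT R T e [X] y → LT R T e δ2 z2 → m ∈ y →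
      B < (z1 ++ (y ++ z2)).count σ →
      ∃ (l1 : List (Stp α)) (lp : Option (Stp α × List (Stp α))) (e1 : ℕ), 1 ≤ e1 ∧
        (l1.length + e1) % C.p = e % C.p ∧ (∀ s l, lp = some (s, l) → C.p ∣ l.length + 1) ∧
        ∀ (K : Ctrl α) (b : Bool), K.l1 b = l1 → K.lp b = lp → K.e1 b = e1 → K.e = e →
          BrOK C K m σ b X (δ1 ++ δ2) := by
  obtain ⟨B, hB⟩ := C.marker_main m σ
  obtain ⟨B1, hB1⟩ := C.exists_bound σ
  refine ⟨B + C.D * B1, ?_⟩
  intro e X δ1 δ2 z1 y z2 he hX hV hlen g1 g2 g3 hm hcount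
  by_cases hBy : B < y.count σ
  · rcases hB e X y he hX g2 hm hBy with ⟨l, s, e1, k1, k2, k3, k4, k5⟩ |
      ⟨l1, s, l2, Z, e1, k1, k2, k3, k4, k5, k6, k7⟩
    · refine ⟨l ++ [s], none, e1, by omega, ?_, by simp, ?_⟩
      · rw [k5]
        congr 1
        simp; ring
      · intro K b h1 h2 h3 h4
        exact BrOK.R l s h1 h2 (by omega) (by rw [h3]; exact k2) (by rw [h3]; exact k3)
          (by rw [h3]; exact k4) (by rw [h4, h3]; exact k5)
    · refine ⟨l1, some (s, l2), e1, by omega, ?_, ?_, ?_⟩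
      · rw [k7]
        obtain ⟨c, hc⟩ := k2
        rw [hc]
        have : l1.length + C.p * c + e1 = l1.length + e1 + C.p * c := by ring
        rw [this, Nat.add_mul_mod_self_left]
      · intro s' l' h
        cases h
        exact k2
      · intro K b h1 h2 h3 h4
        exact BrOK.L s l2 Z h2 (by omega) k2 (by rw [h1, h3]; exact k3) (by rw [h3]; exact k4)
          (by rw [h3]; exact k5) (by rw [h3]; exact k6) (by rw [h4, h1, h3]; exact k7)
  · push Not at hBy
    have hU : ∃ Z ∈ δ1 ++ δ2, C.Unb σ e Z := by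
      by_contra hno
      push Not at hno
      have a1 : z1.count σ ≤ δ1.length * B1 := by
        apply word_bound _ g1
        intro W hW z hz
        exact hB1 W (hV _ (by simp [hW])) _ he (hno W (by simp [hW])) z hz
      have a2 : z2.count σ ≤ δ2.length * B1 := by
        apply word_bound _ g3
        intro W hW z hz
        exact hB1 W (hV _ (by simp [hW])) _ he (hno W (by simp [hW])) z hz
      have a3 := Nat.mul_le_mul_right B1 hlen
      have a4 : (δ1.length + δ2.length) * B1 = δ1.length * B1 + δ2.length * B1 := by ring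
      simp only [List.count_append] at hcount
      omega
    refine ⟨[], none, e, by omega, by simp, by simp, ?_⟩
    intro K b h1 h2 h3 h4
    exact BrOK.F h1 h2 (by rw [h3, h4]) (by rw [h4]; exact ⟨y, g2, hm⟩) (by rw [h4]; exact hU)

/-- good control data exist -/
theorem KP.good [DecidableEq α] (C : EC R T) (ht0 : 1 ≤ C.t0) {S : α} (hS : S ∈ C.V)
    (hT : ∀ z, 𝓛 z ↔ ∃ t, LT R T t [S] z)
    {w w' a b c d : α} (h : KP 𝓛 w w' a b c d) (hww : w ≠ w')
    (hV : ∀ x ∈ ({w, w', b, c} : Set α), x ∈ C.V) :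
    ∃ (K : Ctrl α) (Y : α), Good C K 𝓛 S Y (fun i => if i then w else w')
      (fun i => if i then b else c) := by
  obtain ⟨N1, hN1⟩ := mkBranch C ht0 w b
  obtain ⟨N2, hN2⟩ := mkBranch C ht0 w' c
  obtain ⟨z, hz, hzb, hzc⟩ := h.big (N1 + N2 + C.D ^ C.t0)
  have hzne : z ≠ [] := by rintro rfl; simp at hzb
  have hw1 := h.one z hz hzne
  have hw2 := h.one' z hz hzne
  obtain ⟨t, ht⟩ := (hT z).1 hz
  obtain ⟨com, Y, e, cA, W, cB, W', cC, zA, y, zB, y', zC, u1, u2, k1, k2, k3, k4, k5, k6,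
    k7, k8, k9, k10, k11⟩ := h.split hww t S z [] [] ht (by simpa using hz)
      (List.count_pos_iff.1 (by omega)) (List.count_pos_iff.1 (by omega))
  have hYV : Y ∈ C.V := C.path_end_mem hS k2
  have hch := C.hV _ _ k3
  have hlen := C.hD _ _ k3
  -- all the letters `b` and `c` are below the split node
  have hb1 : u1.count b = 0 ∧ u1.count c = 0 := by
    have := h.p2 u1 ((zA ++ (y ++ (zB ++ (y' ++ zC)))) ++ u2) (by rw [← k11]; exact hz)
      (by simp [k9])
    exact ⟨List.count_eq_zero.2 this.1, List.count_eq_zero.2 this.2.1⟩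
  have hb2 : u2.count b = 0 ∧ u2.count c = 0 := by
    have := h.p3 (u1 ++ (zA ++ (y ++ (zB ++ (y' ++ zC))))) u2
      (by rw [k11] at hz; simpa using hz) (by simp [k10])
    exact ⟨List.count_eq_zero.2 this.1, List.count_eq_zero.2 this.2⟩
  have hcb : N1 + N2 + C.D ^ C.t0 < (zA ++ (y ++ (zB ++ (y' ++ zC)))).count b := by
    rw [k11] at hzb
    rw [List.count_append, List.count_append] at hzb
    omega
  have hcc : N1 + N2 + C.D ^ C.t0 < (zA ++ (y ++ (zB ++ (y' ++ zC)))).count c := by
    rw [k11] at hzc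
    rw [List.count_append, List.count_append] at hzc
    omega
  have hLTY : LT R T (e + 1) [Y] (zA ++ (y ++ (zB ++ (y' ++ zC)))) :=
    LT_single_succ.2 ⟨_, k3, LT_mid.2 ⟨_, _, _, k4, k5, LT_mid.2 ⟨_, _, _, k6, k7, k8, rfl⟩, rfl⟩⟩
  have he : C.t0 ≤ e := by
    by_contra hlt
    push Not at hlt
    have h1 := C.length_le hLTY
    have h2 : C.D ^ (e + 1) ≤ C.D ^ C.t0 := Nat.pow_le_pow_right C.hD1 (by omega)
    have h3 := List.count_le_length (a := b) (l := zA ++ (y ++ (zB ++ (y' ++ zC))))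
    omega
  have hWV : W ∈ C.V := hch _ (by simp)
  have hW'V : W' ∈ C.V := hch _ (by simp)
  have hlen' : cA.length + (cB.length + (cC.length + 2)) ≤ C.D := by
    simp at hlen
    omega
  obtain ⟨l1, lp, e1, a1, a2, a3, a4⟩ := hN1 e W cA (cB ++ W' :: cC) zA y (zB ++ (y' ++ zC)) he hWV
    (by
      intro Z hZ
      apply hch
      simp only [List.mem_append, List.mem_cons] at hZ ⊢
      tauto) (by simp; omega) k4 k5 (LT_mid.2 ⟨_, _, _, k6, k7, k8, rfl⟩) k9 (by omega)
  obtain ⟨l1', lp', e1', a1', a2', a3', a4'⟩ := hN2 e W' (cA ++ W :: cB) cC (zA ++ (y ++ zB)) y' zC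
    he hW'V
    (by
      intro Z hZ
      apply hch
      simp only [List.mem_append, List.mem_cons] at hZ ⊢
      tauto) (by simp; omega) (LT_mid.2 ⟨_, _, _, k4, k5, k6, rfl⟩) k7 k8 k10 (by
        have e2 : zA ++ (y ++ zB) ++ (y' ++ zC) = zA ++ (y ++ (zB ++ (y' ++ zC))) := by simp
        rw [e2]
        omega)
  let K : Ctrl α :=
    { p := C.p, com := com, cA := cA, W := W, cB := cB, W' := W', cC := cC, e := e
      l1 := fun i => if i then l1 else l1'
      lp := fun i => if i then lp else lp'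
      e1 := fun i => if i then e1 else e1' }
  refine ⟨K, Y, ?_⟩
  refine { hp := rfl, wf := ?_, he := he, hS := hS, hm := ?_, hσ := ?_, rig := ?_, hcx := ?_,
           hcom := k2, hY := k3, hNE := ?_, brT := ?_, brF := ?_ }
  · refine { hp := C.hp, he1 := ?_, hl1 := ?_, hlp := ?_ }
    · intro i; cases i
      · exact a1'
      · exact a1
    · intro i; cases i
      · exact a2'
      · exact a2
    · intro i; cases i
      · exact a3'
      · exact a3
  · intro i; cases i
    · exact hV _ (by simp)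
    · exact hV _ (by simp)
  · intro i; cases i
    · exact hV _ (by simp)
    · exact hV _ (by simp)
  · intro i; cases i
    · exact h.rig2
    · exact h.rig1
  · intro t y hy
    rw [hT]
    exact ⟨t, by simpa using hy⟩
  · intro Z hZ
    have hA := NE_word.1 ⟨_, k4⟩
    have hB := NE_word.1 ⟨_, k6⟩
    have hC := NE_word.1 ⟨_, k8⟩
    rw [List.mem_append, List.mem_append] at hZ
    rcases hZ with hZ | hZ | hZ
    · exact hA _ hZ
    · exact hB _ hZ
    · exact hC _ hZ
  · exact a4 K true rfl rfl rfl rfl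
  · exact a4' K false rfl rfl rfl rfl

end Pool.Agent.EOLForms
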