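import Pool.Agent.EOLForms.Par

/-! Terminal yields in exactly `t` steps, and ultimate periodicity of the letter profile. -/

namespace Pool.Agent.EOLForms

variable {α : Type*}

/-- terminal words derived in exactly `t` steps -/
def LT (R : α → List α → Prop) (T : α → Prop) (t : ℕ) (x z : List α) : Prop :=
  DL R t x z ∧ ∀ a ∈ z, T a

variable {R : α → List α → Prop} {T : α → Prop}

lemma LT_nil {t : ℕ} {z : List α} : LT R T t [] z ↔ z = [] := by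
  unfold LT
  rw [DL_nil]
  constructor
  · exact fun h => h.1
  · rintro rfl; simp

lemma LT_append {t : ℕ} {x1 x2 z : List α} :
    LT R T t (x1 ++ x2) z ↔ ∃ z1 z2, LT R T t x1 z1 ∧ LT R T t x2 z2 ∧ z = z1 ++ z2 := by
  unfold LT
  rw [DL_append]
  constructor
  · rintro ⟨⟨z1, z2, h1, h2, rfl⟩, h⟩
    exact ⟨z1, z2, ⟨h1, fun a ha => h a (by simp [ha])⟩, ⟨h2, fun a ha => h a (by simp [ha])⟩, rfl⟩
  · rintro ⟨z1, z2, ⟨h1, h3⟩, ⟨h2, h4⟩, rfl⟩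
    refine ⟨⟨z1, z2, h1, h2, rfl⟩, fun a ha => ?_⟩
    rw [List.mem_append] at ha
    rcases ha with ha | ha
    · exact h3 a ha
    · exact h4 a ha

lemma LT_mid {t : ℕ} {x1 x2 z : List α} {X : α} :
    LT R T t (x1 ++ X :: x2) z ↔ ∃ z1 y z2, LT R T t x1 z1 ∧ LT R T t [X] y ∧ LT R T t x2 z2 ∧
      z = z1 ++ (y ++ z2) := by
  have e : x1 ++ X :: x2 = x1 ++ ([X] ++ x2) := rfl
  rw [e, LT_append]
  constructor
  · rintro ⟨z1, z2, h1, h2, rfl⟩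
    rw [LT_append] at h2
    obtain ⟨y, z3, h3, h4, rfl⟩ := h2
    exact ⟨z1, y, z3, h1, h3, h4, rfl⟩
  · rintro ⟨z1, y, z2, h1, h3, h4, rfl⟩
    exact ⟨z1, y ++ z2, h1, LT_append.2 ⟨y, z2, h3, h4, rfl⟩, rfl⟩

lemma LT_cons {t : ℕ} {X : α} {x z : List α} :
    LT R T t (X :: x) z ↔ ∃ z1 z2, LT R T t [X] z1 ∧ LT R T t x z2 ∧ z = z1 ++ z2 := by
  have : X :: x = [X] ++ x := rfl
  rw [this, LT_append]

lemma LT_single_succ {t : ℕ} {X : α} {z : List α} :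
    LT R T (t + 1) [X] z ↔ ∃ y, R X y ∧ LT R T t y z := by
  unfold LT
  rw [DL_single_succ]
  constructor
  · rintro ⟨⟨y, h1, h2⟩, h⟩
    exact ⟨y, h1, h2, h⟩
  · rintro ⟨y, h1, h2, h⟩
    exact ⟨⟨y, h1, h2⟩, h⟩

lemma LT_trans {s t : ℕ} {x y z : List α} (h1 : DL R s x y) (h2 : LT R T t y z) :
    LT R T (s + t) x z := ⟨DL_trans h1 h2.1, h2.2⟩

/-- some terminal word is derived from `X` in exactly `t` steps -/
def NE (R : α → List α → Prop) (T : α → Prop) (t : ℕ) (X : α) : Prop := ∃ z, LT R T t [X] z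

/-- some terminal word containing `σ` is derived from `X` in exactly `t` steps -/
def Has (R : α → List α → Prop) (T : α → Prop) (σ : α) (t : ℕ) (X : α) : Prop :=
  ∃ z, LT R T t [X] z ∧ σ ∈ z

lemma Has.ne {σ : α} {t : ℕ} {X : α} (h : Has R T σ t X) : NE R T t X := by
  obtain ⟨z, h1, _⟩ := h
  exact ⟨z, h1⟩

lemma NE_word {t : ℕ} {x : List α} : (∃ z, LT R T t x z) ↔ ∀ X ∈ x, NE R T t X := by
  induction x with
  | nil => simp [LT_nil]
  | cons X x ih =>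
    constructor
    · rintro ⟨z, hz⟩
      rw [LT_cons] at hz
      obtain ⟨z1, z2, h1, h2, rfl⟩ := hz
      intro Y hY
      simp at hY
      rcases hY with rfl | hY
      · exact ⟨z1, h1⟩
      · exact ih.1 ⟨z2, h2⟩ Y hY
    · intro h
      obtain ⟨z1, h1⟩ := h X (by simp)
      obtain ⟨z2, h2⟩ := ih.2 (fun Y hY => h Y (by simp [hY]))
      exact ⟨z1 ++ z2, LT_cons.2 ⟨z1, z2, h1, h2, rfl⟩⟩

lemma Has_word {σ : α} {t : ℕ} {x : List α} : (∃ z, LT R T t x z ∧ σ ∈ z) ↔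
    (∀ X ∈ x, NE R T t X) ∧ ∃ X ∈ x, Has R T σ t X := by
  constructor
  · rintro ⟨z, hz, hσ⟩
    refine ⟨NE_word.1 ⟨z, hz⟩, ?_⟩
    induction x generalizing z with
    | nil => rw [LT_nil] at hz; subst hz; simp at hσ
    | cons X x ih =>
      rw [LT_cons] at hz
      obtain ⟨z1, z2, h1, h2, rfl⟩ := hz
      rw [List.mem_append] at hσ
      rcases hσ with hσ | hσ
      · exact ⟨X, by simp, z1, h1, hσ⟩
      · obtain ⟨Y, hY, hY2⟩ := ih z2 h2 hσ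
        exact ⟨Y, by simp [hY], hY2⟩
  · rintro ⟨h1, X, hX, z, hz, hσ⟩
    obtain ⟨x1, x2, rfl⟩ := List.append_of_mem hX
    obtain ⟨z1, hz1⟩ := NE_word.2 (fun Y (hY : Y ∈ x1) => h1 Y (by simp [hY]))
    obtain ⟨z2, hz2⟩ := NE_word.2 (fun Y (hY : Y ∈ x2) => h1 Y (by simp [hY]))
    exact ⟨z1 ++ (z ++ z2), LT_mid.2 ⟨z1, z, z2, hz1, hz, hz2, rfl⟩, by simp [hσ]⟩

lemma NE_succ {t : ℕ} {X : α} : NE R T (t + 1) X ↔ ∃ y, R X y ∧ ∀ Y ∈ y, NE R T t Y := by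
  constructor
  · rintro ⟨z, hz⟩
    rw [LT_single_succ] at hz
    obtain ⟨y, h1, h2⟩ := hz
    exact ⟨y, h1, NE_word.1 ⟨z, h2⟩⟩
  · rintro ⟨y, h1, h2⟩
    obtain ⟨z, hz⟩ := NE_word.2 h2
    exact ⟨z, LT_single_succ.2 ⟨y, h1, hz⟩⟩

lemma Has_succ {σ : α} {t : ℕ} {X : α} : Has R T σ (t + 1) X ↔
    ∃ y, R X y ∧ (∀ Y ∈ y, NE R T t Y) ∧ ∃ Y ∈ y, Has R T σ t Y := by
  constructor
  · rintro ⟨z, hz, hσ⟩
    rw [LT_single_succ] at hz
    obtain ⟨y, h1, h2⟩ := hz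
    exact ⟨y, h1, Has_word.1 ⟨z, h2, hσ⟩⟩
  · rintro ⟨y, h1, h2⟩
    obtain ⟨z, hz, hσ⟩ := Has_word.2 h2
    exact ⟨z, LT_single_succ.2 ⟨y, h1, hz⟩, hσ⟩

lemma exists_period {β : Type*} [Finite β] (f : ℕ → β)
    (h : ∀ s t, f s = f t → f (s + 1) = f (t + 1)) :
    ∃ t0 p, 0 < p ∧ ∀ t, t0 ≤ t → f (t + p) = f t := by
  obtain ⟨x, y, hxy, hf⟩ := Finite.exists_ne_map_eq_of_infinite f
  wlog hlt : x < y generalizing x y
  · exact this y x hxy.symm hf.symm (by omega)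
  refine ⟨x, y - x, by omega, ?_⟩
  intro t ht
  obtain ⟨k, rfl⟩ := Nat.exists_eq_add_of_le ht
  clear ht
  induction k with
  | zero =>
    have e : x + 0 + (y - x) = y := by omega
    rw [e, Nat.add_zero, hf]
  | succ k ih =>
    have := h _ _ ih
    have e : x + (k + 1) + (y - x) = x + k + (y - x) + 1 := by ring
    rw [e, this]
    rfl

/-- The letter profile is ultimately periodic. -/
theorem profile_period (V : Finset α) (hV : ∀ X y, R X y → ∀ Y ∈ y, Y ∈ V) :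
    ∃ t0 p, 0 < p ∧ ∀ t, t0 ≤ t → ∀ X ∈ V, (NE R T (t + p) X ↔ NE R T t X) ∧
      ∀ σ ∈ V, (Has R T σ (t + p) X ↔ Has R T σ t X) := by
  classical
  let f : ℕ → ({x // x ∈ V} → Option {x // x ∈ V} → Prop) := fun t X o =>
    match o with
    | none => NE R T t X.1
    | some σ => Has R T σ.1 t X.1
  have hNE : ∀ s t, f s = f t → ∀ X ∈ V, (NE R T s X ↔ NE R T t X) := by
    intro s t h X hX
    have := congrFun (congrFun h ⟨X, hX⟩) none
    simpa [f] using this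
  have hHas : ∀ s t, f s = f t → ∀ X ∈ V, ∀ σ ∈ V, (Has R T σ s X ↔ Has R T σ t X) := by
    intro s t h X hX σ hσ
    have := congrFun (congrFun h ⟨X, hX⟩) (some ⟨σ, hσ⟩)
    simpa [f] using this
  have hf : ∀ s t, f s = f t → f (s + 1) = f (t + 1) := by
    intro s t h
    funext X o
    apply propext
    rcases o with _ | σ
    · simp only [f]
      rw [NE_succ, NE_succ]
      constructor
      · rintro ⟨y, h1, h2⟩
        exact ⟨y, h1, fun Y hY => (hNE s t h Y (hV _ _ h1 Y hY)).1 (h2 Y hY)⟩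
      · rintro ⟨y, h1, h2⟩
        exact ⟨y, h1, fun Y hY => (hNE s t h Y (hV _ _ h1 Y hY)).2 (h2 Y hY)⟩
    · simp only [f]
      rw [Has_succ, Has_succ]
      constructor
      · rintro ⟨y, h1, h2, Y, hY, hY2⟩
        exact ⟨y, h1, fun Y hY => (hNE s t h Y (hV _ _ h1 Y hY)).1 (h2 Y hY),
          Y, hY, (hHas s t h Y (hV _ _ h1 Y hY) σ.1 σ.2).1 hY2⟩
      · rintro ⟨y, h1, h2, Y, hY, hY2⟩
        exact ⟨y, h1, fun Y hY => (hNE s t h Y (hV _ _ h1 Y hY)).2 (h2 Y hY),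
          Y, hY, (hHas s t h Y (hV _ _ h1 Y hY) σ.1 σ.2).2 hY2⟩
  obtain ⟨t0, p, hp, hper⟩ := exists_period f hf
  exact ⟨t0, p, hp, fun t ht X hX => ⟨hNE _ _ (hper t ht) X hX, hHas _ _ (hper t ht) X hX⟩⟩

end Pool.Agent.EOLForms
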