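import Pool.Agent.EOLForms.Pattern

/-! The controlled language is not pumpable. -/

namespace Pool.Agent.EOLForms

/-- powers of a word -/
def pw {β : Type*} (v : List β) (i : ℕ) : List β := (List.replicate i v).flatten

lemma pw_zero {β : Type*} (v : List β) : pw v 0 = [] := rfl

lemma pw_succ {β : Type*} (v : List β) (i : ℕ) : pw v (i + 1) = v ++ pw v i := rfl

lemma pw_one {β : Type*} (v : List β) : pw v 1 = v := by simp [pw]

lemma pw_map {β γ : Type*} (f : β → γ) (v : List β) (i : ℕ) : (pw v i).map f = pw (v.map f) i := by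
  induction i with
  | zero => rfl
  | succ i ih => rw [pw_succ, pw_succ, List.map_append, ih]

lemma pw_count {β : Type*} [DecidableEq β] (a : β) (v : List β) (i : ℕ) :
    (pw v i).count a = i * v.count a := by
  induction i with
  | zero => simp [pw]
  | succ i ih => rw [pw_succ, List.count_append, ih]; ring

lemma pw_length {β : Type*} (v : List β) (i : ℕ) : (pw v i).length = i * v.length := by
  induction i with
  | zero => simp [pw]
  | succ i ih => rw [pw_succ, List.length_append, ih]; ring

lemma mem_pw {β : Type*} {v : List β} {i : ℕ} {a : β} (h : a ∈ pw v i) : a ∈ v := by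
  induction i with
  | zero => simp [pw] at h
  | succ i ih =>
    rw [pw_succ, List.mem_append] at h
    rcases h with h | h
    · exact h
    · exact ih h

/-- the pumping property with constant `N` -/
def Pumps {β : Type*} (N : ℕ) (L : Set (List β)) : Prop :=
  ∀ z ∈ L, N < z.length → ∃ u v w x y, z = u ++ (v ++ (w ++ (x ++ y))) ∧
    (v ++ (w ++ x)).length ≤ N ∧ v ++ x ≠ [] ∧
    ∀ i, 1 ≤ i → u ++ (pw v i ++ (w ++ (pw x i ++ y))) ∈ L

variable {α : Type*} {R : α → List α → Prop} {T : α → Prop} {𝓛 : List α → Prop}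

/-- the controlled language -/
def cLang (R : α → List α → Prop) (T : α → Prop) (K : Ctrl α) (S : α) :
    Set (List (α × Lb α)) :=
  {z | ∃ t, LT (K.R2 R) (Ctrl.fin T) t [(S, Lb.path Kd.com K.com)] z}

lemma window [DecidableEq α] {w w' a b c d : α} (hKP : KP 𝓛 w w' a b c d)
    {U V M X Z : List α} (hL : 𝓛 (U ++ (V ++ (M ++ (X ++ Z)))))
    (hLne : U ++ (V ++ (M ++ (X ++ Z))) ≠ []) (ma : a ∈ V ∨ a ∈ X) (mb : b ∈ V ∨ b ∈ X)
    (mc : c ∈ V ∨ c ∈ X) (md : d ∈ V ∨ d ∈ X) :
    (U ++ (V ++ (M ++ (X ++ Z)))).count b ≤ (V ++ (M ++ X)).length := by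
  have hone := hKP.one _ hL hLne
  have hone' := hKP.one' _ hL hLne
  have hL' : 𝓛 ((U ++ (V ++ (M ++ X))) ++ Z) := by simpa using hL
  have wU : w ∉ U := by
    intro h0
    have := hKP.p1 _ _ hL h0
    simp only [List.mem_append] at this
    rcases ma with h | h <;> simp [h] at this
  have wZ : w ∉ Z := by
    intro h0
    have := (hKP.p2 _ Z hL' h0).1
    simp only [List.mem_append] at this
    rcases mb with h | h <;> simp [h] at this
  have w'U : w' ∉ U := by
    intro h0
    have := (hKP.p3 _ _ hL h0).2
    simp only [List.mem_append] at this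
    rcases mc with h | h <;> simp [h] at this
  have w'Z : w' ∉ Z := by
    intro h0
    have := hKP.p4 _ Z hL' h0
    simp only [List.mem_append] at this
    rcases md with h | h <;> simp [h] at this
  have wIn : w ∈ V ++ (M ++ (X ++ Z)) := by
    have h1 : w ∈ U ++ (V ++ (M ++ (X ++ Z))) := List.count_pos_iff.1 (by omega)
    rw [List.mem_append] at h1
    rcases h1 with h1 | h1
    · exact absurd h1 wU
    · exact h1
  have w'In : w' ∈ U ++ (V ++ (M ++ X)) := by
    have h1 : w' ∈ (U ++ (V ++ (M ++ X))) ++ Z := by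
      have : (U ++ (V ++ (M ++ X))) ++ Z = U ++ (V ++ (M ++ (X ++ Z))) := by simp
      rw [this]
      exact List.count_pos_iff.1 (by omega)
    rw [List.mem_append] at h1
    rcases h1 with h1 | h1
    · exact h1
    · exact absurd h1 w'Z
  have bU : U.count b = 0 := List.count_eq_zero.2 (hKP.p2 _ _ hL wIn).1
  have bZ : Z.count b = 0 := List.count_eq_zero.2 (hKP.p3 _ Z hL' w'In).1
  have hle := List.count_le_length (a := b) (l := V ++ (M ++ X))
  simp only [List.count_append] at hle ⊢
  omega

theorem no_pump [DecidableEq α] {C : EC R T} {K : Ctrl α} {S Y : α}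
    (hT : ∀ z, 𝓛 z ↔ ∃ t, LT R T t [S] z)
    {w w' a b c d : α} (hKP : KP 𝓛 w w' a b c d)
    (h : Good C K 𝓛 S Y (fun i => if i then w else w') (fun i => if i then b else c)) (N : ℕ) :
    ¬ Pumps N (cLang R T K S) := by
  intro hP
  obtain ⟨c1, hc1⟩ := h.bound true
  obtain ⟨c2, hc2⟩ := h.bound false
  simp only [if_true] at hc1
  simp only [Bool.false_eq_true, if_false] at hc2
  have hproj : ∀ z ∈ cLang R T K S, 𝓛 (z.map Prod.fst) := by
    rintro z ⟨t, ht⟩
    rw [hT]
    exact ⟨t, by simpa using K.LT_proj ht⟩
  have hlen1 : ∀ z ∈ cLang R T K S, z ≠ [] →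
      z.length ≤ C.D ^ (c1 * ((z.map Prod.fst).count b + 1)) := by
    rintro z ⟨t, ht⟩ hz
    have h1 := hc1 t z ht hz
    have h2 := C.length_le (t := t) (X := S) (z := z.map Prod.fst) (by simpa using K.LT_proj ht)
    rw [List.length_map] at h2
    exact h2.trans (Nat.pow_le_pow_right C.hD1 h1)
  have hlen2 : ∀ z ∈ cLang R T K S, z ≠ [] →
      z.length ≤ C.D ^ (c2 * ((z.map Prod.fst).count c + 1)) := by
    rintro z ⟨t, ht⟩ hz
    have h1 := hc2 t z ht hz
    have h2 := C.length_le (t := t) (X := S) (z := z.map Prod.fst) (by simpa using K.LT_proj ht)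
    rw [List.length_map] at h2
    exact h2.trans (Nat.pow_le_pow_right C.hD1 h1)
  obtain ⟨t, z, ht, hz, hzL⟩ := h.exist (c1 * (N + 1) + 1)
  have hcb : N < (z.map Prod.fst).count b := by
    by_contra hle
    push Not at hle
    have h1 := hc1 t z hzL hz
    have h2 := Nat.mul_le_mul_left c1 (show (z.map Prod.fst).count b + 1 ≤ N + 1 by omega)
    omega
  have hzlen : N < z.length := by
    have := List.count_le_length (a := b) (l := z.map Prod.fst)
    rw [List.length_map] at this
    omega
  obtain ⟨u, v, m, x, y, rfl, hwin, hvx, hpump⟩ := hP z ⟨t, hzL⟩ hzlen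
  have hvx1 : 1 ≤ v.length + x.length := by
    by_contra h0
    push Not at h0
    apply hvx
    have h1 : v.length = 0 := by omega
    have h2 : x.length = 0 := by omega
    rw [List.length_eq_zero_iff] at h1 h2
    rw [h1, h2]; rfl
  -- lengths of pumped words
  have hne : ∀ i, 1 ≤ i → u ++ (pw v i ++ (m ++ (pw x i ++ y))) ≠ [] := by
    intro i hi h0
    have h1 := congrArg List.length h0
    simp only [List.length_append, pw_length, List.length_nil] at h1
    have h2 : 1 * (v.length + x.length) ≤ i * (v.length + x.length) := Nat.mul_le_mul_right _ hi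
    have h3 : i * (v.length + x.length) = i * v.length + i * x.length := by ring
    omega
  have hlong : ∀ i, i ≤ (u ++ (pw v i ++ (m ++ (pw x i ++ y)))).length := by
    intro i
    simp only [List.length_append, pw_length]
    have h2 : i * 1 ≤ i * (v.length + x.length) := Nat.mul_le_mul_left _ hvx1
    have h3 : i * (v.length + x.length) = i * v.length + i * x.length := by ring
    omega
  have hcnt : ∀ (σ : α) (i : ℕ),
      ((u ++ (pw v i ++ (m ++ (pw x i ++ y)))).map Prod.fst).count σ =
      ((u.map Prod.fst).count σ + (m.map Prod.fst).count σ + (y.map Prod.fst).count σ) +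
        i * ((v.map Prod.fst).count σ + (x.map Prod.fst).count σ) := by
    intro σ i
    simp only [List.map_append, pw_map, List.count_append, pw_count]
    ring
  have hb : 0 < (v.map Prod.fst).count b + (x.map Prod.fst).count b := by
    by_contra h0
    push Not at h0
    have h1 : (v.map Prod.fst).count b + (x.map Prod.fst).count b = 0 := by omega
    set B := C.D ^ (c1 * (((u.map Prod.fst).count b + (m.map Prod.fst).count b +
      (y.map Prod.fst).count b) + 1)) with hB
    have h2 := hlen1 _ (hpump (B + 1) (by omega)) (hne _ (by omega))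
    rw [hcnt b (B + 1), h1] at h2
    simp only [Nat.mul_zero, Nat.add_zero] at h2
    have h3 := hlong (B + 1)
    omega
  have hc : 0 < (v.map Prod.fst).count c + (x.map Prod.fst).count c := by
    by_contra h0
    push Not at h0
    have h1 : (v.map Prod.fst).count c + (x.map Prod.fst).count c = 0 := by omega
    set B := C.D ^ (c2 * (((u.map Prod.fst).count c + (m.map Prod.fst).count c +
      (y.map Prod.fst).count c) + 1)) with hB
    have h2 := hlen2 _ (hpump (B + 1) (by omega)) (hne _ (by omega))
    rw [hcnt c (B + 1), h1] at h2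
    simp only [Nat.mul_zero, Nat.add_zero] at h2
    have h3 := hlong (B + 1)
    omega
  have hL1 := hproj _ (hpump 1 (by omega))
  have hL2 := hproj _ (hpump 2 (by omega))
  have ha : 0 < (v.map Prod.fst).count a + (x.map Prod.fst).count a := by
    have h1 := hKP.ab _ hL1
    have h2 := hKP.ab _ hL2
    rw [hcnt a, hcnt b] at h1 h2
    omega
  have hd : 0 < (v.map Prod.fst).count d + (x.map Prod.fst).count d := by
    have h1 := hKP.cd _ hL1
    have h2 := hKP.cd _ hL2
    rw [hcnt c, hcnt d] at h1 h2
    omega
  have hmem : ∀ σ, 0 < (v.map Prod.fst).count σ + (x.map Prod.fst).count σ →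
      σ ∈ v.map Prod.fst ∨ σ ∈ x.map Prod.fst := by
    intro σ hσ
    by_cases h1 : 0 < (v.map Prod.fst).count σ
    · exact Or.inl (List.count_pos_iff.1 h1)
    · exact Or.inr (List.count_pos_iff.1 (by omega))
  have ma := hmem a ha
  have mb := hmem b hb
  have mc := hmem c hc
  have md := hmem d hd
  rw [pw_one, pw_one] at hL1
  have hLne : (u ++ (v ++ (m ++ (x ++ y)))).map Prod.fst ≠ [] := by
    intro h0
    have h1 := hne 1 (by omega)
    rw [pw_one, pw_one] at h1
    apply h1
    simpa using h0
  have hle := window hKP (U := u.map Prod.fst) (V := v.map Prod.fst) (M := m.map Prod.fst)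
    (X := x.map Prod.fst) (Z := y.map Prod.fst) (by simpa using hL1) (by simpa using hLne)
    ma mb mc md
  have e1 : (u ++ (v ++ (m ++ (x ++ y)))).map Prod.fst = u.map Prod.fst ++ (v.map Prod.fst ++
      (m.map Prod.fst ++ (x.map Prod.fst ++ y.map Prod.fst))) := by simp
  rw [e1] at hcb
  simp only [List.length_append, List.length_map] at hle hwin
  omega

end Pool.Agent.EOLForms
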