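import Pool.Agent.EOLForms.Seq

/-! Languages with finitely many left quotients. -/

namespace Pool.Agent.EOLForms

variable {α : Type*}

/-- left quotient -/
def lq (L : Set (List α)) (x : List α) : Set (List α) := {y | x ++ y ∈ L}

/-- finitely many left quotients -/
def Rg (L : Set (List α)) : Prop := (Set.range (lq L)).Finite

/-- reversal -/
def revL (L : Set (List α)) : Set (List α) := {y | y.reverse ∈ L}

/-- product -/
def prodL (L M : Set (List α)) : Set (List α) := {z | ∃ x ∈ L, ∃ y ∈ M, z = x ++ y}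

lemma lq_nil (L : Set (List α)) : lq L [] = L := rfl

lemma lq_append (L : Set (List α)) (x y : List α) : lq L (x ++ y) = lq (lq L x) y := by
  ext z
  simp [lq]

lemma Rg_iff (L : Set (List α)) : Rg L ↔ Language.IsRegular (show Language α from L) := by
  rw [Language.isRegular_iff_finite_range_leftQuotient]
  rfl

lemma rv_rv (L : Set (List α)) : revL (revL L) = L := by
  ext z
  simp [revL]

lemma Rg_rev {L : Set (List α)} (h : Rg L) : Rg (revL L) := by
  rw [Rg_iff] at h ⊢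
  exact h.reverse

/-- the criterion: a finite family closed under left peeling consists of regular languages -/
theorem Rg_of_family (𝓕 : Set (Set (List α))) (hfin : 𝓕.Finite)
    (h : ∀ M ∈ 𝓕, ∀ a z, (a :: z) ∈ M → ∃ M' ∈ 𝓕, z ∈ M' ∧ ∀ y ∈ M', (a :: y) ∈ M) :
    ∀ M ∈ 𝓕, Rg M := by
  intro M hM
  have key : ∀ (x : List α) (M : Set (List α)), M ∈ 𝓕 → ∀ z, x ++ z ∈ M →
      ∃ M' ∈ 𝓕, z ∈ M' ∧ ∀ y ∈ M', x ++ y ∈ M := by
    intro x
    induction x with
    | nil => intro M hM z hz; exact ⟨M, hM, hz, fun y hy => hy⟩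
    | cons a x ih =>
      intro M hM z hz
      obtain ⟨M1, h1, h2, h3⟩ := h M hM a (x ++ z) hz
      obtain ⟨M2, h4, h5, h6⟩ := ih M1 h1 z h2
      exact ⟨M2, h4, h5, fun y hy => h3 _ (h6 y hy)⟩
  refine (hfin.powerset.image fun 𝒢 : Set (Set (List α)) => ⋃₀ 𝒢).subset ?_
  rintro N ⟨x, rfl⟩
  refine ⟨{M' | M' ∈ 𝓕 ∧ ∀ y ∈ M', x ++ y ∈ M}, fun M' hM' => hM'.1, ?_⟩
  ext z
  simp only [Set.mem_sUnion]
  constructor
  · rintro ⟨M', hM', hz⟩
    exact hM'.2 z hz
  · intro hz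
    obtain ⟨M', h1, h2, h3⟩ := key x M hM z hz
    exact ⟨M', ⟨h1, h3⟩, h2⟩

lemma Rg_empty : Rg (∅ : Set (List α)) := by
  refine Rg_of_family {∅} (Set.finite_singleton _) ?_ ∅ rfl
  rintro M rfl a z hz
  exact absurd hz (by simp)

lemma Rg_nil : Rg ({[]} : Set (List α)) := by
  refine Rg_of_family {{[]}} (Set.finite_singleton _) ?_ {[]} rfl
  rintro M rfl a z hz
  simp at hz

lemma Rg_single (a : α) : Rg ({[a]} : Set (List α)) := by
  refine Rg_of_family {{[a]}, {[]}} (Set.toFinite _) ?_ {[a]} (Or.inl rfl)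
  rintro M (rfl | rfl) b z hz
  · simp only [Set.mem_singleton_iff, List.cons.injEq] at hz
    obtain ⟨rfl, rfl⟩ := hz
    exact ⟨{[]}, Or.inr rfl, rfl, by rintro y rfl; rfl⟩
  · simp at hz

/-- The least solution of a right-linear system over regular languages is regular. -/
theorem sys_reg {ι : Type*} [Finite ι] (L : ι → ℕ → Set (List α)) (Ps : Set (Set (List α)))
    (hPs : Ps.Finite) (hreg : ∀ P ∈ Ps, Rg P)
    (H : ∀ i t z, z ∈ L i t →
      (∃ P ∈ Ps, z ∈ P ∧ ∀ y ∈ P, ∃ t', y ∈ L i t') ∨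
      (∃ P ∈ Ps, ∃ j, ∃ t' < t, ∃ p ∈ P, ∃ l ∈ L j t', z = p ++ l ∧
        ∀ p' ∈ P, ∀ l', (∃ t'', l' ∈ L j t'') → ∃ t'', p' ++ l' ∈ L i t'')) :
    ∀ i, Rg {z | ∃ t, z ∈ L i t} := by
  set U : ι → Set (List α) := fun i => {z | ∃ t, z ∈ L i t} with hU
  set 𝓠 : Set (Set (List α)) := ⋃ P ∈ Ps, Set.range (lq P) with h𝓠
  have h𝓠fin : 𝓠.Finite := hPs.biUnion fun P hP => hreg P hP
  have h𝓠q : ∀ Q ∈ 𝓠, ∀ a, lq Q [a] ∈ 𝓠 := by
    intro Q hQ a
    simp only [h𝓠, Set.mem_iUnion] at hQ ⊢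
    obtain ⟨P, hP, x, rfl⟩ := hQ
    exact ⟨P, hP, x ++ [a], lq_append P x [a]⟩
  have h𝓠P : ∀ P ∈ Ps, P ∈ 𝓠 := by
    intro P hP
    simp only [h𝓠, Set.mem_iUnion]
    exact ⟨P, hP, [], rfl⟩
  set 𝓕 : Set (Set (List α)) := 𝓠 ∪ ((fun q : Set (List α) × ι => prodL q.1 (U q.2)) ''
    (𝓠 ×ˢ Set.univ)) ∪ Set.range U with h𝓕
  have h𝓕fin : 𝓕.Finite :=
    (h𝓠fin.union ((h𝓠fin.prod Set.finite_univ).image _)).union (Set.finite_range U)
  have claim : ∀ (t : ℕ) (i : ι) (a : α) (z : List α), (a :: z) ∈ L i t →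
      ∃ M' ∈ 𝓕, z ∈ M' ∧ ∀ y ∈ M', (a :: y) ∈ U i := by
    intro t
    induction t using Nat.strong_induction_on with
    | _ t ih =>
    intro i a z hz
    rcases H i t _ hz with ⟨P, hP, h1, h2⟩ | ⟨P, hP, j, t', ht', p, hp, l, hl, h1, h2⟩
    · exact ⟨lq P [a], Or.inl (Or.inl (h𝓠q P (h𝓠P P hP) a)), h1, fun y hy => h2 _ hy⟩
    · cases p with
      | nil =>
        rw [List.nil_append] at h1
        subst h1
        obtain ⟨M', k1, k2, k3⟩ := ih t' ht' j a z hl
        exact ⟨M', k1, k2, fun y hy => h2 [] hp _ (k3 y hy)⟩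
      | cons b p =>
        rw [List.cons_append, List.cons.injEq] at h1
        obtain ⟨rfl, rfl⟩ := h1
        refine ⟨prodL (lq P [a]) (U j), Or.inl (Or.inr ⟨(lq P [a], j),
          ⟨h𝓠q P (h𝓠P P hP) a, Set.mem_univ _⟩, rfl⟩), ⟨p, hp, l, ⟨t', hl⟩, rfl⟩, ?_⟩
        rintro y ⟨p', hp', l', hl', rfl⟩
        exact h2 (a :: p') hp' l' hl'
  intro i
  refine Rg_of_family 𝓕 h𝓕fin ?_ (U i) (Or.inr ⟨i, rfl⟩)
  rintro M ((hM | ⟨⟨Q, j⟩, ⟨hQ, -⟩, rfl⟩) | ⟨j, rfl⟩) a z hz
  · exact ⟨lq M [a], Or.inl (Or.inl (h𝓠q M hM a)), hz, fun y hy => hy⟩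
  · obtain ⟨q, hq, l, hl, h1⟩ := hz
    simp only at hq hl hQ
    cases q with
    | nil =>
      rw [List.nil_append] at h1
      subst h1
      obtain ⟨t, ht⟩ := hl
      obtain ⟨M', k1, k2, k3⟩ := claim t j a z ht
      exact ⟨M', k1, k2, fun y hy => ⟨[], hq, a :: y, k3 y hy, rfl⟩⟩
    | cons b q =>
      rw [List.cons_append, List.cons.injEq] at h1
      obtain ⟨rfl, rfl⟩ := h1
      refine ⟨prodL (lq Q [a]) (U j), Or.inl (Or.inr ⟨(lq Q [a], j),
          ⟨h𝓠q Q hQ a, Set.mem_univ _⟩, rfl⟩), ⟨q, hq, l, hl, rfl⟩, ?_⟩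
      rintro y ⟨p', hp', l', hl', rfl⟩
      exact ⟨a :: p', hp', l', hl', rfl⟩
  · obtain ⟨t, ht⟩ := hz
    exact claim t j a z ht

/-- regular languages are closed under product -/
theorem Rg_prod {L M : Set (List α)} (hL : Rg L) (hM : Rg M) : Rg (prodL L M) := by
  have := sys_reg (ι := Bool) (fun i t => if i then (if t = 0 then ∅ else prodL L M) else M)
    {L, M} (Set.toFinite _) (by rintro P (rfl | rfl) <;> assumption) (by
      intro i t z hz
      cases i with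
      | false =>
        left
        simp only [Bool.false_eq_true, if_false] at hz ⊢
        exact ⟨M, Or.inr rfl, hz, fun y hy => ⟨0, hy⟩⟩
      | true =>
        right
        simp only [if_true] at hz
        by_cases ht : t = 0
        · simp [ht] at hz
        · simp only [ht, if_false] at hz
          obtain ⟨x, hx, y, hy, rfl⟩ := hz
          refine ⟨L, Or.inl rfl, false, 0, by omega, x, hx, y, by simpa using hy, rfl, ?_⟩
          intro p' hp' l' hl'
          simp only [Bool.false_eq_true, if_false, exists_const] at hl'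
          exact ⟨1, by simp only [if_true, one_ne_zero, if_false]; exact ⟨p', hp', l', hl', rfl⟩⟩)
    true
  have e : {z | ∃ t : ℕ, z ∈ (if t = 0 then (∅ : Set (List α)) else prodL L M)} = prodL L M := by
    ext z
    simp only [Set.mem_ofPred_eq]
    constructor
    · rintro ⟨t, ht⟩
      by_cases h0 : t = 0
      · simp [h0] at ht
      · simpa [h0] using ht
    · intro hz
      exact ⟨1, by simpa using hz⟩
  simp only [if_true] at this
  rw [e] at this
  exact this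

end Pool.Agent.EOLForms
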