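import Pool.Agent.EOLForms.PumpContra
import Pool.Agent.EOLForms.Lift

/-! Sequential derivations as parallel derivations with idle steps. -/

namespace Pool.Agent.EOLForms

variable {α : Type*} {R : α → List α → Prop} {T : α → Prop}

/-- productions with idle steps -/
def Pl (R : α → List α → Prop) (X : α) (β : List α) : Prop := R X β ∨ β = [X]

lemma PStep_Pl_refl (x : List α) : PStep (Pl R) x x := by
  induction x with
  | nil => exact PStep_nil.2 rfl
  | cons X x ih => exact PStep_cons.2 ⟨[X], x, Or.inr rfl, ih, rfl⟩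

lemma DL_Pl_mono {s t : ℕ} (hst : s ≤ t) {x z : List α} (h : DL (Pl R) s x z) :
    DL (Pl R) t x z := by
  obtain ⟨k, rfl⟩ := Nat.exists_eq_add_of_le hst
  clear hst
  induction k with
  | zero => exact h
  | succ k ih => exact ⟨x, PStep_Pl_refl x, ih⟩

lemma LT_Pl_mono {s t : ℕ} (hst : s ≤ t) {x z : List α} (h : LT (Pl R) T s x z) :
    LT (Pl R) T t x z := ⟨DL_Pl_mono hst h.1, h.2⟩

/-- derivation of arbitrary words -/
def Der (R : α → List α → Prop) (x y : List α) : Prop := ∃ t, DL (Pl R) t x y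

/-- derivation of terminal words -/
def Yl (R : α → List α → Prop) (T : α → Prop) (x z : List α) : Prop := ∃ t, LT (Pl R) T t x z

lemma Der.refl (x : List α) : Der R x x := ⟨0, rfl⟩

lemma Der.trans {x y z : List α} (h1 : Der R x y) (h2 : Der R y z) : Der R x z := by
  obtain ⟨s, hs⟩ := h1
  obtain ⟨t, ht⟩ := h2
  exact ⟨s + t, DL_trans hs ht⟩

lemma Der.single {X : α} {β : List α} (h : R X β) : Der R [X] β :=
  ⟨1, DL_single_succ.2 ⟨β, Or.inl h, rfl⟩⟩

lemma Der.append {x1 x2 y1 y2 : List α} (h1 : Der R x1 y1) (h2 : Der R x2 y2) :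
    Der R (x1 ++ x2) (y1 ++ y2) := by
  obtain ⟨s, hs⟩ := h1
  obtain ⟨t, ht⟩ := h2
  exact ⟨max s t, DL_append.2 ⟨y1, y2, DL_Pl_mono (le_max_left _ _) hs,
    DL_Pl_mono (le_max_right _ _) ht, rfl⟩⟩

lemma Yl_iff {x z : List α} : Yl R T x z ↔ Der R x z ∧ ∀ a ∈ z, T a := by
  constructor
  · rintro ⟨t, h1, h2⟩
    exact ⟨⟨t, h1⟩, h2⟩
  · rintro ⟨⟨t, h1⟩, h2⟩
    exact ⟨t, h1, h2⟩

lemma Der.yl {x y z : List α} (h1 : Der R x y) (h2 : Yl R T y z) : Yl R T x z := by
  rw [Yl_iff] at h2 ⊢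
  exact ⟨h1.trans h2.1, h2.2⟩

lemma Yl_nil {z : List α} : Yl R T [] z ↔ z = [] := by
  constructor
  · rintro ⟨t, ht⟩
    exact LT_nil.1 ht
  · rintro rfl
    exact ⟨0, LT_nil.2 rfl⟩

lemma Yl_append {x1 x2 z : List α} :
    Yl R T (x1 ++ x2) z ↔ ∃ z1 z2, Yl R T x1 z1 ∧ Yl R T x2 z2 ∧ z = z1 ++ z2 := by
  constructor
  · rintro ⟨t, ht⟩
    obtain ⟨z1, z2, h1, h2, rfl⟩ := LT_append.1 ht
    exact ⟨z1, z2, ⟨t, h1⟩, ⟨t, h2⟩, rfl⟩
  · rintro ⟨z1, z2, ⟨s, hs⟩, ⟨t, ht⟩, rfl⟩
    exact ⟨max s t, LT_append.2 ⟨z1, z2, LT_Pl_mono (le_max_left _ _) hs,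
      LT_Pl_mono (le_max_right _ _) ht, rfl⟩⟩

lemma Yl_cons {X : α} {x z : List α} :
    Yl R T (X :: x) z ↔ ∃ z1 z2, Yl R T [X] z1 ∧ Yl R T x z2 ∧ z = z1 ++ z2 := by
  have : X :: x = [X] ++ x := rfl
  rw [this, Yl_append]

lemma Yl_mid {x1 x2 z : List α} {X : α} :
    Yl R T (x1 ++ X :: x2) z ↔ ∃ z1 y z2, Yl R T x1 z1 ∧ Yl R T [X] y ∧ Yl R T x2 z2 ∧
      z = z1 ++ (y ++ z2) := by
  rw [Yl_append]
  constructor
  · rintro ⟨z1, z2, h1, h2, rfl⟩
    rw [Yl_cons] at h2
    obtain ⟨y, z3, h3, h4, rfl⟩ := h2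
    exact ⟨z1, y, z3, h1, h3, h4, rfl⟩
  · rintro ⟨z1, y, z2, h1, h3, h4, rfl⟩
    exact ⟨z1, y ++ z2, h1, Yl_cons.2 ⟨y, z2, h3, h4, rfl⟩, rfl⟩

lemma Yl.term {z : List α} (h : ∀ a ∈ z, T a) : Yl R T z z := ⟨0, rfl, h⟩

lemma Yl.isTerm {x z : List α} (h : Yl R T x z) : ∀ a ∈ z, T a := by
  obtain ⟨t, h1, h2⟩ := h
  exact h2

/-- all symbols of `x` are productive if `x` is -/
lemma Yl.mem {x z : List α} (h : Yl R T x z) {X : α} (hX : X ∈ x) : ∃ z', Yl R T [X] z' := by
  obtain ⟨x1, x2, rfl⟩ := List.append_of_mem hX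
  obtain ⟨z1, y, z2, h1, h2, h3, rfl⟩ := Yl_mid.1 h
  exact ⟨y, h2⟩

/-- terminal symbols only derive themselves -/
lemma Yl_of_terminal (hcf : ∀ a β, T a → ¬ R a β) {a : α} (ha : T a) {z : List α}
    (h : Yl R T [a] z) : z = [a] := by
  obtain ⟨t, ht⟩ := h
  induction t with
  | zero => exact ht.1
  | succ t ih =>
    rw [LT_single_succ] at ht
    obtain ⟨β, h1, h2⟩ := ht
    rcases h1 with h1 | rfl
    · exact absurd h1 (hcf a β ha)
    · exact ih h2

/-- context derivations -/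
def Ctx (R : α → List α → Prop) (T : α → Prop) (A B : α) (u v : List α) : Prop :=
  Der R [A] (u ++ ([B] ++ v)) ∧ (∀ a ∈ u, T a) ∧ (∀ a ∈ v, T a)

lemma Ctx.refl (A : α) : Ctx R T A A [] [] := ⟨Der.refl _, by simp, by simp⟩

lemma Ctx.trans {A B C : α} {u v u' v' : List α} (h1 : Ctx R T A B u v)
    (h2 : Ctx R T B C u' v') : Ctx R T A C (u ++ u') (v' ++ v) := by
  refine ⟨?_, ?_, ?_⟩
  · have := h1.1.trans ((Der.refl u).append (h2.1.append (Der.refl v)))
    simpa using this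
  · intro a ha
    rw [List.mem_append] at ha
    rcases ha with ha | ha
    · exact h1.2.1 a ha
    · exact h2.2.1 a ha
  · intro a ha
    rw [List.mem_append] at ha
    rcases ha with ha | ha
    · exact h2.2.2 a ha
    · exact h1.2.2 a ha

lemma Ctx.yl {A B : α} {u v w : List α} (h1 : Ctx R T A B u v) (h2 : Yl R T [B] w) :
    Yl R T [A] (u ++ (w ++ v)) := by
  refine h1.1.yl ?_
  rw [Yl_append]
  refine ⟨u, w ++ v, Yl.term h1.2.1, ?_, rfl⟩
  rw [Yl_append]
  exact ⟨w, v, h2, Yl.term h1.2.2, rfl⟩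

lemma Ctx.of_rule {A B : α} {β1 β2 z1 z2 : List α} (h : R A (β1 ++ B :: β2))
    (h1 : Yl R T β1 z1) (h2 : Yl R T β2 z2) : Ctx R T A B z1 z2 := by
  rw [Yl_iff] at h1 h2
  refine ⟨?_, h1.2, h2.2⟩
  refine (Der.single h).trans ?_
  have := h1.1.append ((Der.refl [B]).append h2.1)
  simpa using this

lemma pw_succ' {β : Type*} (v : List β) (i : ℕ) : pw v (i + 1) = pw v i ++ v := by
  induction i with
  | zero => simp [pw]
  | succ i ih =>
    rw [pw_succ v (i + 1), ih, ← List.append_assoc, ← pw_succ, ih]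

lemma Ctx.pow {A : α} {u v : List α} (h : Ctx R T A A u v) (i : ℕ) :
    Ctx R T A A (pw u i) (pw v i) := by
  induction i with
  | zero => exact Ctx.refl A
  | succ i ih =>
    have := h.trans ih
    rw [pw_succ, pw_succ']
    exact this

section

variable (G : Gr)

lemma seq_ctx {x y : List Sym} (h : Relation.ReflTransGen G.SeqStep x y) (u v : List Sym) :
    Relation.ReflTransGen G.SeqStep (u ++ x ++ v) (u ++ y ++ v) := by
  induction h with
  | refl => exact Relation.ReflTransGen.refl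
  | tail _ h2 ih =>
    refine ih.tail ?_
    obtain ⟨u', v', X, β, hX, rfl, rfl⟩ := h2
    exact ⟨u ++ u', v' ++ v, X, β, hX, by simp, by simp⟩

theorem seq_iff {x y : List Sym} :
    Relation.ReflTransGen G.SeqStep x y ↔ Der G.rel x y := by
  constructor
  · intro h
    induction h with
    | refl => exact Der.refl _
    | tail _ h2 ih =>
      refine ih.trans ?_
      obtain ⟨u, v, X, β, hX, rfl, rfl⟩ := h2
      exact ((Der.refl u).append (Der.single hX)).append (Der.refl v)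
  · rintro ⟨t, ht⟩
    induction t generalizing x with
    | zero => simp only [DL] at ht; subst ht; exact Relation.ReflTransGen.refl
    | succ t ih =>
      obtain ⟨w, h1, h2⟩ := ht
      refine Relation.ReflTransGen.trans ?_ (ih h2)
      clear h2 ih
      induction x generalizing w with
      | nil => rw [PStep_nil] at h1; subst h1; exact Relation.ReflTransGen.refl
      | cons X x ih2 =>
        rw [PStep_cons] at h1
        obtain ⟨y1, y2, h3, h4, rfl⟩ := h1
        have h5 := seq_ctx G (ih2 _ h4) [X] []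
        have h6 : Relation.ReflTransGen G.SeqStep [X] y1 := by
          rcases h3 with h3 | rfl
          · exact Relation.ReflTransGen.single ⟨[], [], X, y1, h3, by simp, by simp⟩
          · exact Relation.ReflTransGen.refl
        have h7 := seq_ctx G h6 [] y2
        simp only [List.append_nil, List.nil_append, List.singleton_append] at h5 h7
        exact h5.trans h7

end

end Pool.Agent.EOLForms
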